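import Pool.Agent.PrepH.Gap

/-!
# Finiteness of the polynomials of given degree commuting with an iterate
-/

namespace Pool.Agent.PrepH

open Polynomial

variable {F : Type*} [Field F]

private theorem comm_iff [Infinite F] {f g : F[X]} (m : ℕ) :
    (∀ x : F, ev g ((ev f)^[m] x) = (ev f)^[m] (ev g x)) ↔
      g.comp (itp f m) = (itp f m).comp g := by
  constructor
  · intro h
    apply Polynomial.funext
    intro x
    rw [eval_comp, eval_comp]
    have := h x
    rw [← ev_itp] at this
    exact this
  · intro h x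
    rw [← ev_itp]
    show g.eval ((itp f m).eval x) = (itp f m).eval (g.eval x)
    rw [← eval_comp, ← eval_comp, h]

/-- **PROOF.** `ev_itp`, `eval_comp` and `Polynomial.funext`. -/
theorem commIter_iff [Infinite F] {f g : F[X]} :
    CommIter f g ↔ ∃ m : ℕ, 1 ≤ m ∧ g.comp (itp f m) = (itp f m).comp g := by
  unfold CommIter
  constructor
  · rintro ⟨m, hm, h⟩
    exact ⟨m, hm, (comm_iff m).1 h⟩
  · rintro ⟨m, hm, h⟩
    exact ⟨m, hm, (comm_iff m).2 h⟩

/-- Conjugation by the translation `X + C t`. -/
private noncomputable def cj (t : F) (A : F[X]) : F[X] := A.comp (X + C t) - C t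

private theorem cj_comp (t : F) (A B : F[X]) : (cj t A).comp (cj t B) = cj t (A.comp B) := by
  unfold cj
  rw [sub_comp, C_comp, comp_assoc, comp_assoc]
  congr 2
  simp

private theorem cj_itp (t : F) (f : F[X]) (m : ℕ) : cj t (itp f m) = itp (cj t f) m := by
  induction m with
  | zero => simp [itp, cj]
  | succ m ih =>
    unfold itp at ih ⊢
    rw [Function.iterate_succ_apply', Function.iterate_succ_apply', ← ih, cj_comp]

private theorem cj_inj (t : F) : Function.Injective (cj t) := by
  intro A B h
  unfold cj at h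
  have h1 : A.comp (X + C t) = B.comp (X + C t) := sub_left_injective h
  have h2 := congrArg (fun P : F[X] => P.comp (X - C t)) h1
  simpa [comp_assoc] using h2

private theorem cj_natDegree (t : F) {A : F[X]} (_hA : 1 ≤ A.natDegree) :
    (cj t A).natDegree = A.natDegree := by
  unfold cj
  rw [natDegree_sub_C, natDegree_comp, natDegree_X_add_C, mul_one]

private theorem comm_mul {f g : F[X]} {m : ℕ} (k : ℕ)
    (h : ∀ x : F, ev g ((ev f)^[m] x) = (ev f)^[m] (ev g x)) :
    ∀ x : F, ev g ((ev f)^[m * k] x) = (ev f)^[m * k] (ev g x) := by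
  intro x
  have h1 : Function.Commute (ev g) ((ev f)^[m]) := h
  have h2 := h1.iterate_right k
  rw [← Function.iterate_mul] at h2
  exact h2 x

private theorem cj_coeff [CharZero F] {f : F[X]} (hf : 2 ≤ f.natDegree) :
    ∃ t : F, (cj t f).nextCoeff = 0 := by
  set q := hasseDeriv (f.natDegree - 1) f with hq
  have hq1 : q.natDegree ≤ 1 := by
    have := natDegree_hasseDeriv_le f (f.natDegree - 1)
    rw [← hq] at this
    omega
  have hc1 : q.coeff 1 ≠ 0 := by
    rw [hq, hasseDeriv_coeff]
    have e1 : 1 + (f.natDegree - 1) = f.natDegree := by omega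
    rw [e1]
    apply mul_ne_zero
    · rw [Nat.cast_ne_zero]
      exact (Nat.choose_pos (by omega)).ne'
    · rw [coeff_natDegree, leadingCoeff_ne_zero]
      rintro rfl
      simp at hf
  refine ⟨-(q.coeff 0) / q.coeff 1, ?_⟩
  have hd : (cj (-(q.coeff 0) / q.coeff 1) f).natDegree = f.natDegree :=
    cj_natDegree _ (by omega)
  rw [nextCoeff_of_natDegree_pos (by omega), hd]
  unfold cj
  rw [coeff_sub, coeff_C_of_ne_zero (by omega), sub_zero, ← taylor_apply, taylor_coeff, ← hq,
    eq_X_add_C_of_natDegree_le_one hq1]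
  simp only [eval_add, eval_mul, eval_C, eval_X, coeff_add, coeff_C_mul, coeff_X_one, coeff_C_zero,
    coeff_X_zero, coeff_C_succ, mul_one, mul_zero, zero_add, add_zero]
  field_simp
  ring

/-- **PROOF.** Let `d = natDegree f`, `a` the leading coefficient, `t = - f.coeff (d - 1) / (d a)` and
`f' = (f.comp (X + C t)) - C t`, `g' = (g.comp (X + C t)) - C t`; then the coefficient of `X^(d - 1)`
in `f'` is `0`, `f'` has leading coefficient `a`, and `g ↦ g'` is injective, preserves degrees and
maps polynomials commuting with an iterate of `f` to polynomials commuting with the same iterate of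
`f'`. If `f' = a X^d`, then, with `b^(d - 1) = a` (`F` is algebraically closed), the linear polynomial
`b (X - t)` conjugates `f` to `X^d`, against the hypothesis. So `R = f' - a X^d ≠ 0` and
`HasGap s f'` with `s = d - natDegree R ≥ 2`. If `g_0` is one element of the set of the theorem
(for `f'`), then for every other element `g` there is a common iterate `G = itp f' m` commuting with
both (multiply the two exponents), `HasGap s G` by `hasGap_itp`, and `comm_eq` gives `g = ω g_0` with
`ω ^ s = 1`: finitely many. -/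
theorem finite_comm [IsAlgClosed F] [CharZero F] {f : F[X]} (hf : 2 ≤ f.natDegree)
    (hX : ¬ LinConj f (X ^ f.natDegree)) (e : ℕ) (he : 1 ≤ e) :
    {g : F[X] | g.natDegree = e ∧ CommIter f g}.Finite := by
  obtain ⟨t, ht⟩ := cj_coeff hf
  have hdeg : (cj t f).natDegree = f.natDegree := cj_natDegree t (by omega)
  have hR : (cj t f).eraseLead ≠ 0 := by
    intro h0
    apply hX
    have h1 := eraseLead_add_C_mul_X_pow (cj t f)
    rw [h0, zero_add, hdeg] at h1
    obtain ⟨b, hb⟩ := IsAlgClosed.exists_pow_nat_eq (cj t f).leadingCoeff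
      (n := f.natDegree - 1) (by omega)
    have ha : (cj t f).leadingCoeff ≠ 0 := by
      rw [leadingCoeff_ne_zero]
      intro h
      rw [h, natDegree_zero] at hdeg
      omega
    have hb0 : b ≠ 0 := by
      rintro rfl
      rw [zero_pow (by omega)] at hb
      exact ha hb.symm
    have h2 : f = C (cj t f).leadingCoeff * (X - C t) ^ f.natDegree + C t := by
      have h3 : f.comp (X + C t) = C (cj t f).leadingCoeff * X ^ f.natDegree + C t := by
        rw [h1]; unfold cj; ring
      have h4 := congrArg (fun P : F[X] => P.comp (X - C t)) h3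
      simpa [comp_assoc] using h4
    refine ⟨b, -(b * t), hb0, ?_⟩
    have h5 : (C b * X + C (-(b * t))).comp f = C b * (f - C t) := by
      simp; ring
    have h6 : (X ^ f.natDegree : F[X]).comp (C b * X + C (-(b * t))) =
        (C b * (X - C t)) ^ f.natDegree := by
      rw [pow_comp, X_comp]
      congr 1
      simp; ring
    rw [h5, h6]
    have h7 : f - C t = C (cj t f).leadingCoeff * (X - C t) ^ f.natDegree := by
      nth_rewrite 1 [h2]; ring
    rw [h7, mul_pow, ← mul_assoc, ← hb, ← C_mul, ← C_pow]
    congr 2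
    rw [← pow_succ']
    congr 1
    omega
  have hRd : (cj t f).eraseLead.natDegree ≤ f.natDegree - 2 := by
    rw [← hdeg]
    exact natDegree_eraseLead_le_of_nextCoeff_eq_zero ht
  obtain ⟨s, hs⟩ : ∃ s, (cj t f).eraseLead.natDegree + s = f.natDegree :=
    ⟨f.natDegree - (cj t f).eraseLead.natDegree, by omega⟩
  have hs2 : 2 ≤ s := by omega
  have hgap : HasGap s (cj t f) := by
    refine ⟨(cj t f).eraseLead, hR, ?_, ?_⟩
    · rw [add_comm]
      exact (eraseLead_add_C_mul_X_pow (cj t f)).symm
    · rw [hdeg]; exact hs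
  rcases Set.eq_empty_or_nonempty {g : F[X] | g.natDegree = e ∧ CommIter f g} with hE | ⟨g₀, hg₀⟩
  · rw [hE]; exact Set.finite_empty
  · obtain ⟨hg₀d, m₀, hm₀, hc₀⟩ := hg₀
    have hfin : {ω : F | ω ^ s = 1}.Finite := by
      apply Set.Finite.subset (Multiset.finite_toSet (nthRoots s (1 : F)))
      intro ω hω
      exact (mem_nthRoots (by omega)).2 hω
    refine Set.Finite.of_finite_image (f := cj t) ?_ (cj_inj t).injOn
    apply Set.Finite.subset (hfin.image (fun ω => C ω * cj t g₀))
    rintro _ ⟨g, ⟨hgd, m, hm, hc⟩, rfl⟩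
    have c1 : g.comp (itp f (m * m₀)) = (itp f (m * m₀)).comp g := (comm_iff _).1 (comm_mul m₀ hc)
    have c2 : g₀.comp (itp f (m * m₀)) = (itp f (m * m₀)).comp g₀ := by
      rw [mul_comm m m₀]
      exact (comm_iff _).1 (comm_mul m hc₀)
    have d1 : (itp (cj t f) (m * m₀)).comp (cj t g) = (cj t g).comp (itp (cj t f) (m * m₀)) := by
      rw [← cj_itp, cj_comp, cj_comp, c1]
    have d2 : (itp (cj t f) (m * m₀)).comp (cj t g₀) = (cj t g₀).comp (itp (cj t f) (m * m₀)) := by
      rw [← cj_itp, cj_comp, cj_comp, c2]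
    have hgapG := hasGap_itp (s := s) (by omega) (f := cj t f) (by omega) hgap
      (m := m * m₀) (Nat.mul_pos hm hm₀)
    obtain ⟨ω, hω, hg⟩ := comm_eq hs2 hgapG (g₁ := cj t g) (g₂ := cj t g₀)
      (by rw [cj_natDegree t (by omega)]; omega)
      (by rw [cj_natDegree t (by omega), cj_natDegree t (by omega)]; omega) d1 d2
    exact ⟨ω, hω, hg.symm⟩

end Pool.Agent.PrepH
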