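import Pool.Agent.PrepH.Mult

/-!
# The preperiodic hypersurfaces of Medvedev-Scanlon's form
-/

namespace Pool.Agent.PrepH

open Polynomial

variable {F : Type*} [Field F] {n : ℕ}

/-- **PROOF.** `ev_itp`, `Option.map`. -/
theorem onP1_itp (f : F[X]) (k : ℕ) : onP1 (itp f k) = (onP1 f)^[k] := by

  have h1 : ∀ x : F, (onP1 f)^[k] (some x) = some ((ev f)^[k] x) := by
    intro x
    induction k generalizing x with
    | zero => rfl
    | succ k ih =>
      rw [Function.iterate_succ_apply, Function.iterate_succ_apply]
      exact ih (ev f x)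
  have h2 : (onP1 f)^[k] none = none := by
    clear h1
    induction k with
    | zero => rfl
    | succ k ih =>
      rw [Function.iterate_succ_apply]
      exact ih
  funext x
  cases x with
  | none => exact h2.symm
  | some x =>
    rw [h1 x, ← ev_itp]
    rfl

/-- **PROOF.** For `Option.map (ev (A.comp B))`: `eval_comp`. -/
theorem onP1_comp (A B : F[X]) (x : P1 F) : onP1 (A.comp B) x = onP1 A (onP1 B x) := by

  cases x with
  | none => rfl
  | some x =>
    simp [onP1, ev, eval_comp]

/-- The polynomial `A(X_j) - B(X_i)`. -/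
noncomputable def gph (A B : F[X]) (i j : Fin n) : MvPolynomial (Fin n) F :=
  aeval (MvPolynomial.X j) A - aeval (MvPolynomial.X i) B

private theorem Graph_coeff (A : F[X]) (j : Fin n) (m : Fin n →₀ ℕ) :
    (aeval (MvPolynomial.X j : MvPolynomial (Fin n) F) A).coeff m =
      ∑ l ∈ Finset.range (A.natDegree + 1), if Finsupp.single j l = m then A.coeff l else 0 := by
  classical
  rw [aeval_eq_sum_range, MvPolynomial.coeff_sum]
  refine Finset.sum_congr rfl fun l _ => ?_
  rw [MvPolynomial.X_pow_eq_monomial, MvPolynomial.smul_monomial, MvPolynomial.coeff_monomial,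
    smul_eq_mul, mul_one]

private theorem Graph_sum (A : F[X]) (j : Fin n) (S : Finset (Fin n →₀ ℕ))
    (hS : ∀ l ∈ Finset.range (A.natDegree + 1), Finsupp.single j l ∈ S)
    (w : (Fin n →₀ ℕ) → F) :
    ∑ m ∈ S, (aeval (MvPolynomial.X j : MvPolynomial (Fin n) F) A).coeff m * w m =
      ∑ l ∈ Finset.range (A.natDegree + 1), A.coeff l * w (Finsupp.single j l) := by
  classical
  simp_rw [Graph_coeff, Finset.sum_mul, ite_mul, zero_mul]
  rw [Finset.sum_comm]
  refine Finset.sum_congr rfl fun l hl => ?_
  rw [Finset.sum_ite_eq, if_pos (hS l hl)]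

/-- The finite set of the possible monomials of `gph A B i j`. -/
private noncomputable def Graph_S (A B : F[X]) (i j : Fin n) : Finset (Fin n →₀ ℕ) :=
  open Classical in
  (Finset.range (A.natDegree + 1)).image (fun l => Finsupp.single j l) ∪
    (Finset.range (B.natDegree + 1)).image (fun l => Finsupp.single i l)

private theorem Graph_support (A B : F[X]) (i j : Fin n) :
    (gph A B i j).support ⊆ Graph_S A B i j := by
  classical
  intro m hm
  rw [MvPolynomial.mem_support_iff] at hm
  unfold gph at hm
  rw [MvPolynomial.coeff_sub, Graph_coeff, Graph_coeff] at hm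
  unfold Graph_S
  rw [Finset.mem_union, Finset.mem_image, Finset.mem_image]
  by_contra hcon
  rw [not_or] at hcon
  apply hm
  rw [Finset.sum_eq_zero, Finset.sum_eq_zero, sub_zero]
  · intro l hl
    rw [if_neg]
    intro h
    exact hcon.2 ⟨l, hl, h⟩
  · intro l hl
    rw [if_neg]
    intro h
    exact hcon.1 ⟨l, hl, h⟩

private theorem Graph_single_ne {i j : Fin n} (hij : i ≠ j) {a l : ℕ} (ha : 1 ≤ a) :
    (Finsupp.single j a : Fin n →₀ ℕ) ≠ Finsupp.single i l := by
  intro h
  have h1 := DFunLike.congr_fun h j
  rw [Finsupp.single_eq_same, Finsupp.single_eq_of_ne hij.symm] at h1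
  omega

private theorem Graph_coeff_top {A B : F[X]} (hA : 1 ≤ A.natDegree) {i j : Fin n}
    (hij : i ≠ j) : (gph A B i j).coeff (Finsupp.single j A.natDegree) = A.leadingCoeff := by
  classical
  unfold gph
  rw [MvPolynomial.coeff_sub, Graph_coeff, Graph_coeff]
  have h1 : ∑ l ∈ Finset.range (B.natDegree + 1),
      (if (Finsupp.single i l : Fin n →₀ ℕ) = Finsupp.single j A.natDegree then B.coeff l else 0)
        = 0 := by
    refine Finset.sum_eq_zero fun l _ => ?_
    rw [if_neg (Graph_single_ne hij hA).symm]
  have h2 : ∑ l ∈ Finset.range (A.natDegree + 1),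
      (if (Finsupp.single j l : Fin n →₀ ℕ) = Finsupp.single j A.natDegree then A.coeff l else 0)
        = A.leadingCoeff := by
    rw [Finset.sum_eq_single A.natDegree]
    · rw [if_pos rfl]
      rfl
    · intro l _ hl
      rw [if_neg]
      intro h
      exact hl (Finsupp.single_injective j h)
    · intro h
      exact absurd (Finset.mem_range.2 (Nat.lt_succ_self _)) h
  rw [h1, h2, sub_zero]

private theorem Graph_coeff_top' {A B : F[X]} (hB : 1 ≤ B.natDegree) {i j : Fin n}
    (hij : i ≠ j) : (gph A B i j).coeff (Finsupp.single i B.natDegree) = -B.leadingCoeff := by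
  have h := Graph_coeff_top (A := B) (B := A) hB (i := j) (j := i) hij.symm
  have h2 : gph A B i j = -gph B A j i := by
    unfold gph
    ring
  rw [h2, MvPolynomial.coeff_neg, h]

private theorem Graph_mem_top {A B : F[X]} (hA : 1 ≤ A.natDegree) {i j : Fin n}
    (hij : i ≠ j) : Finsupp.single j A.natDegree ∈ (gph A B i j).support := by
  rw [MvPolynomial.mem_support_iff, Graph_coeff_top hA hij]
  intro h
  rw [leadingCoeff_eq_zero] at h
  rw [h, natDegree_zero] at hA
  omega

private theorem Graph_mem_top' {A B : F[X]} (hB : 1 ≤ B.natDegree) {i j : Fin n}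
    (hij : i ≠ j) : Finsupp.single i B.natDegree ∈ (gph A B i j).support := by
  rw [MvPolynomial.mem_support_iff, Graph_coeff_top' hB hij]
  intro h
  rw [neg_eq_zero, leadingCoeff_eq_zero] at h
  rw [h, natDegree_zero] at hB
  omega

private theorem Graph_deg_le (A B : F[X]) (i j k : Fin n) (d : ℕ)
    (h : ∀ m ∈ Graph_S A B i j, m k ≤ d) : (gph A B i j).degreeOf k ≤ d := by
  rw [MvPolynomial.degreeOf_eq_sup]
  exact Finset.sup_le fun m hm => h m (Graph_support A B i j hm)

private theorem Graph_deg_j {A B : F[X]} (hA : 1 ≤ A.natDegree) {i j : Fin n}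
    (hij : i ≠ j) : (gph A B i j).degreeOf j = A.natDegree := by
  classical
  apply le_antisymm
  · apply Graph_deg_le
    intro m hm
    unfold Graph_S at hm
    rw [Finset.mem_union, Finset.mem_image, Finset.mem_image] at hm
    rcases hm with ⟨l, hl, rfl⟩ | ⟨l, hl, rfl⟩
    · rw [Finsupp.single_eq_same]
      exact Nat.lt_succ_iff.1 (Finset.mem_range.1 hl)
    · rw [Finsupp.single_eq_of_ne hij.symm]
      exact Nat.zero_le _
  · have h := MvPolynomial.monomial_le_degreeOf j (Graph_mem_top (B := B) hA hij)
    rwa [Finsupp.single_eq_same] at h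

private theorem Graph_deg_i {A B : F[X]} (hB : 1 ≤ B.natDegree) {i j : Fin n}
    (hij : i ≠ j) : (gph A B i j).degreeOf i = B.natDegree := by
  classical
  apply le_antisymm
  · apply Graph_deg_le
    intro m hm
    unfold Graph_S at hm
    rw [Finset.mem_union, Finset.mem_image, Finset.mem_image] at hm
    rcases hm with ⟨l, hl, rfl⟩ | ⟨l, hl, rfl⟩
    · rw [Finsupp.single_eq_of_ne hij]
      exact Nat.zero_le _
    · rw [Finsupp.single_eq_same]
      exact Nat.lt_succ_iff.1 (Finset.mem_range.1 hl)
  · have h := MvPolynomial.monomial_le_degreeOf i (Graph_mem_top' (A := A) hB hij)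
    rwa [Finsupp.single_eq_same] at h

private theorem Graph_deg_o (A B : F[X]) {i j k : Fin n}
    (hki : k ≠ i) (hkj : k ≠ j) : (gph A B i j).degreeOf k = 0 := by
  classical
  apply Nat.eq_zero_of_le_zero
  apply Graph_deg_le
  intro m hm
  unfold Graph_S at hm
  rw [Finset.mem_union, Finset.mem_image, Finset.mem_image] at hm
  rcases hm with ⟨l, hl, rfl⟩ | ⟨l, hl, rfl⟩
  · rw [Finsupp.single_eq_of_ne hkj]
  · rw [Finsupp.single_eq_of_ne hki]

/-- The weight of a monomial. -/
private noncomputable def Graph_w (D : Fin n → ℕ) (P : Fin n → P1 F) (m : Fin n →₀ ℕ) : F :=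
  open Classical in if ∀ i, P i = none → m i = D i then ∏ i, cval (P i) (m i) else 0

private theorem Graph_mval (A B : F[X]) (i j : Fin n) (P : Fin n → P1 F) :
    mval (gph A B i j) P =
      ∑ l ∈ Finset.range (A.natDegree + 1), A.coeff l *
        Graph_w (fun k => (gph A B i j).degreeOf k) P (Finsupp.single j l) -
      ∑ l ∈ Finset.range (B.natDegree + 1), B.coeff l *
        Graph_w (fun k => (gph A B i j).degreeOf k) P (Finsupp.single i l) := by
  classical
  have h1 : mval (gph A B i j) P = ∑ m ∈ (gph A B i j).support, (gph A B i j).coeff m *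
      Graph_w (fun k => (gph A B i j).degreeOf k) P m := by
    unfold mval
    rw [Finset.sum_filter]
    refine Finset.sum_congr rfl fun m _ => ?_
    unfold Graph_w
    by_cases hm : ∀ i_1, P i_1 = none → m i_1 = (gph A B i j).degreeOf i_1
    · rw [if_pos hm, if_pos hm]
    · rw [if_neg hm, if_neg hm, mul_zero]
  rw [h1, Finset.sum_subset (Graph_support A B i j)]
  · rw [← Graph_sum A j (Graph_S A B i j) ?_ _, ← Graph_sum B i (Graph_S A B i j) ?_ _,
      ← Finset.sum_sub_distrib]
    · refine Finset.sum_congr rfl fun m _ => ?_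
      rw [← sub_mul, ← MvPolynomial.coeff_sub]
      rfl
    · intro l hl
      unfold Graph_S
      rw [Finset.mem_union, Finset.mem_image, Finset.mem_image]
      exact Or.inr ⟨l, hl, rfl⟩
    · intro l hl
      unfold Graph_S
      rw [Finset.mem_union, Finset.mem_image, Finset.mem_image]
      exact Or.inl ⟨l, hl, rfl⟩
  · intro m _ hm
    rw [MvPolynomial.notMem_support_iff.1 hm, zero_mul]

private theorem Graph_prod_single (P : Fin n → P1 F) (j : Fin n) (l : ℕ) :
    ∏ k, cval (P k) ((Finsupp.single j l : Fin n →₀ ℕ) k) = cval (P j) l := by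
  classical
  rw [Finset.prod_eq_single j]
  · rw [Finsupp.single_eq_same]
  · intro k _ hk
    rw [Finsupp.single_eq_of_ne hk]
    cases P k with
    | none => rfl
    | some x => exact pow_zero x
  · intro h
    exact absurd (Finset.mem_univ j) h

/-- The weight of a monomial in one variable. -/
private theorem Graph_w_single (D : Fin n → ℕ) (P : Fin n → P1 F) (j : Fin n) (l : ℕ)
    (h : ∀ k, P k = none → (Finsupp.single j l : Fin n →₀ ℕ) k = D k) :
    Graph_w D P (Finsupp.single j l) = cval (P j) l := by
  unfold Graph_w
  rw [if_pos h, Graph_prod_single]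

private theorem Graph_w_zero (D : Fin n → ℕ) (P : Fin n → P1 F) (m : Fin n →₀ ℕ) (k : Fin n)
    (hk : P k = none) (h : m k ≠ D k) : Graph_w D P m = 0 := by
  unfold Graph_w
  rw [if_neg]
  intro h1
  exact h (h1 k hk)

/-- **PROOF.** Let `a = natDegree A ≥ 1`, `b = natDegree B ≥ 1`. The monomials of `gph A B i j` are
`X_j^l`, `l ≥ 1`, with coefficient `A.coeff l`, `X_i^l`, `l ≥ 1`, with coefficient `- B.coeff l`, and `1`;
the degrees in `X_j`, `X_i` are `a` and `b`. If `P j`, `P i` are finite, the value is
`A(P j) - B(P i)`; if `P j = ∞` and `P i` is finite it is the leading coefficient of `A`; if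
`P i = ∞` and `P j` is finite it is minus the leading coefficient of `B`; if both are infinite it is
`0` (no monomial has degree `a` in `X_j` and `b` in `X_i`). -/
theorem mval_gph {A B : F[X]} (hA : 1 ≤ A.natDegree) (hB : 1 ≤ B.natDegree) {i j : Fin n}
    (hij : i ≠ j) (P : Fin n → P1 F) :
    mval (gph A B i j) P = 0 ↔ onP1 A (P j) = onP1 B (P i) := by

  rw [Graph_mval]
  set D : Fin n → ℕ := fun k => (gph A B i j).degreeOf k with hD
  have hDj : D j = A.natDegree := Graph_deg_j hA hij
  have hDi : D i = B.natDegree := Graph_deg_i hB hij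
  have hDo : ∀ k, k ≠ i → k ≠ j → D k = 0 := fun k h1 h2 => Graph_deg_o A B h1 h2
  cases hj : P j with
  | none =>
    have hB0 : ∑ l ∈ Finset.range (B.natDegree + 1), B.coeff l *
        Graph_w D P (Finsupp.single i l) = 0 := by
      refine Finset.sum_eq_zero fun l _ => ?_
      rw [Graph_w_zero D P _ j hj, mul_zero]
      rw [hDj, Finsupp.single_eq_of_ne hij.symm]
      omega
    rw [hB0, sub_zero]
    cases hi : P i with
    | none =>
      constructor
      · intro _
        rfl
      · intro _
        refine Finset.sum_eq_zero fun l _ => ?_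
        rw [Graph_w_zero D P _ i hi, mul_zero]
        rw [hDi, Finsupp.single_eq_of_ne hij]
        omega
    | some y =>
      have hA1 : ∑ l ∈ Finset.range (A.natDegree + 1), A.coeff l *
          Graph_w D P (Finsupp.single j l) = A.leadingCoeff := by
        rw [Finset.sum_eq_single A.natDegree]
        · rw [Graph_w_single]
          · rw [hj]
            exact mul_one _
          · intro k hk
            by_cases hkj : k = j
            · rw [hkj, Finsupp.single_eq_same, hDj]
            · have hki : k ≠ i := by
                rintro rfl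
                rw [hi] at hk
                exact absurd hk (Option.some_ne_none y)
              rw [Finsupp.single_eq_of_ne hkj, hDo k hki hkj]
        · intro l _ hl
          rw [Graph_w_zero D P _ j hj, mul_zero]
          rw [hDj, Finsupp.single_eq_same]
          exact hl
        · intro h
          exact absurd (Finset.mem_range.2 (Nat.lt_succ_self _)) h
      rw [hA1]
      constructor
      · intro h
        rw [leadingCoeff_eq_zero] at h
        rw [h, natDegree_zero] at hA
        omega
      · intro h
        exact absurd h.symm (Option.some_ne_none _)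
  | some x =>
    cases hi : P i with
    | none =>
      have hA0 : ∑ l ∈ Finset.range (A.natDegree + 1), A.coeff l *
          Graph_w D P (Finsupp.single j l) = 0 := by
        refine Finset.sum_eq_zero fun l _ => ?_
        rw [Graph_w_zero D P _ i hi, mul_zero]
        rw [hDi, Finsupp.single_eq_of_ne hij]
        omega
      have hB1 : ∑ l ∈ Finset.range (B.natDegree + 1), B.coeff l *
          Graph_w D P (Finsupp.single i l) = B.leadingCoeff := by
        rw [Finset.sum_eq_single B.natDegree]
        · rw [Graph_w_single]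
          · rw [hi]
            exact mul_one _
          · intro k hk
            by_cases hki : k = i
            · rw [hki, Finsupp.single_eq_same, hDi]
            · have hkj : k ≠ j := by
                rintro rfl
                rw [hj] at hk
                exact absurd hk (Option.some_ne_none x)
              rw [Finsupp.single_eq_of_ne hki, hDo k hki hkj]
        · intro l _ hl
          rw [Graph_w_zero D P _ i hi, mul_zero]
          rw [hDi, Finsupp.single_eq_same]
          exact hl
        · intro h
          exact absurd (Finset.mem_range.2 (Nat.lt_succ_self _)) h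
      rw [hA0, hB1, zero_sub, neg_eq_zero]
      constructor
      · intro h
        rw [leadingCoeff_eq_zero] at h
        rw [h, natDegree_zero] at hB
        omega
      · intro h
        exact absurd h (Option.some_ne_none _)
    | some y =>
      have hcond : ∀ (c : Fin n), (c = i ∨ c = j) → ∀ l k, P k = none →
          (Finsupp.single c l : Fin n →₀ ℕ) k = D k := by
        intro c hc l k hk
        have hki : k ≠ i := by
          rintro rfl
          rw [hi] at hk
          exact absurd hk (Option.some_ne_none y)
        have hkj : k ≠ j := by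
          rintro rfl
          rw [hj] at hk
          exact absurd hk (Option.some_ne_none x)
        have hkc : k ≠ c := by
          rcases hc with rfl | rfl
          · exact hki
          · exact hkj
        rw [Finsupp.single_eq_of_ne hkc, hDo k hki hkj]
      have hA2 : ∑ l ∈ Finset.range (A.natDegree + 1), A.coeff l *
          Graph_w D P (Finsupp.single j l) = A.eval x := by
        rw [eval_eq_sum_range]
        refine Finset.sum_congr rfl fun l _ => ?_
        rw [Graph_w_single D P j l (hcond j (Or.inr rfl) l), hj]
        rfl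
      have hB2 : ∑ l ∈ Finset.range (B.natDegree + 1), B.coeff l *
          Graph_w D P (Finsupp.single i l) = B.eval y := by
        rw [eval_eq_sum_range]
        refine Finset.sum_congr rfl fun l _ => ?_
        rw [Graph_w_single D P i l (hcond i (Or.inl rfl) l), hi]
        rfl
      rw [hA2, hB2, sub_eq_zero]
      show _ ↔ some (A.eval x) = some (B.eval y)
      rw [Option.some_inj]

private theorem Graph_phi_iter (f : F[X]) (k : ℕ) (P : Fin n → P1 F) :
    (phi f)^[k] P = fun l => (onP1 f)^[k] (P l) := by
  induction k generalizing P with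
  | zero => rfl
  | succ k ih =>
    rw [Function.iterate_succ_apply, ih]
    rfl

private theorem Graph_surj [IsAlgClosed F] {f : F[X]} (hf : 1 ≤ f.natDegree) (k : ℕ) :
    Function.Surjective ((onP1 f)^[k]) := by
  apply Function.Surjective.iterate
  intro y
  cases y with
  | none => exact ⟨none, rfl⟩
  | some y =>
    have h1 : (f - C y).degree ≠ 0 := by
      intro h
      have h2 := natDegree_eq_zero_iff_degree_le_zero.2 h.le
      rw [natDegree_sub_C] at h2
      omega
    obtain ⟨x, hx⟩ := IsAlgClosed.exists_root (f - C y) h1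
    refine ⟨some x, ?_⟩
    show some (f.eval x) = some y
    rw [IsRoot, eval_sub, eval_C, sub_eq_zero] at hx
    rw [hx]

private theorem Graph_isHyp {f g : F[X]} (hf : 1 ≤ f.natDegree) (hg : 1 ≤ g.natDegree)
    {i j : Fin n} (hij : i ≠ j) (k : ℕ) :
    IsHyp {P : Fin n → P1 F | (onP1 f)^[k] (P j) = onP1 g ((onP1 f)^[k] (P i))} := by
  have hA : 1 ≤ (itp f k).natDegree := by
    rw [natDegree_itp]
    exact Nat.one_le_pow _ _ (by omega)
  have hB : 1 ≤ (g.comp (itp f k)).natDegree := by
    rw [natDegree_comp]
    exact Nat.one_le_iff_ne_zero.2 (Nat.mul_ne_zero (by omega) (by omega))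
  have hmem := Graph_mem_top (B := g.comp (itp f k)) hA hij
  refine ⟨gph (itp f k) (g.comp (itp f k)) i j, ∅, ?_, Or.inl ?_, ?_⟩
  · intro h
    rw [h, MvPolynomial.support_zero] at hmem
    exact absurd hmem (Finset.notMem_empty _)
  · refine le_trans ?_ (MvPolynomial.le_totalDegree hmem)
    rw [Finsupp.sum_single_index rfl]
    exact hA
  · ext P
    simp only [Set.mem_ofPred_eq, Finset.notMem_empty, false_and, exists_false, or_false]
    rw [mval_gph hA hB hij, onP1_comp, onP1_itp]

private theorem Graph_comm {f g : F[X]} {m : ℕ}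
    (h : ∀ x : F, ev g ((ev f)^[m] x) = (ev f)^[m] (ev g x)) (x : P1 F) :
    onP1 g ((onP1 f)^[m] x) = (onP1 f)^[m] (onP1 g x) := by
  rw [← onP1_itp]
  cases x with
  | none => rfl
  | some x =>
    show some (ev g (ev (itp f m) x)) = some (ev (itp f m) (ev g x))
    rw [ev_itp, h]

private theorem Graph_per [IsAlgClosed F] {f g : F[X]} (hf : 1 ≤ f.natDegree)
    (hg : 1 ≤ g.natDegree) (hc : CommIter f g) {i j : Fin n} (hij : i ≠ j) :
    IsPer f {P : Fin n → P1 F | P j = onP1 g (P i)} := by
  classical
  obtain ⟨m, hm, hcomm⟩ := hc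
  refine ⟨Graph_isHyp hf hg hij 0, m, hm, ?_⟩
  ext P
  constructor
  · rintro ⟨Q, hQ, rfl⟩
    rw [Graph_phi_iter]
    show (onP1 f)^[m] (Q j) = onP1 g ((onP1 f)^[m] (Q i))
    rw [Graph_comm hcomm, show Q j = onP1 g (Q i) from hQ]
  · intro hP
    choose Q hQ using fun l => Graph_surj hf m (P l)
    refine ⟨Function.update Q j (onP1 g (Q i)), ?_, ?_⟩
    · show Function.update Q j (onP1 g (Q i)) j = onP1 g (Function.update Q j (onP1 g (Q i)) i)
      rw [Function.update_self, Function.update_of_ne hij]
    · rw [Graph_phi_iter]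
      funext l
      by_cases hl : l = j
      · rw [hl, Function.update_self, ← Graph_comm hcomm, hQ]
        exact (show P j = onP1 g (P i) from hP).symm
      · rw [Function.update_of_ne hl, hQ]

/-- **PROOF.** Let `V` be the set and `H = gph (itp f k) (g.comp (itp f k)) i j`; `V` is the set of
zeros of `H` by `mval_gph`, `onP1_itp`, `onP1_comp`, and `H` is not constant (it has a monomial
`X_j^a`). `onP1 f` is surjective (`F` is algebraically closed), so `φ^k '' V = W` with
`W = {P | P j = onP1 g (P i)}` (the case `k = 0`), again a hypersurface. If `g` commutes with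
`f^m` then `φ^m '' W = W` (`⊆` is clear; for `P ∈ W` choose preimages of the coordinates `P l`, `l ≠ j`,
under `f^m` and the image under `g` of the `i`-th one as `j`-th coordinate). -/
theorem isPreper_gr [IsAlgClosed F] {f g : F[X]} (hf : 1 ≤ f.natDegree) (hg : 1 ≤ g.natDegree)
    (hc : CommIter f g) {i j : Fin n} (hij : i ≠ j) (k : ℕ) :
    IsPreper f {P : Fin n → P1 F | (onP1 f)^[k] (P j) = onP1 g ((onP1 f)^[k] (P i))} := by

  refine ⟨Graph_isHyp hf hg hij k, k, ?_⟩
  have h : (phi f)^[k] '' {P : Fin n → P1 F |
      (onP1 f)^[k] (P j) = onP1 g ((onP1 f)^[k] (P i))} =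
      {P : Fin n → P1 F | P j = onP1 g (P i)} := by
    ext P
    constructor
    · rintro ⟨Q, hQ, rfl⟩
      rw [Graph_phi_iter]
      exact hQ
    · intro hP
      choose Q hQ using fun l => Graph_surj hf k (P l)
      refine ⟨Q, ?_, ?_⟩
      · show (onP1 f)^[k] (Q j) = onP1 g ((onP1 f)^[k] (Q i))
        rw [hQ, hQ]
        exact hP
      · rw [Graph_phi_iter]
        funext l
        exact hQ l
  rw [h]
  exact Graph_per hf hg hc hij

end Pool.Agent.PrepH
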