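import Mathlib

/-!
# Abstract cancellation near an attracting point of `ℚ_p`
-/

set_option linter.all false

namespace Pool.Agent.PrepH

private theorem Abs_dvd {o e N P : ℕ} (h1 : o ∣ e ^ N) (h2 : o < 2 ^ P) (h0 : o ≠ 0) :
    o ∣ e ^ P := by
  rw [Nat.dvd_iff_prime_pow_dvd_dvd]
  intro q k hq hk
  rcases Nat.eq_zero_or_pos k with rfl | hk0
  · rw [pow_zero]
    exact one_dvd _
  · have hqe : q ∣ e :=
      hq.dvd_of_dvd_pow (((dvd_pow_self q hk0.ne').trans hk).trans h1)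
    have hkP : k < P := by
      have h3 : 2 ^ k < 2 ^ P :=
        ((Nat.pow_le_pow_left hq.two_le k).trans (Nat.le_of_dvd (Nat.pos_of_ne_zero h0) hk)).trans_lt h2
      exact (Nat.pow_lt_pow_iff_right (by norm_num)).1 h3
    exact (pow_dvd_pow q hkP.le).trans (pow_dvd_pow_of_dvd hqe P)

private theorem Abs_res {p : ℕ} [Fact p.Prime] (x : ℤ_[p]) :
    ‖(x : ℚ_[p])‖ < 1 ↔ PadicInt.toZMod x = 0 := by
  rw [← PadicInt.norm_def, ← RingHom.mem_ker, PadicInt.ker_toZMod, IsLocalRing.mem_maximalIdeal,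
    PadicInt.mem_nonunits]

/-- **PROOF.** If `u` is a `p`-adic unit whose residue has order a divisor of `e ^ N`, then this
order `o` divides `p - 1` too, so every exponent of a prime in `o` is at most `log₂ p ≤ p`, and all
primes of `o` divide `e`; so `o ∣ e ^ p`. -/
theorem res_pow {p : ℕ} [Fact p.Prime] {u : ℚ_[p]} (hu : ‖u‖ = 1) {e N : ℕ} (he : 1 ≤ e)
    (h : ‖u ^ (e ^ N) - 1‖ < 1) : ‖u ^ (e ^ p) - 1‖ < 1 := by
  have hp : p.Prime := Fact.out
  obtain ⟨v, hv⟩ : ∃ v : ℤ_[p], (v : ℚ_[p]) = u := ⟨⟨u, hu.le⟩, rfl⟩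
  have key : ∀ M : ℕ, ‖u ^ M - 1‖ < 1 ↔ (PadicInt.toZMod v) ^ M = 1 := by
    intro M
    have h1 : u ^ M - 1 = ((v ^ M - 1 : ℤ_[p]) : ℚ_[p]) := by
      rw [PadicInt.coe_sub, PadicInt.coe_pow, PadicInt.coe_one, hv]
    rw [h1, Abs_res, map_sub, map_pow, map_one, sub_eq_zero]
  rw [key] at h ⊢
  have h0 : PadicInt.toZMod v ≠ 0 := by
    intro h2
    rw [← Abs_res, hv, hu] at h2
    exact lt_irrefl _ h2
  have h3 : (PadicInt.toZMod v) ^ (p - 1) = 1 := ZMod.pow_card_sub_one_eq_one h0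
  have h4 : orderOf (PadicInt.toZMod v) ∣ p - 1 := orderOf_dvd_of_pow_eq_one h3
  have h5 : orderOf (PadicInt.toZMod v) ∣ e ^ N := orderOf_dvd_of_pow_eq_one h
  have hp1 : 0 < p - 1 := Nat.sub_pos_of_lt hp.one_lt
  have h6 : orderOf (PadicInt.toZMod v) < 2 ^ p :=
    ((Nat.le_of_dvd hp1 h4).trans (Nat.sub_le _ _)).trans_lt Nat.lt_two_pow_self
  have h7 : orderOf (PadicInt.toZMod v) ≠ 0 := by
    intro h8
    rw [h8, zero_dvd_iff] at h4
    omega
  exact orderOf_dvd_iff_pow_eq_one.1 (Abs_dvd h5 h6 h7)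

private theorem Abs_add {p : ℕ} [Fact p.Prime] {x y : ℚ_[p]} (hx : ‖x‖ < 1) (hy : ‖y‖ < 1) :
    ‖x + y‖ < 1 :=
  (Padic.nonarchimedean x y).trans_lt (max_lt hx hy)

private theorem Abs_pow {p : ℕ} [Fact p.Prime] {x y : ℚ_[p]} (hx : ‖x‖ ≤ 1) (hy : ‖y‖ ≤ 1)
    (h : ‖x - y‖ < 1) (e : ℕ) : ‖x ^ e - y ^ e‖ < 1 := by
  induction e with
  | zero => simp
  | succ e ih =>
    have h1 : x ^ (e + 1) - y ^ (e + 1) = x ^ e * (x - y) + (x ^ e - y ^ e) * y := by ring
    rw [h1]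
    refine Abs_add ?_ ?_
    · rw [norm_mul, norm_pow]
      exact mul_lt_one_of_nonneg_of_lt_one_right (pow_le_one₀ (norm_nonneg _) hx) (norm_nonneg _) h
    · rw [norm_mul]
      exact mul_lt_one_of_nonneg_of_lt_one_left (norm_nonneg _) ih hy

/-- Let `G : U → U` be such that near-by points behave as under `t ↦ c t ^ e`: norms of images
determine norms, ratios of points of the same norm are raised to the power `e` in the residue
field, and `G` is injective on the sets `{t : ‖t - s‖ < ‖s‖}`. Then points which have a common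
image under some iterate have the same image under the `p`-th iterate.

**PROOF.** Let `G^[N] t = G^[N] s`, `N > p` (for `N ≤ p` apply `G^[p - N]`). Going down from `N` to
`0`, all `‖G^[j] t‖ = ‖G^[j] s‖`. Put `ρ j = G^[j] t / G^[j] s`; by induction
`‖ρ j - ρ 0 ^ (e ^ j)‖ < 1`, in particular `‖ρ 0 ^ (e ^ N) - 1‖ < 1`, so
`‖ρ 0 ^ (e ^ p) - 1‖ < 1` by `res_pow`, and `‖ρ j - 1‖ < 1` for all `j ≥ p`, that is
`‖G^[j] t - G^[j] s‖ < ‖G^[j] s‖`. Now `hinj` gives `G^[j] t = G^[j] s` for `j = N, N - 1, …, p`. -/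
theorem abs_cancel {p : ℕ} [Fact p.Prime] {U : Set ℚ_[p]} {G : ℚ_[p] → ℚ_[p]} {e : ℕ}
    (he : 1 ≤ e) (hU : ∀ t ∈ U, t ≠ 0) (hmap : ∀ t ∈ U, G t ∈ U)
    (hnorm : ∀ t ∈ U, ∀ s ∈ U, ‖G t‖ = ‖G s‖ → ‖t‖ = ‖s‖)
    (hratio : ∀ t ∈ U, ∀ s ∈ U, ‖t‖ = ‖s‖ → ‖G t / G s - (t / s) ^ e‖ < 1)
    (hinj : ∀ t ∈ U, ∀ s ∈ U, ‖t - s‖ < ‖s‖ → G t = G s → t = s)
    {N : ℕ} {t s : ℚ_[p]} (ht : t ∈ U) (hs : s ∈ U) (h : G^[N] t = G^[N] s) :
    G^[p] t = G^[p] s := by
  rcases le_or_gt N p with hNp | hNp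
  · have h1 : ∀ x, G^[p] x = G^[p - N] (G^[N] x) := by
      intro x
      rw [← Function.iterate_add_apply]
      congr 2
      omega
    rw [h1, h1, h]
  have hit : ∀ x ∈ U, ∀ j, G^[j] x ∈ U := by
    intro x hx j
    induction j with
    | zero => exact hx
    | succ j ih =>
      rw [Function.iterate_succ_apply']
      exact hmap _ ih
  have hn : ∀ i ≤ N, ‖G^[N - i] t‖ = ‖G^[N - i] s‖ := by
    intro i
    induction i with
    | zero =>
      intro _
      rw [Nat.sub_zero, h]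
    | succ i ih =>
      intro hi
      have h1 := ih (by omega)
      rw [show N - i = N - (i + 1) + 1 by omega, Function.iterate_succ_apply',
        Function.iterate_succ_apply'] at h1
      exact hnorm _ (hit t ht _) _ (hit s hs _) h1
  have hn' : ∀ j ≤ N, ‖G^[j] t‖ = ‖G^[j] s‖ := by
    intro j hj
    have h1 := hn (N - j) (Nat.sub_le _ _)
    rwa [Nat.sub_sub_self hj] at h1
  have hpos : ∀ j, 0 < ‖G^[j] s‖ := fun j => norm_pos_iff.2 (hU _ (hit s hs j))
  have hone : ∀ j ≤ N, ‖G^[j] t / G^[j] s‖ = 1 := by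
    intro j hj
    rw [norm_div, hn' j hj, div_self (hpos j).ne']
  have h0 : ‖t / s‖ = 1 := hone 0 (Nat.zero_le _)
  have hρ : ∀ j ≤ N, ‖G^[j] t / G^[j] s - (t / s) ^ (e ^ j)‖ < 1 := by
    intro j
    induction j with
    | zero =>
      intro _
      simp
    | succ j ih =>
      intro hj
      have h1 := ih (by omega)
      have h2 := hratio _ (hit t ht j) _ (hit s hs j) (hn' j (by omega))
      rw [← Function.iterate_succ_apply' G, ← Function.iterate_succ_apply' G] at h2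
      have h3 : ‖(G^[j] t / G^[j] s) ^ e - ((t / s) ^ (e ^ j)) ^ e‖ < 1 :=
        Abs_pow (hone j (by omega)).le (by rw [norm_pow, h0, one_pow]) h1 e
      have h4 := Abs_add h2 h3
      rw [sub_add_sub_cancel, ← pow_mul, ← pow_succ] at h4
      exact h4
  have hN : ‖(t / s) ^ (e ^ N) - 1‖ < 1 := by
    have h1 := hρ N le_rfl
    rw [h, div_self (hU _ (hit s hs N)), norm_sub_rev] at h1
    exact h1
  have hp := res_pow h0 he hN
  have hj : ∀ j, p ≤ j → j ≤ N → ‖G^[j] t - G^[j] s‖ < ‖G^[j] s‖ := by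
    intro j hpj hjN
    have h1 : ‖((t / s) ^ (e ^ p)) ^ (e ^ (j - p)) - 1 ^ (e ^ (j - p))‖ < 1 :=
      Abs_pow (by rw [norm_pow, h0, one_pow]) (by rw [norm_one]) hp _
    rw [← pow_mul, ← pow_add, Nat.add_sub_cancel' hpj, one_pow] at h1
    have h2 := Abs_add (hρ j hjN) h1
    rw [sub_add_sub_cancel] at h2
    have h3 : G^[j] t - G^[j] s = (G^[j] t / G^[j] s - 1) * G^[j] s := by
      rw [sub_mul, one_mul, div_mul_cancel₀ _ (hU _ (hit s hs j))]
    rw [h3, norm_mul]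
    exact mul_lt_of_lt_one_left (hpos j) h2
  have hfin : ∀ i, i ≤ N - p → G^[N - i] t = G^[N - i] s := by
    intro i
    induction i with
    | zero =>
      intro _
      rw [Nat.sub_zero, h]
    | succ i ih =>
      intro hi
      have h1 := ih (by omega)
      rw [show N - i = N - (i + 1) + 1 by omega, Function.iterate_succ_apply',
        Function.iterate_succ_apply'] at h1
      exact hinj _ (hit t ht _) _ (hit s hs _) (hj _ (by omega) (by omega)) h1
  have h1 := hfin (N - p) le_rfl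
  rwa [Nat.sub_sub_self hNp.le] at h1

end Pool.Agent.PrepH
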