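import Mathlib

/-!
# Canonical heights
-/

namespace Pool.Agent.PrepH

open Filter Topology

/-- **PROOF.** `hh x = lim h (T^n x) / D^n`. -/
theorem exists_canon {α : Type*} {T : α → α} {h : α → ℝ} {D c : ℝ} (hD : 1 < D)
    (hT : ∀ x, |h (T x) - D * h x| ≤ c) :
    ∃ hh : α → ℝ, (∀ x, hh (T x) = D * hh x) ∧ ∃ c', ∀ x, |hh x - h x| ≤ c' := by
  have hD0 : (0 : ℝ) < D := zero_lt_one.trans hD
  have hr : D⁻¹ < 1 := inv_lt_one_of_one_lt₀ hD
  have hstep : ∀ (x : α) (n : ℕ), dist (h (T^[n] x) / D ^ n) (h (T^[n + 1] x) / D ^ (n + 1)) ≤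
      c * D⁻¹ * D⁻¹ ^ n := by
    intro x n
    rw [dist_comm, Real.dist_eq, Function.iterate_succ_apply']
    have e1 : h (T (T^[n] x)) / D ^ (n + 1) - h (T^[n] x) / D ^ n =
        (h (T (T^[n] x)) - D * h (T^[n] x)) * (D⁻¹ * D⁻¹ ^ n) := by
      rw [pow_succ, inv_pow]; field_simp
    rw [e1, abs_mul, abs_of_pos (a := D⁻¹ * D⁻¹ ^ n) (by positivity), mul_assoc]
    exact mul_le_mul_of_nonneg_right (hT _) (by positivity)
  have hlim : ∀ x : α, ∃ l : ℝ, Tendsto (fun n => h (T^[n] x) / D ^ n) atTop (𝓝 l) := fun x =>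
    cauchySeq_tendsto_of_complete (cauchySeq_of_le_geometric _ _ hr (hstep x))
  choose hh hhh using hlim
  refine ⟨hh, fun x => ?_, c * D⁻¹ / (1 - D⁻¹), fun x => ?_⟩
  · have h1 := (hhh x).comp (tendsto_add_atTop_nat 1)
    have h2 := (hhh (T x)).div_const D
    have e2 : (fun n => h (T^[n] (T x)) / D ^ n / D) =
        (fun n => h (T^[n] x) / D ^ n) ∘ fun n => n + 1 := by
      funext n
      simp only [Function.comp]
      rw [Function.iterate_succ_apply, pow_succ]
      field_simp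
    rw [e2] at h2
    have := tendsto_nhds_unique h1 h2
    rw [this]; field_simp
  · have := dist_le_of_le_geometric_of_tendsto₀ _ _ hr (hstep x) (hhh x)
    simp only [Function.iterate_zero, id, pow_zero, div_one] at this
    rwa [dist_comm, Real.dist_eq] at this

/-- **PROOF.** `|hh (g x) - e * hh x|` is bounded by a constant `c₁` not depending on `x`; replacing `x` by
`(T^m)^n x` multiplies the left-hand side by `D^(m n)`. -/
theorem canon_comm {α : Type*} {T g : α → α} {h hh : α → ℝ} {D c c' e : ℝ} (hD : 1 < D)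
    (h1 : ∀ x, hh (T x) = D * hh x) (h2 : ∀ x, |hh x - h x| ≤ c)
    (h3 : ∀ x, |h (g x) - e * h x| ≤ c') {m : ℕ} (hm : 1 ≤ m)
    (hcomm : ∀ x, g (T^[m] x) = T^[m] (g x)) (x : α) : hh (g x) = e * hh x := by
  have hD0 : (0 : ℝ) < D := zero_lt_one.trans hD
  set c₁ : ℝ := c + c' + |e| * c with hc₁
  have hb : ∀ x, |hh (g x) - e * hh x| ≤ c₁ := by
    intro x
    have e1 : hh (g x) - e * hh x =
        (hh (g x) - h (g x)) + (h (g x) - e * h x) - e * (hh x - h x) := by ring
    rw [e1]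
    calc |(hh (g x) - h (g x)) + (h (g x) - e * h x) - e * (hh x - h x)|
        ≤ |(hh (g x) - h (g x)) + (h (g x) - e * h x)| + |e * (hh x - h x)| := abs_sub _ _
      _ ≤ (|hh (g x) - h (g x)| + |h (g x) - e * h x|) + |e * (hh x - h x)| :=
          add_le_add_left (abs_add_le _ _) _
      _ ≤ (c + c') + |e| * c := by
          rw [abs_mul]
          exact add_le_add (add_le_add (h2 _) (h3 _))
            (mul_le_mul_of_nonneg_left (h2 _) (abs_nonneg _))
  have hit : ∀ (k : ℕ) (x : α), hh (T^[k] x) = D ^ k * hh x := by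
    intro k
    induction k with
    | zero => intro x; simp
    | succ k ih => intro x; rw [Function.iterate_succ_apply, ih, h1, pow_succ]; ring
  have hcomm' : ∀ (n : ℕ) (x : α), g ((T^[m])^[n] x) = (T^[m])^[n] (g x) := by
    intro n
    induction n with
    | zero => intro x; rfl
    | succ n ih => intro x; rw [Function.iterate_succ_apply, ih, hcomm, ← Function.iterate_succ_apply]
  by_contra hne
  have hpos : 0 < |hh (g x) - e * hh x| := abs_pos.2 (sub_ne_zero.2 hne)
  obtain ⟨n, hn⟩ := pow_unbounded_of_one_lt (c₁ / |hh (g x) - e * hh x|)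
    (one_lt_pow₀ hD (Nat.one_le_iff_ne_zero.1 hm))
  have h4 := hb ((T^[m])^[n] x)
  rw [hcomm', ← Function.iterate_mul, hit, hit,
    show D ^ (m * n) * hh (g x) - e * (D ^ (m * n) * hh x) = D ^ (m * n) * (hh (g x) - e * hh x) by ring,
    abs_mul, abs_of_pos (pow_pos hD0 _), pow_mul] at h4
  rw [div_lt_iff₀ hpos] at hn
  exact absurd h4 (not_le.2 hn)

end Pool.Agent.PrepH
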