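import Mathlib

/-!
# Embeddings of a number field into some `ℚ_p`
-/

namespace Pool.Agent.PrepH

open Polynomial

/-- **Schur.** **PROOF.** Let `c = m(0)`. If `c = 0` take any prime `p > B` and `a = 0`. Otherwise
`m (c * B! * k) = c * (1 + B! * j)` for an integer `j` (all terms of `m (c B! k) - c` are divisible by
`c B!`). For large `k` the value is not `± c` (`m` is not constant), so
`1 + B! * j ≠ ± 1` has a prime divisor `p`; it does not divide `B!`, so `p > B`. -/
theorem exists_prime_root {m : ℤ[X]} (hm : 1 ≤ m.natDegree) (B : ℕ) :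
    ∃ p : ℕ, p.Prime ∧ B < p ∧ ∃ a : ℤ, (p : ℤ) ∣ m.eval a := by
  by_cases hc : m.eval 0 = 0
  · obtain ⟨p, hp, hpp⟩ := Nat.exists_infinite_primes (B + 1)
    exact ⟨p, hpp, hp, 0, by rw [hc]; exact dvd_zero _⟩
  set c : ℤ := m.eval 0 with hcdef
  have h1 : m - C c ≠ 0 := by
    intro h
    rw [sub_eq_zero] at h
    rw [h, natDegree_C] at hm
    omega
  have h2 : m + C c ≠ 0 := by
    intro h
    have h' : m = C (-c) := by rw [C_neg]; exact eq_neg_of_add_eq_zero_left h
    rw [h', natDegree_C] at hm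
    omega
  set P : ℤ[X] := (m - C c) * (m + C c) with hP
  have hP0 : P ≠ 0 := mul_ne_zero h1 h2
  have hB : (B.factorial : ℤ) ≠ 0 := by exact_mod_cast B.factorial_ne_zero
  have hinj : Function.Injective fun k : ℕ => c * (B.factorial : ℤ) * (k : ℤ) := by
    intro k l hkl
    have := mul_left_cancel₀ (mul_ne_zero hc hB) hkl
    exact_mod_cast this
  obtain ⟨x, ⟨k, rfl⟩, hk⟩ := (Set.infinite_range_of_injective hinj).exists_notMem_finset
    P.roots.toFinset
  rw [Multiset.mem_toFinset, mem_roots hP0, IsRoot.def, hP, eval_mul, eval_sub, eval_add, eval_C]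
    at hk
  set a : ℤ := c * (B.factorial : ℤ) * (k : ℤ) with ha
  obtain ⟨j, hj⟩ := sub_dvd_eval_sub a 0 m
  rw [sub_zero, ← hcdef] at hj
  have hval : m.eval a = c * (1 + (B.factorial : ℤ) * ((k : ℤ) * j)) := by
    have : m.eval a = c + a * j := by rw [← hj]; ring
    rw [this, ha]; ring
  set q : ℤ := 1 + (B.factorial : ℤ) * ((k : ℤ) * j) with hq
  have hq1 : q.natAbs ≠ 1 := by
    intro h
    rcases Int.natAbs_eq_iff.1 h with h | h
    · apply hk
      rw [hval, h]; push_cast; ring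
    · apply hk
      rw [hval, h]; push_cast; ring
  obtain ⟨p, hp, hpq⟩ := Nat.exists_prime_and_dvd hq1
  have hpq' : (p : ℤ) ∣ q := Int.natCast_dvd.2 hpq
  refine ⟨p, hp, ?_, a, by rw [hval]; exact Dvd.dvd.mul_left hpq' _⟩
  by_contra hlt
  push Not at hlt
  have h3 : (p : ℤ) ∣ (B.factorial : ℤ) := by
    exact_mod_cast (Nat.Prime.dvd_factorial hp).2 hlt
  have h4 : (p : ℤ) ∣ 1 := by
    have h5 := dvd_sub hpq' (Dvd.dvd.mul_right h3 ((k : ℤ) * j))
    rw [hq, add_sub_cancel_right] at h5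
    exact h5
  have := Int.eq_one_of_dvd_one (by positivity) h4
  exact hp.one_lt.ne' (by exact_mod_cast this)

private theorem Emb_clear (g : ℚ[X]) : ∃ (N : ℕ) (G : ℤ[X]), 0 < N ∧
    G.map (Int.castRingHom ℚ) = (N : ℚ[X]) * g := by
  obtain ⟨b, hb, hG⟩ := IsLocalization.integerNormalization_spec (nonZeroDivisors ℤ) g
  have hb0 : b ≠ 0 := nonZeroDivisors.ne_zero hb
  have hG' : (IsLocalization.integerNormalization (nonZeroDivisors ℤ) g).map (Int.castRingHom ℚ) =
      (b : ℚ[X]) * g := by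
    have : (algebraMap ℤ ℚ) = Int.castRingHom ℚ := rfl
    rw [← this, hG, zsmul_eq_mul]
  refine ⟨b.natAbs, C (b.sign) * IsLocalization.integerNormalization (nonZeroDivisors ℤ) g,
    Int.natAbs_pos.2 hb0, ?_⟩
  rw [Polynomial.map_mul, hG', map_C, ← mul_assoc]
  congr 1
  have h1 : ((b.sign : ℤ) : ℚ) * ((b : ℤ) : ℚ) = ((b.natAbs : ℕ) : ℚ) := by
    rw [← Int.cast_mul, Int.sign_mul_self_eq_natAbs, Int.cast_natCast]
  rw [← map_natCast (C : ℚ →+* ℚ[X]), ← h1, C_mul]
  simp

/-- A number field embeds into `ℚ_p` for infinitely many primes `p`, and a given finite set of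
nonzero elements goes to units for all but finitely many of these.

**PROOF.** Let `θ` be a primitive element of `K` over `ℚ` (`Field.powerBasisOfFiniteOfSeparable`),
`f` its minimal polynomial over `ℚ` and `m ∈ ℤ[X]` a nonzero integer multiple of it.  As `f` is
separable, `u m + v m' = R` with `u, v ∈ ℤ[X]` and an integer `R ≠ 0`.  Every element of `K` is a
polynomial in `θ` with rational coefficients; let `E ≥ 1` be a common denominator of the
coefficients for all `t` and `t⁻¹`, `t ∈ S`.  Take a prime `p > max(B, |R|, E)` and an integer `a`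
with `p ∣ m(a)` (`exists_prime_root`).  Then `p ∤ m'(a)`, and Hensel's lemma gives `α ∈ ℤ_p` with
`m(α) = 0`.  `θ ↦ α` defines `σ : K → ℚ_p` (`PowerBasis.lift`).  As `E` is a `p`-adic unit,
`‖σ t‖ ≤ 1` and `‖σ t⁻¹‖ ≤ 1` for `t ∈ S`. -/
theorem exists_embedding {K : Type*} [Field K] [NumberField K] (S : Finset K) (B : ℕ) :
    ∃ (p : ℕ) (_ : Fact p.Prime) (σ : K →+* ℚ_[p]), B < p ∧ ∀ t ∈ S, t ≠ 0 → ‖σ t‖ = 1 := by
  classical
  set pb := Field.powerBasisOfFiniteOfSeparable ℚ K with hpb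
  -- denominators
  have hden : ∀ t : K, ∃ N : ℕ, 0 < N ∧ ∀ (p : ℕ) (_ : Fact p.Prime) (σ : K →+* ℚ_[p]),
      N < p → ‖σ pb.gen‖ ≤ 1 → ‖σ t‖ ≤ 1 := by
    intro t
    obtain ⟨g, hg⟩ := pb.exists_eq_aeval' t
    obtain ⟨N, G, hN, hG⟩ := Emb_clear g
    refine ⟨N, hN, fun p hp σ hNp hθ => ?_⟩
    have := hp
    have h1 : (N : K) * t = aeval pb.gen (G.map (Int.castRingHom ℚ)) := by
      rw [hG, map_mul, map_natCast, ← hg]
    have h2 : (N : K) * t = eval₂ (Int.castRingHom K) pb.gen G := by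
      rw [h1, aeval_def, eval₂_map]
      congr 1
      exact RingHom.ext_int _ _
    have h3 : (N : ℚ_[p]) * σ t = eval₂ (Int.castRingHom ℚ_[p]) (σ pb.gen) G := by
      rw [← map_natCast σ N, ← map_mul, h2, hom_eval₂]
      congr 1
      exact RingHom.ext_int _ _
    set α : ℤ_[p] := ⟨σ pb.gen, hθ⟩ with hα
    have h4 : eval₂ (Int.castRingHom ℚ_[p]) (σ pb.gen) G =
        ((eval₂ (Int.castRingHom ℤ_[p]) α G : ℤ_[p]) : ℚ_[p]) := by
      have : ((eval₂ (Int.castRingHom ℤ_[p]) α G : ℤ_[p]) : ℚ_[p]) =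
          PadicInt.Coe.ringHom (eval₂ (Int.castRingHom ℤ_[p]) α G) := rfl
      rw [this, hom_eval₂]
      congr 1
    have h5 : ‖(N : ℚ_[p]) * σ t‖ ≤ 1 := by
      rw [h3, h4]
      exact (eval₂ (Int.castRingHom ℤ_[p]) α G).2
    have h6 : ‖(N : ℚ_[p])‖ = 1 := by
      rw [Padic.norm_natCast_eq_one_iff]
      exact (Nat.Prime.coprime_iff_not_dvd hp.out).2 fun h => by
        have := Nat.le_of_dvd hN h
        omega
    rwa [norm_mul, h6, one_mul] at h5
  choose Nf hNf0 hNf using hden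
  -- integral polynomial and Bezout
  set f : ℚ[X] := minpoly ℚ pb.gen with hf
  have hint : IsIntegral ℚ pb.gen := Algebra.IsIntegral.isIntegral _
  have hfirr : Irreducible f := minpoly.irreducible hint
  have hsep : f.Separable := hfirr.separable
  obtain ⟨b, m, hb, hm⟩ := Emb_clear f
  obtain ⟨u, v, huv⟩ := hsep
  obtain ⟨bu, U, hbu, hU⟩ := Emb_clear u
  obtain ⟨bv, V, hbv, hV⟩ := Emb_clear v
  have hbez : (C (bv : ℤ) * U) * m + (C (bu : ℤ) * V) * derivative m =
      C ((bv * bu * b : ℕ) : ℤ) := by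
    have hinj : Function.Injective (Polynomial.map (Int.castRingHom ℚ)) :=
      Polynomial.map_injective _ (RingHom.injective_int (Int.castRingHom ℚ))
    apply hinj
    rw [Polynomial.map_add, Polynomial.map_mul, Polynomial.map_mul, Polynomial.map_mul,
      Polynomial.map_mul, ← derivative_map, hm, hU, hV]
    have : derivative ((b : ℚ[X]) * f) = (b : ℚ[X]) * derivative f := by
      rw [derivative_mul, derivative_natCast]; ring
    rw [this]
    simp only [Polynomial.map_natCast, map_natCast]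
    push_cast
    linear_combination ((bv : ℚ[X]) * bu * b) * huv
  have hmdeg : 1 ≤ m.natDegree := by
    have h1 : m.natDegree = (m.map (Int.castRingHom ℚ)).natDegree :=
      (natDegree_map_eq_of_injective (RingHom.injective_int (Int.castRingHom ℚ)) m).symm
    rw [h1, hm, ← map_natCast (C : ℚ →+* ℚ[X]),
      natDegree_C_mul (by exact_mod_cast hb.ne' : (b : ℚ) ≠ 0)]
    exact hfirr.natDegree_pos
  obtain ⟨p, hp, hBp, a, hpa⟩ := exists_prime_root hmdeg
    (max B (max (bv * bu * b) (S.sup fun t => max (Nf t) (Nf t⁻¹))))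
  have hpF : Fact p.Prime := ⟨hp⟩
  have hBp1 : B < p := lt_of_le_of_lt (le_max_left _ _) hBp
  have hBp2 : bv * bu * b < p :=
    lt_of_le_of_lt ((le_max_left _ _).trans (le_max_right _ _)) hBp
  have hBp3 : (S.sup fun t => max (Nf t) (Nf t⁻¹)) < p :=
    lt_of_le_of_lt ((le_max_right _ _).trans (le_max_right _ _)) hBp
  -- `p` does not divide `m'(a)`
  have hder : ¬ (p : ℤ) ∣ (derivative m).eval a := by
    intro hd
    have h1 := congrArg (Polynomial.eval a) hbez
    rw [eval_add, eval_mul (p := C (bv : ℤ) * U), eval_mul (p := C (bu : ℤ) * V), eval_C] at h1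
    have h2 : (p : ℤ) ∣ ((bv * bu * b : ℕ) : ℤ) := by
      rw [← h1]
      exact dvd_add (Dvd.dvd.mul_left hpa _) (Dvd.dvd.mul_left hd _)
    have h3 := Nat.le_of_dvd (by positivity) (Int.natCast_dvd_natCast.1 h2)
    omega
  have hev : ∀ P : ℤ[X], aeval (a : ℤ_[p]) P = ((P.eval a : ℤ) : ℤ_[p]) := by
    intro P
    rw [aeval_def, ← eq_intCast (algebraMap ℤ ℤ_[p]) a, eval₂_at_apply, eq_intCast]
  have hn1 : ‖(aeval (a : ℤ_[p]) (derivative m) : ℤ_[p])‖ = 1 := by
    rw [hev]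
    refine le_antisymm (PadicInt.norm_le_one _) ?_
    by_contra hlt
    push Not at hlt
    exact hder ((PadicInt.norm_int_lt_one_iff_dvd _).1 hlt)
  have hn2 : ‖(aeval (a : ℤ_[p]) m : ℤ_[p])‖ <
      ‖(aeval (a : ℤ_[p]) (derivative m) : ℤ_[p])‖ ^ 2 := by
    rw [hn1, one_pow, hev]
    exact (PadicInt.norm_int_lt_one_iff_dvd _).2 hpa
  obtain ⟨α, hα, -⟩ := hensels_lemma hn2
  have hroot : aeval (α : ℚ_[p]) f = 0 := by
    have h1 : ((b : ℕ) : ℚ_[p]) * aeval (α : ℚ_[p]) f = 0 := by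
      have h2 : ((b : ℕ) : ℚ_[p]) * aeval (α : ℚ_[p]) f =
          aeval (α : ℚ_[p]) (m.map (Int.castRingHom ℚ)) := by
        rw [hm, map_mul, map_natCast]
      have h3 : aeval (α : ℚ_[p]) (m.map (Int.castRingHom ℚ)) =
          PadicInt.Coe.ringHom (aeval α m) := by
        rw [aeval_def, eval₂_map, aeval_def, hom_eval₂]
        congr 1
      rw [h2, h3, hα, map_zero]
    rcases mul_eq_zero.1 h1 with h | h
    · exact absurd h (by exact_mod_cast hb.ne')
    · exact h
  set σ : K →ₐ[ℚ] ℚ_[p] := pb.lift (α : ℚ_[p]) hroot with hσ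
  refine ⟨p, hpF, σ.toRingHom, hBp1, fun t ht ht0 => ?_⟩
  have hgen : ‖σ.toRingHom pb.gen‖ ≤ 1 := by
    have : σ.toRingHom pb.gen = (α : ℚ_[p]) := pb.lift_gen _ hroot
    rw [this]
    exact α.2
  have hle : max (Nf t) (Nf t⁻¹) < p :=
    lt_of_le_of_lt (Finset.le_sup (f := fun t => max (Nf t) (Nf t⁻¹)) ht) hBp3
  have h1 := hNf t p hpF σ.toRingHom (lt_of_le_of_lt (le_max_left _ _) hle) hgen
  have h2 := hNf t⁻¹ p hpF σ.toRingHom (lt_of_le_of_lt (le_max_right _ _) hle) hgen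
  have h3 : ‖σ.toRingHom t‖ * ‖σ.toRingHom t⁻¹‖ = 1 := by
    rw [← norm_mul, ← map_mul, mul_inv_cancel₀ ht0, map_one, norm_one]
  refine le_antisymm h1 ?_
  nlinarith [norm_nonneg (σ.toRingHom t), norm_nonneg (σ.toRingHom t⁻¹)]

end Pool.Agent.PrepH
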