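import Pool.Agent.PrepH.DCp
import Pool.Agent.PrepH.Emb

/-!
# Dynamical cancellation over number fields
-/

namespace Pool.Agent.PrepH

open Polynomial

/-- **PROOF.** `exists_embedding` for the set of coefficients of `f` and `B = natDegree f` gives
`σ : K → ℚ_p`, injective, such that `padic_cancel` applies to `f.map σ`. -/
theorem dyn_cancel {K : Type*} [Field K] [NumberField K] {f : K[X]} (hf : 1 ≤ f.natDegree) :
    ∃ L : ℕ, ∀ x y : K, (∃ N, (ev f)^[N] x = (ev f)^[N] y) → (ev f)^[L] x = (ev f)^[L] y := by
  classical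
  obtain ⟨p, hp, σ, hB, hσ⟩ := exists_embedding (f.support.image f.coeff) f.natDegree
  have hmap : ∀ x : K, ev (f.map σ) (σ x) = σ (ev f x) := fun x => by
    simp only [ev, eval_map, eval₂_hom]
  have hit : ∀ (k : ℕ) (x : K), (ev (f.map σ))^[k] (σ x) = σ ((ev f)^[k] x) := by
    intro k
    induction k with
    | zero => intro x; rfl
    | succ k ih => intro x; rw [Function.iterate_succ_apply, hmap, ih, ← Function.iterate_succ_apply]
  have hne : f ≠ 0 := by rintro rfl; simp at hf
  obtain ⟨L, hL⟩ := padic_cancel (f := f.map σ)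
    (fun i => by
      rw [coeff_map]
      rcases eq_or_ne (f.coeff i) 0 with h | h
      · rw [h, map_zero, norm_zero]; exact zero_le_one
      · exact (hσ _ (Finset.mem_image_of_mem _ (mem_support_iff.2 h)) h).le)
    (by
      rw [leadingCoeff_map]
      exact hσ _ (Finset.mem_image_of_mem _ (natDegree_mem_support_of_nonzero hne))
        (leadingCoeff_ne_zero.2 hne))
    (by rwa [natDegree_map]) (by rwa [natDegree_map])
  refine ⟨L, fun x y ⟨N, hN⟩ => σ.injective ?_⟩
  rw [← hit, ← hit]
  exact hL _ _ ⟨N, by rw [hit, hit, hN]⟩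

end Pool.Agent.PrepH
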