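import Pool.Agent.PrepH.Defs

/-!
# Iterates of a polynomial and their local multiplicities
-/

namespace Pool.Agent.PrepH

open Polynomial

/-- The `r`-th iterate of a polynomial. -/
noncomputable def itp {K : Type*} [Field K] (f : K[X]) (r : ℕ) : K[X] := (fun q => f.comp q)^[r] X

private theorem Mult_succ {K : Type*} [Field K] (f : K[X]) (r : ℕ) :
    itp f (r + 1) = f.comp (itp f r) := by
  unfold itp
  rw [Function.iterate_succ_apply']

private theorem Mult_zero {K : Type*} [Field K] (f : K[X]) : itp f 0 = X := rfl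

theorem ev_itp {K : Type*} [Field K] (f : K[X]) (r : ℕ) : ev (itp f r) = (ev f)^[r] := by
  induction r with
  | zero =>
    funext x
    rw [Mult_zero]
    simp [ev]
  | succ r ih =>
    rw [Mult_succ, Function.iterate_succ', ← ih]
    funext x
    simp [ev, eval_comp]

theorem natDegree_itp {K : Type*} [Field K] (f : K[X]) (r : ℕ) :
    (itp f r).natDegree = f.natDegree ^ r := by
  induction r with
  | zero => rw [Mult_zero, natDegree_X, pow_zero]
  | succ r ih => rw [Mult_succ, natDegree_comp, ih, pow_succ']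

theorem map_itp {K L : Type*} [Field K] [Field L] (σ : K →+* L) (f : K[X]) (r : ℕ) :
    (itp f r).map σ = itp (f.map σ) r := by
  induction r with
  | zero => rw [Mult_zero, Mult_zero, map_X]
  | succ r ih => rw [Mult_succ, Mult_succ, map_comp, ih]

private theorem Mult_ne_zero {K : Type*} [Field K] {g : K[X]} (hg : 1 ≤ g.natDegree) (c : K) :
    g - C c ≠ 0 := by
  intro h
  have h1 : g = C c := sub_eq_zero.1 h
  rw [h1, natDegree_C] at hg
  omega

private theorem Mult_factor {K : Type*} [Field K] {g : K[X]} (hg : 1 ≤ g.natDegree) (γ : K) :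
    ∃ v : K[X], g - C (g.eval γ) = (X - C γ) ^ ((g - C (g.eval γ)).rootMultiplicity γ) * v ∧
      v.eval γ ≠ 0 := by
  obtain ⟨v, hv, hv'⟩ := exists_eq_pow_rootMultiplicity_mul_and_not_dvd
    (g - C (g.eval γ)) (Mult_ne_zero hg _) γ
  refine ⟨v, hv, ?_⟩
  intro h
  exact hv' (dvd_iff_isRoot.2 h)

private theorem Mult_comp {K : Type*} [Field K] {f g : K[X]} (hf : 1 ≤ f.natDegree)
    (hg : 1 ≤ g.natDegree) (γ : K) :
    (f.comp g - C ((f.comp g).eval γ)).rootMultiplicity γ =
      (f - C (f.eval (g.eval γ))).rootMultiplicity (g.eval γ) *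
        (g - C (g.eval γ)).rootMultiplicity γ := by
  obtain ⟨u, hu, hu'⟩ := Mult_factor hf (g.eval γ)
  obtain ⟨v, hv, hv'⟩ := Mult_factor hg γ
  set a := (f - C (f.eval (g.eval γ))).rootMultiplicity (g.eval γ) with ha
  set b := (g - C (g.eval γ)).rootMultiplicity γ with hb
  have h1 : f.comp g - C ((f.comp g).eval γ) = (X - C γ) ^ (a * b) * (v ^ a * u.comp g) := by
    have h2 : f.comp g - C ((f.comp g).eval γ) = (f - C (f.eval (g.eval γ))).comp g := by
      rw [sub_comp, C_comp, eval_comp]
    have h3 : ((X - C (g.eval γ)) ^ a * u).comp g = (g - C (g.eval γ)) ^ a * u.comp g := by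
      rw [mul_comp, pow_comp, sub_comp, X_comp, C_comp]
    rw [h2, hu, h3, hv, mul_pow, ← pow_mul, mul_comm b a, mul_assoc]
  have h4 : (v ^ a * u.comp g).eval γ ≠ 0 := by
    rw [eval_mul, eval_pow, eval_comp]
    exact mul_ne_zero (pow_ne_zero _ hv') hu'
  have h5 : v ^ a * u.comp g ≠ 0 := by
    intro h
    rw [h, eval_zero] at h4
    exact h4 rfl
  rw [h1, rootMultiplicity_mul (mul_ne_zero (pow_ne_zero _ (X_sub_C_ne_zero γ)) h5),
    rootMultiplicity_X_sub_C_pow, rootMultiplicity_eq_zero h4, add_zero]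

/-- **PROOF.** The order of vanishing of `itp f r - C (itp f r (γ))` at `γ` is the product over
`i < r` of the orders `e_i` of vanishing of `f - C (f γ_i)` at `γ_i = f^i(γ)`
(`(f ∘ g) - f(g(γ)) = ((X - C (g γ))^a * u) ∘ g` with `u (g γ) ≠ 0`, and `g - g(γ) = (X - γ)^b * v`,
`v γ ≠ 0`, so the order of `f ∘ g` is `a b`), and `1 ≤ e_i ≤ natDegree f < p`, so `p ∤ e_i`. -/
theorem not_dvd_rootMultiplicity {K : Type*} [Field K] [CharZero K] {p : ℕ} (hp : p.Prime)
    {f : K[X]} (hf : 1 ≤ f.natDegree) (hfp : f.natDegree < p) (r : ℕ) (γ : K) :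
    ¬ p ∣ (itp f r - C ((itp f r).eval γ)).rootMultiplicity γ := by
  induction r with
  | zero =>
    rw [Mult_zero, eval_X]
    have h := rootMultiplicity_X_sub_C_pow γ 1
    rw [pow_one] at h
    rw [h]
    intro h1
    exact hp.one_lt.not_ge (Nat.le_of_dvd one_pos h1)
  | succ r ih =>
    have hg : 1 ≤ (itp f r).natDegree := by
      rw [natDegree_itp]
      exact Nat.one_le_pow _ _ (by omega)
    rw [Mult_succ, Mult_comp hf hg, hp.dvd_mul]
    rintro (h | h)
    · set c := (itp f r).eval γ with hc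
      have h0 := Mult_ne_zero hf (f.eval c)
      have h1 : 0 < (f - C (f.eval c)).rootMultiplicity c := by
        rw [rootMultiplicity_pos h0]
        show eval c (f - C (f.eval c)) = 0
        rw [eval_sub, eval_C, sub_self]
      have h2 := natDegree_le_of_dvd (pow_rootMultiplicity_dvd (f - C (f.eval c)) c) h0
      rw [natDegree_pow, natDegree_X_sub_C, mul_one, natDegree_sub_C] at h2
      have h3 := Nat.le_of_dvd h1 h
      omega
    · exact ih h

end Pool.Agent.PrepH
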