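import Pool.Agent.PrepH.In
import Pool.Agent.PrepH.Mult

/-!
# Cancellation inside a periodic residue disc of `ℤ_p`
-/

namespace Pool.Agent.PrepH

open Polynomial

private noncomputable def Disc_co {p : ℕ} [Fact p.Prime] {f : ℚ_[p][X]}
    (hc : ∀ i, ‖f.coeff i‖ ≤ 1) (i : ℕ) : ℤ_[p] := ⟨f.coeff i, hc i⟩

private theorem Disc_lift {p : ℕ} [Fact p.Prime] {f : ℚ_[p][X]} (hc : ∀ i, ‖f.coeff i‖ ≤ 1) :
    ∃ F : ℤ_[p][X], F.map (PadicInt.Coe.ringHom (p := p)) = f := by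
  refine ⟨∑ i ∈ Finset.range (f.natDegree + 1), C (Disc_co hc i) * X ^ i, ?_⟩
  rw [Polynomial.map_sum]
  conv_rhs => rw [f.as_sum_range_C_mul_X_pow]
  refine Finset.sum_congr rfl fun i _ => ?_
  rw [Polynomial.map_mul, Polynomial.map_pow, map_X, map_C]
  rfl

private theorem Disc_ev {p : ℕ} [Fact p.Prime] (F : ℤ_[p][X]) (x : ℤ_[p]) :
    ev (F.map (PadicInt.Coe.ringHom (p := p))) (x : ℚ_[p]) = ((F.eval x : ℤ_[p]) : ℚ_[p]) := by
  unfold ev
  have h := eval_map_apply (PadicInt.Coe.ringHom (p := p)) x (p := F)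
  exact h

private theorem Disc_exp {p : ℕ} [Fact p.Prime] (G : ℤ_[p][X]) (x y : ℤ_[p]) :
    ∃ k : ℤ_[p], G.eval x - G.eval y = (x - y) * (G.derivative.eval y + k * (x - y)) := by
  obtain ⟨k, hk⟩ := G.binomExpansion y (x - y)
  refine ⟨k, ?_⟩
  rw [add_sub_cancel] at hk
  rw [hk]
  ring

private theorem Disc_lip {p : ℕ} [Fact p.Prime] (G : ℤ_[p][X]) (x y : ℤ_[p]) :
    ‖G.eval x - G.eval y‖ ≤ ‖x - y‖ := by
  obtain ⟨k, hk⟩ := Disc_exp G x y
  rw [hk, norm_mul]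
  have := PadicInt.norm_le_one (G.derivative.eval y + k * (x - y))
  nlinarith [norm_nonneg (x - y)]

private theorem Disc_tri {p : ℕ} [Fact p.Prime] {a b c : ℤ_[p]} (h1 : ‖a - b‖ < 1)
    (h2 : ‖b - c‖ < 1) : ‖a - c‖ < 1 := by
  have h : a - c = (a - b) + (b - c) := by ring
  rw [h]
  exact lt_of_le_of_lt (PadicInt.nonarchimedean _ _) (max_lt h1 h2)

private theorem Disc_maps {p : ℕ} [Fact p.Prime] {G : ℤ_[p][X]} {c x : ℤ_[p]}
    (hG : ‖G.eval c - c‖ < 1) (hx : ‖x - c‖ < 1) : ‖G.eval x - c‖ < 1 :=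
  Disc_tri (lt_of_le_of_lt (Disc_lip G x c) hx) hG

private theorem Disc_small {p : ℕ} [Fact p.Prime] {a : ℤ_[p]} (h : ‖a‖ < 1) :
    ‖a‖ ≤ (p : ℝ)⁻¹ := by
  have h1 := (PadicInt.norm_le_pow_iff_norm_lt_pow_add_one a (-1)).2 (by simpa using h)
  simpa using h1

private theorem Disc_iter {p : ℕ} [Fact p.Prime] {G : ℤ_[p][X]} {c x : ℤ_[p]}
    (hG : ‖G.eval c - c‖ < 1) (hx : ‖x - c‖ < 1) (N : ℕ) :
    ‖(fun z => G.eval z)^[N] x - c‖ < 1 := by
  induction N with
  | zero => simpa using hx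
  | succ N ih =>
    rw [Function.iterate_succ_apply']
    exact Disc_maps hG ih

private theorem Disc_der {p : ℕ} [Fact p.Prime] (G : ℤ_[p][X]) {c x y : ℤ_[p]}
    (hx : ‖x - c‖ < 1) (hy : ‖y - c‖ < 1) (k : ℤ_[p]) :
    ‖(G.derivative.eval y + k * (x - y)) - G.derivative.eval c‖ < 1 := by
  have hxy : ‖x - y‖ < 1 := Disc_tri hx (by rwa [norm_sub_rev])
  have h1 : ‖G.derivative.eval y - G.derivative.eval c‖ < 1 :=
    lt_of_le_of_lt (Disc_lip G.derivative y c) hy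
  have h2 : ‖k * (x - y)‖ < 1 := by
    rw [norm_mul]
    have := PadicInt.norm_le_one k
    nlinarith [norm_nonneg (x - y), norm_nonneg k]
  have h3 : (G.derivative.eval y + k * (x - y)) - G.derivative.eval c =
      (G.derivative.eval y - G.derivative.eval c) + k * (x - y) := by ring
  rw [h3]
  exact lt_of_le_of_lt (PadicInt.nonarchimedean _ _) (max_lt h1 h2)

/-- Case 1: `G` is injective on the disc. -/
private theorem Disc_inj {p : ℕ} [Fact p.Prime] {G : ℤ_[p][X]} {c : ℤ_[p]}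
    (hG : ‖G.eval c - c‖ < 1) (hd : ¬ ‖G.derivative.eval c‖ < 1) (N : ℕ) {x y : ℤ_[p]}
    (hx : ‖x - c‖ < 1) (hy : ‖y - c‖ < 1)
    (h : (fun z => G.eval z)^[N] x = (fun z => G.eval z)^[N] y) : x = y := by
  induction N with
  | zero => simpa using h
  | succ N ih =>
    rw [Function.iterate_succ_apply', Function.iterate_succ_apply'] at h
    apply ih
    have hx1 := Disc_iter hG hx N
    have hy1 := Disc_iter hG hy N
    set a := (fun z => G.eval z)^[N] x
    set b := (fun z => G.eval z)^[N] y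
    obtain ⟨k, hk⟩ := Disc_exp G a b
    have h1 : G.eval a - G.eval b = 0 := sub_eq_zero.2 h
    rw [h1] at hk
    rcases mul_eq_zero.1 hk.symm with h2 | h2
    · exact sub_eq_zero.1 h2
    · exfalso
      have h3 := Disc_der G hx1 hy1 k
      rw [h2, zero_sub, norm_neg] at h3
      exact hd h3

/-- Case 2: `G` has a fixed point in the disc. -/
private theorem Disc_fix {p : ℕ} [Fact p.Prime] {G : ℤ_[p][X]} {c : ℤ_[p]}
    (hG : ‖G.eval c - c‖ < 1) (hd : ‖G.derivative.eval c‖ < 1) :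
    ∃ γ : ℤ_[p], G.eval γ = γ ∧ ‖γ - c‖ < 1 := by
  have h1 : ‖G.derivative.eval c - 1‖ = 1 := by
    have h2 : ‖G.derivative.eval c‖ ≠ ‖(-1 : ℤ_[p])‖ := by
      rw [norm_neg, norm_one]
      exact ne_of_lt hd
    have h3 := PadicInt.norm_add_eq_max_of_ne h2
    rw [← sub_eq_add_neg, norm_neg, norm_one] at h3
    rw [h3]
    exact max_eq_right hd.le
  have h2 : ‖(G - X : ℤ_[p][X]).aeval c‖ < ‖(G - X : ℤ_[p][X]).derivative.aeval c‖ ^ 2 := by
    simp only [coe_aeval_eq_eval, eval_sub, eval_X, derivative_sub, derivative_X, eval_one]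
    rw [h1]
    simpa using hG
  obtain ⟨z, hz, hz1, -⟩ := hensels_lemma h2
  refine ⟨z, ?_, ?_⟩
  · simp only [coe_aeval_eq_eval, eval_sub, eval_X] at hz
    exact sub_eq_zero.1 hz
  · simp only [coe_aeval_eq_eval, eval_sub, derivative_sub, derivative_X, eval_one] at hz1
    rwa [h1] at hz1

private theorem Disc_contr {p : ℕ} [Fact p.Prime] {G : ℤ_[p][X]} {c γ x : ℤ_[p]}
    (hG : ‖G.eval c - c‖ < 1) (hd : ‖G.derivative.eval c‖ < 1)
    (hγ : G.eval γ = γ) (hγc : ‖γ - c‖ < 1) (hx : ‖x - c‖ < 1) (M : ℕ) :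
    ‖(fun z => G.eval z)^[M] x - γ‖ ≤ (p : ℝ)⁻¹ ^ M := by
  induction M with
  | zero =>
    rw [pow_zero]
    exact PadicInt.norm_le_one _
  | succ M ih =>
    rw [Function.iterate_succ_apply']
    have hx1 := Disc_iter hG hx M
    set a := (fun z => G.eval z)^[M] x
    obtain ⟨k, hk⟩ := Disc_exp G a γ
    have h1 : ‖G.derivative.eval γ + k * (a - γ)‖ < 1 := by
      have h2 := Disc_der G hx1 hγc k
      have h3 := Disc_tri (a := G.derivative.eval γ + k * (a - γ)) (c := 0) h2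
        (by simpa using hd)
      simpa using h3
    show ‖G.eval a - γ‖ ≤ _
    have h4 : G.eval a - γ = (a - γ) * (G.derivative.eval γ + k * (a - γ)) := by
      rw [← hk, hγ]
    rw [h4, norm_mul, pow_succ]
    exact mul_le_mul ih (Disc_small h1) (norm_nonneg _) (by positivity)

private theorem Disc_evit {p : ℕ} [Fact p.Prime] {G : ℤ_[p][X]} {Q : ℚ_[p][X]}
    (hQ : G.map (PadicInt.Coe.ringHom (p := p)) = Q) (x : ℤ_[p]) (N : ℕ) :
    (ev Q)^[N] (x : ℚ_[p]) = (((fun z => G.eval z)^[N] x : ℤ_[p]) : ℚ_[p]) := by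
  induction N with
  | zero => rfl
  | succ N ih =>
    rw [Function.iterate_succ_apply', Function.iterate_succ_apply', ih, ← hQ, Disc_ev]

private theorem Disc_itp {p : ℕ} [Fact p.Prime] (F : ℤ_[p][X]) (r : ℕ) :
    ∃ G : ℤ_[p][X], G.map (PadicInt.Coe.ringHom (p := p)) =
      itp (F.map (PadicInt.Coe.ringHom (p := p))) r := by
  induction r with
  | zero => exact ⟨X, by rw [map_X]; rfl⟩
  | succ r ih =>
    obtain ⟨G, hG⟩ := ih
    refine ⟨F.comp G, ?_⟩
    rw [Polynomial.map_comp, hG]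
    unfold itp
    rw [Function.iterate_succ_apply']

private theorem Disc_shift {p : ℕ} [Fact p.Prime] {Q : ℚ_[p][X]} {γ : ℚ_[p]} (x : ℚ_[p])
    (N : ℕ) : (ev (Q.comp (X + C γ) - C γ))^[N] (x - γ) = (ev Q)^[N] x - γ := by
  induction N with
  | zero => rfl
  | succ N ih =>
    rw [Function.iterate_succ_apply', Function.iterate_succ_apply', ih]
    simp [ev, eval_comp]

/-- Points of a periodic residue disc `{x | ‖x - c‖ < 1}` with a common image under some iterate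
of `f ^ r` have a common image under one fixed iterate of `f`.

**PROOF.** For `‖x‖, ‖y‖ ≤ 1` Taylor expansion gives
`‖f x - f y - f' y * (x - y)‖ ≤ ‖x - y‖ ^ 2`, and `f` preserves the unit ball; a point
of norm `< 1` has norm `≤ p⁻¹`. Put `c_i = f^i c`.

Case 1: `‖f' (c_i)‖ = 1` for all `i < r`. Then this is true for all `i` (`f^r c` is in the residue
disc of `c`) and `‖f x - f y‖ = ‖x - y‖` for `x, y` in the disc of `c_i`; so `f ^ (r N)` is injective
on the disc of `c` and `L = 0` works.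

Case 2: `‖f' (c_i)‖ < 1` for some `i < r`. Put `G = itp f r`, a polynomial with integral
coefficients, `ev G = f^r`; by the chain rule `‖G' (c)‖ < 1`, and so `‖G' (x)‖ ≤ p⁻¹` for all `x` in the
disc `D` of `c`. So `G` maps `D` to itself and `‖G x - G y‖ ≤ p⁻¹ ‖x - y‖` for `x, y ∈ D`. `D` is
complete (it is the closed ball of radius `p⁻¹`), so `G` has a fixed point `γ ∈ D`. Let
`g = (G.comp (X + C γ)) - C γ`; it has integral coefficients, `g(0) = 0` and is not zero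
(`natDegree_itp`). Let `e = rootMultiplicity γ (G - C γ)`, that is the order of vanishing of `g` at
`0`: `e ≥ 1`, `g.coeff i = 0` for `i < e`, `g.coeff e ≠ 0` and `p ∤ e` by
`not_dvd_rootMultiplicity`. Choose `M` with `p ^ (-M) < ‖g.coeff e‖`. For `x ∈ D`,
`‖G^M x - γ‖ ≤ p ^ (-M) ‖x - γ‖ < ‖g.coeff e‖`. If `G^N x = G^N y` then (apply more iterates) also
`G^(N + M) x = G^(N + M) y`, and `cancel_in` for `g` and `t = G^M x - γ`, `s = G^M y - γ`
(`G^j (γ + t) = γ + g^j t`) gives `G^(M + p) x = G^(M + p) y`. So `L = r (M + p)` works. -/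
theorem disc_cancel {p : ℕ} [Fact p.Prime] {f : ℚ_[p][X]} (hc : ∀ i, ‖f.coeff i‖ ≤ 1)
    (hD : 1 ≤ f.natDegree) (hp : f.natDegree < p) {c : ℚ_[p]} (hc1 : ‖c‖ ≤ 1) {r : ℕ} (hr : 1 ≤ r)
    (hper : ‖(ev f)^[r] c - c‖ < 1) :
    ∃ L : ℕ, ∀ (N : ℕ) (x y : ℚ_[p]), ‖x - c‖ < 1 → ‖y - c‖ < 1 →
      (ev f)^[r * N] x = (ev f)^[r * N] y → (ev f)^[L] x = (ev f)^[L] y := by
  obtain ⟨F, hF⟩ := Disc_lift hc
  obtain ⟨G, hG⟩ := Disc_itp F r
  rw [hF] at hG
  obtain ⟨c', rfl⟩ : ∃ c' : ℤ_[p], (c' : ℚ_[p]) = c := ⟨⟨c, hc1⟩, rfl⟩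
  have hev : ∀ N : ℕ, (ev f)^[r * N] = (ev (itp f r))^[N] := by
    intro N
    rw [ev_itp, Function.iterate_mul]
  have hGc : ‖G.eval c' - c'‖ < 1 := by
    have h1 := hper
    rw [← ev_itp, ← hG, Disc_ev] at h1
    exact_mod_cast h1
  have hdisc : ∀ x : ℚ_[p], ‖x - (c' : ℚ_[p])‖ < 1 →
      ∃ x' : ℤ_[p], (x' : ℚ_[p]) = x ∧ ‖x' - c'‖ < 1 := by
    intro x hx
    have h1 : ‖x‖ ≤ 1 := by
      have h2 : x = (x - (c' : ℚ_[p])) + (c' : ℚ_[p]) := by ring
      rw [h2]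
      exact le_trans (Padic.nonarchimedean _ _) (max_le hx.le hc1)
    exact ⟨⟨x, h1⟩, rfl, hx⟩
  by_cases hd : ‖G.derivative.eval c'‖ < 1
  · obtain ⟨γ, hγ, hγc⟩ := Disc_fix hGc hd
    set Q := itp f r with hQ
    have hQγ : Q.eval (γ : ℚ_[p]) = (γ : ℚ_[p]) := by
      have h1 := Disc_ev G γ
      rw [hG, hγ] at h1
      exact h1
    set e := (Q - C (Q.eval (γ : ℚ_[p]))).rootMultiplicity (γ : ℚ_[p]) with he
    have hpe : ¬ p ∣ e := not_dvd_rootMultiplicity (Fact.out : p.Prime) hD hp r (γ : ℚ_[p])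
    rw [hQγ] at he
    have hQ0 : Q - C (γ : ℚ_[p]) ≠ 0 := by
      intro h
      have h1 : Q = C (γ : ℚ_[p]) := sub_eq_zero.1 h
      have h2 : Q.natDegree = f.natDegree ^ r := natDegree_itp f r
      rw [h1, natDegree_C] at h2
      have h3 : 0 < f.natDegree ^ r := Nat.pow_pos (by omega)
      omega
    have he1 : 1 ≤ e := by
      rw [he]
      show 0 < _
      rw [rootMultiplicity_pos hQ0]
      show eval _ (Q - C _) = 0
      rw [eval_sub, eval_C, hQγ, sub_self]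
    obtain ⟨v, hv, hv'⟩ := exists_eq_pow_rootMultiplicity_mul_and_not_dvd
      (Q - C (γ : ℚ_[p])) hQ0 (γ : ℚ_[p])
    rw [← he] at hv
    have hvγ : v.eval (γ : ℚ_[p]) ≠ 0 := fun h => hv' (dvd_iff_isRoot.2 h)
    set g : ℚ_[p][X] := Q.comp (X + C (γ : ℚ_[p])) - C (γ : ℚ_[p]) with hg
    have hgv : g = X ^ e * v.comp (X + C (γ : ℚ_[p])) := by
      have h1 : g = (Q - C (γ : ℚ_[p])).comp (X + C (γ : ℚ_[p])) := by
        rw [sub_comp, C_comp]
      rw [h1, hv, mul_comp, pow_comp, sub_comp, X_comp, C_comp, add_sub_cancel_right]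
    have hlow : ∀ i, i < e → g.coeff i = 0 := by
      intro i hi
      rw [hgv, coeff_X_pow_mul', if_neg (by omega)]
    have hce : g.coeff e ≠ 0 := by
      rw [hgv, coeff_X_pow_mul', if_pos le_rfl, Nat.sub_self, coeff_zero_eq_eval_zero, eval_comp,
        eval_add, eval_X, eval_C, zero_add]
      exact hvγ
    have hgc : ∀ i, ‖g.coeff i‖ ≤ 1 := by
      intro i
      have h1 : g = (G.comp (X + C γ) - C γ).map (PadicInt.Coe.ringHom (p := p)) := by
        rw [Polynomial.map_sub, Polynomial.map_comp, Polynomial.map_add, map_X, map_C, hG]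
        rfl
      rw [h1, coeff_map]
      exact PadicInt.norm_le_one ((G.comp (X + C γ) - C γ).coeff i)
    have hp1 : (p : ℝ)⁻¹ < 1 := by
      have h2 : (1 : ℝ) < p := by exact_mod_cast (Fact.out : p.Prime).one_lt
      exact inv_lt_one_of_one_lt₀ h2
    obtain ⟨M, hM⟩ := exists_pow_lt_of_lt_one (norm_pos_iff.2 hce) hp1
    refine ⟨r * (p + M), ?_⟩
    intro N x y hx hy hxy
    obtain ⟨x', rfl, hx'⟩ := hdisc x hx
    obtain ⟨y', rfl, hy'⟩ := hdisc y hy
    rw [hev] at hxy ⊢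
    have hsm : ∀ z' : ℤ_[p], ‖z' - c'‖ < 1 →
        ‖(ev Q)^[M] (z' : ℚ_[p]) - (γ : ℚ_[p])‖ < ‖g.coeff e‖ := by
      intro z' hz'
      rw [Disc_evit hG]
      refine lt_of_le_of_lt ?_ hM
      have h1 := Disc_contr hGc hd hγ hγc hz' M
      exact_mod_cast h1
    have hN : (ev g)^[N] ((ev Q)^[M] (x' : ℚ_[p]) - (γ : ℚ_[p])) =
        (ev g)^[N] ((ev Q)^[M] (y' : ℚ_[p]) - (γ : ℚ_[p])) := by
      rw [hg, Disc_shift, Disc_shift, ← Function.iterate_add_apply, ← Function.iterate_add_apply,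
        add_comm N M, Function.iterate_add_apply, Function.iterate_add_apply, hxy]
    have h2 := cancel_in hgc he1 hpe hlow hce (hsm x' hx') (hsm y' hy') hN
    rw [hg, Disc_shift, Disc_shift] at h2
    rw [Function.iterate_add_apply, Function.iterate_add_apply]
    exact sub_left_injective h2
  · refine ⟨0, ?_⟩
    intro N x y hx hy hxy
    obtain ⟨x', rfl, hx'⟩ := hdisc x hx
    obtain ⟨y', rfl, hy'⟩ := hdisc y hy
    rw [hev, Disc_evit hG, Disc_evit hG] at hxy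
    have h1 : x' = y' := Disc_inj hGc hd N hx' hy' (Subtype.coe_injective hxy)
    rw [h1]

end Pool.Agent.PrepH
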