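import Pool.Agent.PrepH.Out
import Pool.Agent.PrepH.Disc

/-!
# Dynamical cancellation over `ℚ_p` for polynomials with good reduction
-/

namespace Pool.Agent.PrepH

open Polynomial

private theorem dcp_norm {p : ℕ} [Fact p.Prime] (a b : ℤ_[p]) :
    PadicInt.toZMod a = PadicInt.toZMod b ↔ ‖(a : ℚ_[p]) - b‖ < 1 := by
  rw [← sub_eq_zero, ← map_sub, ← RingHom.mem_ker, PadicInt.ker_toZMod,
    IsLocalRing.mem_maximalIdeal, PadicInt.mem_nonunits, PadicInt.norm_def, PadicInt.coe_sub]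

private theorem dcp_lift {p : ℕ} [Fact p.Prime] {f : ℚ_[p][X]} (hc : ∀ i, ‖f.coeff i‖ ≤ 1) :
    ∃ F : ℤ_[p][X], F.map (PadicInt.Coe.ringHom : ℤ_[p] →+* ℚ_[p]) = f := by
  have h : f ∈ Polynomial.lifts (PadicInt.Coe.ringHom : ℤ_[p] →+* ℚ_[p]) := by
    rw [Polynomial.lifts_iff_coeff_lifts]
    intro i
    exact ⟨⟨f.coeff i, hc i⟩, rfl⟩
  exact (Polynomial.mem_lifts f).1 h

/-- a common period of all points in the image of the `p`-th iterate -/
private theorem dcp_per {p : ℕ} [Fact p.Prime] (φ : ZMod p → ZMod p) (u : ZMod p) :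
    Function.IsPeriodicPt φ p.factorial (φ^[p] u) := by
  have h1 : ¬ Function.Injective (fun i : Fin (p + 1) => φ^[(i : ℕ)] u) := by
    intro h
    have h2 := Fintype.card_le_of_injective _ h
    rw [Fintype.card_fin, ZMod.card] at h2
    omega
  have key : ∀ i j : Fin (p + 1), i < j → φ^[(i : ℕ)] u = φ^[(j : ℕ)] u →
      Function.IsPeriodicPt φ p.factorial (φ^[p] u) := by
    intro i j hij h
    have hi := i.isLt
    have hj := j.isLt
    have hij' : (i : ℕ) < j := hij
    have h3 : Function.IsPeriodicPt φ ((j : ℕ) - i) (φ^[(i : ℕ)] u) := by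
      show φ^[(j : ℕ) - i] (φ^[(i : ℕ)] u) = φ^[(i : ℕ)] u
      rw [← Function.iterate_add_apply, Nat.sub_add_cancel hij'.le, h]
    have h4 : Function.IsPeriodicPt φ ((j : ℕ) - i) (φ^[p] u) := by
      have h5 : φ^[p] u = φ^[p - (i : ℕ)] (φ^[(i : ℕ)] u) := by
        rw [← Function.iterate_add_apply, Nat.sub_add_cancel (by omega)]
      rw [h5]
      exact h3.apply_iterate _
    exact h4.trans_dvd (Nat.dvd_factorial (by omega) (by omega))
  by_contra hcon
  apply h1
  intro i j h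
  by_contra hne
  rcases lt_or_gt_of_ne hne with h2 | h2
  · exact hcon (key i j h2 h)
  · exact hcon (key j i h2 h.symm)

private theorem dcp_more {α : Type*} {g : α → α} {x y : α} {N M : ℕ} (h : g^[N] x = g^[N] y)
    (hNM : N ≤ M) : g^[M] x = g^[M] y := by
  obtain ⟨k, rfl⟩ := Nat.exists_eq_add_of_le hNM
  rw [add_comm, Function.iterate_add_apply, h, ← Function.iterate_add_apply]

/-- **PROOF.** `f` preserves the closed unit ball, and `{x | 1 < ‖x‖}` by `norm_out`
(`D = natDegree f ≥ 1`). So if `f^N x = f^N y`, either `‖x‖, ‖y‖ > 1`, and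
`f^p x = f^p y` by `cancel_out`, or `‖x‖, ‖y‖ ≤ 1`. In the second case look at the residues in `ZMod p`
(`PadicInt.toZMod` of `x : ℤ_[p]`; `‖a - b‖ < 1` iff the residues are equal): `f` induces a map
`φ` of the finite set `ZMod p`. The points `x' = f^p x`, `y' = f^p y` have `φ`-periodic residues
(`Function.IsPeriodicPt`; pigeonhole principle for `p + 1` elements of `ZMod p`), a common period is
`r = p!` (every period is at most `p`), so `φ^r` fixes the two residues. As `f^(r N) x' = f^(r N) y'`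
(the iterates from `N` on agree, `r N ≥ N`), the residues of `x'` and `y'` are equal. For every
`u : ZMod p` with `φ^r u = u` choose `c_u ∈ ℤ_p` over it, then `‖f^r c_u - c_u‖ < 1`, and let
`L_u` be the number given by `disc_cancel` for `c_u` and `r`. With `L' = max L_u` we have
`f^L' x' = f^L' y'`, so `L = p + L'` works. -/
theorem padic_cancel {p : ℕ} [Fact p.Prime] {f : ℚ_[p][X]} (hc : ∀ i, ‖f.coeff i‖ ≤ 1)
    (hl : ‖f.leadingCoeff‖ = 1) (hD : 1 ≤ f.natDegree) (hp : f.natDegree < p) :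
    ∃ L : ℕ, ∀ x y : ℚ_[p], (∃ N, (ev f)^[N] x = (ev f)^[N] y) → (ev f)^[L] x = (ev f)^[L] y := by
  classical
  obtain ⟨F, hF⟩ := dcp_lift hc
  set φ : ZMod p → ZMod p := fun u => (F.map (PadicInt.toZMod : ℤ_[p] →+* ZMod p)).eval u with hφ
  set G : ℤ_[p] → ℤ_[p] := fun a => F.eval a with hG
  have h1 : ∀ (k : ℕ) (a : ℤ_[p]), (ev f)^[k] (a : ℚ_[p]) = ((G^[k] a : ℤ_[p]) : ℚ_[p]) := by
    have h2 : Function.Semiconj (fun a : ℤ_[p] => (a : ℚ_[p])) G (ev f) := by
      intro a
      show ((F.eval a : ℤ_[p]) : ℚ_[p]) = f.eval (a : ℚ_[p])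
      rw [← hF]
      exact (Polynomial.eval_map_apply (PadicInt.Coe.ringHom : ℤ_[p] →+* ℚ_[p]) a).symm
    intro k a
    exact ((h2.iterate_right k) a).symm
  have h2 : ∀ (k : ℕ) (a : ℤ_[p]), φ^[k] (PadicInt.toZMod a) = PadicInt.toZMod (G^[k] a) := by
    have h3 : Function.Semiconj (fun a : ℤ_[p] => (PadicInt.toZMod a : ZMod p)) G φ := by
      intro a
      exact (Polynomial.eval_map_apply (PadicInt.toZMod : ℤ_[p] →+* ZMod p) a).symm
    intro k a
    exact ((h3.iterate_right k) a).symm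
  set r : ℕ := p.factorial with hr
  have hr1 : 1 ≤ r := Nat.factorial_pos p
  have h3 : ∀ u : ZMod p, ∃ L : ℕ, φ^[r] u = u → ∀ (N : ℕ) (a b : ℤ_[p]),
      PadicInt.toZMod a = u → PadicInt.toZMod b = u →
      (ev f)^[r * N] (a : ℚ_[p]) = (ev f)^[r * N] (b : ℚ_[p]) →
      (ev f)^[L] (a : ℚ_[p]) = (ev f)^[L] (b : ℚ_[p]) := by
    intro u
    by_cases hu : φ^[r] u = u
    · set c : ℤ_[p] := (u.val : ℤ_[p]) with hcdef
      have hcu : PadicInt.toZMod c = u := by
        rw [hcdef, map_natCast, ZMod.natCast_zmod_val]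
      have hper : ‖(ev f)^[r] (c : ℚ_[p]) - c‖ < 1 := by
        rw [h1 r c, ← dcp_norm, ← h2, hcu, hu]
      obtain ⟨L, hL⟩ := disc_cancel hc hD hp (PadicInt.norm_le_one c) hr1 hper
      refine ⟨L, fun _ N a b ha hb hab => hL N _ _ ?_ ?_ hab⟩
      · rw [← dcp_norm, ha, hcu]
      · rw [← dcp_norm, hb, hcu]
    · exact ⟨0, fun h => absurd h hu⟩
  choose Lf hLf using h3
  refine ⟨(∑ u, Lf u) + p, ?_⟩
  rintro x y ⟨N, hN⟩
  have hbig : ∀ z : ℚ_[p], 1 < ‖z‖ → ∀ k, 1 < ‖(ev f)^[k] z‖ := by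
    intro z hz k
    induction k with
    | zero => exact hz
    | succ k ih =>
      rw [Function.iterate_succ_apply', norm_out hc hl hD ih]
      exact one_lt_pow₀ ih (by omega)
  have hsmall : ∀ z : ℚ_[p], ‖z‖ ≤ 1 → ∀ k, ‖(ev f)^[k] z‖ ≤ 1 := by
    intro z hz k
    have h4 := h1 k ⟨z, hz⟩
    have h5 : (ev f)^[k] z = ((G^[k] ⟨z, hz⟩ : ℤ_[p]) : ℚ_[p]) := h4
    rw [h5]
    exact PadicInt.norm_le_one _
  rcases lt_or_ge 1 ‖x‖ with hx | hx
  · rcases lt_or_ge 1 ‖y‖ with hy | hy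
    · exact dcp_more (cancel_out hc hl hD hp hx hy hN) (by omega)
    · exfalso
      have h4 := hbig x hx N
      have h5 := hsmall y hy N
      rw [hN] at h4
      linarith
  · rcases lt_or_ge 1 ‖y‖ with hy | hy
    · exfalso
      have h4 := hbig y hy N
      have h5 := hsmall x hx N
      rw [hN] at h5
      linarith
    · obtain ⟨a, ha⟩ : ∃ a : ℤ_[p], (a : ℚ_[p]) = x := ⟨⟨x, hx⟩, rfl⟩
      obtain ⟨b, hb⟩ : ∃ b : ℤ_[p], (b : ℚ_[p]) = y := ⟨⟨y, hy⟩, rfl⟩
      subst ha hb
      have h4 : G^[r * N] (G^[p] a) = G^[r * N] (G^[p] b) := by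
        have h5 : (ev f)^[r * N + p] (a : ℚ_[p]) = (ev f)^[r * N + p] (b : ℚ_[p]) := by
          refine dcp_more hN ?_
          have := Nat.le_mul_of_pos_left N hr1
          omega
        rw [h1, h1] at h5
        rw [← Function.iterate_add_apply, ← Function.iterate_add_apply]
        exact Subtype.ext h5
      have hpa : Function.IsPeriodicPt φ r (PadicInt.toZMod (G^[p] a)) := by
        rw [← h2]
        exact dcp_per φ _
      have hpb : Function.IsPeriodicPt φ r (PadicInt.toZMod (G^[p] b)) := by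
        rw [← h2]
        exact dcp_per φ _
      have hres : PadicInt.toZMod (G^[p] a) = PadicInt.toZMod (G^[p] b) := by
        have h6 := congrArg (fun z : ℤ_[p] => (PadicInt.toZMod z : ZMod p)) h4
        simp only [← h2 (r * N)] at h6
        rw [(hpa.mul_const N).eq, (hpb.mul_const N).eq] at h6
        exact h6
      have h7 := hLf (PadicInt.toZMod (G^[p] a)) hpa N (G^[p] a) (G^[p] b) rfl hres.symm (by
        rw [h1, h1, h4])
      rw [← h1 p a, ← h1 p b] at h7
      rw [Function.iterate_add_apply, Function.iterate_add_apply]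
      exact dcp_more h7 (Finset.single_le_sum (f := Lf) (fun _ _ => Nat.zero_le _)
        (Finset.mem_univ _))

end Pool.Agent.PrepH
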