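import Mathlib

/-!
# Rational points of a curve on preperiodic hypersurfaces: definitions

`F` is an algebraically closed field (the algebraic closure of the number field `K`),
`P1 F = Option F` is the projective line, `none` being the point at infinity.
-/

namespace Pool.Agent.PrepH

open Polynomial

/-- The projective line over `F`; `none` is the point at infinity. -/
abbrev P1 (F : Type*) := Option F

variable {F : Type*} [Field F] {n : ℕ}

/-- The self-map of the affine line given by a polynomial. -/
def ev (f : F[X]) : F → F := fun x => f.eval x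

/-- The self-map of the projective line given by a (nonconstant) polynomial: `∞ ↦ ∞`. -/
def onP1 (f : F[X]) : P1 F → P1 F := Option.map (ev f)

/-- The self-map `φ = (f, …, f)` of `(P¹)ⁿ`, acting coordinatewise. -/
def phi (f : F[X]) (P : Fin n → P1 F) : Fin n → P1 F := fun i => onP1 f (P i)

/-- The factor contributed by a coordinate: `x ^ k` at a finite point `x`, and `1` at infinity. -/
def cval : P1 F → ℕ → F
  | none, _ => 1
  | some x, k => x ^ k

/-- The value at a point of `(P¹)ⁿ` of the multihomogenisation of a polynomial: for every infinite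
coordinate `P i` only the monomials of top degree in the `i`-th variable count. -/
noncomputable def mval (H : MvPolynomial (Fin n) F) (P : Fin n → P1 F) : F :=
  haveI := Classical.dec
  ∑ m ∈ H.support.filter (fun m => ∀ i, P i = none → m i = H.degreeOf i),
    H.coeff m * ∏ i, cval (P i) (m i)

/-- The closed subset of `(P¹)ⁿ` given by an ideal of the affine coordinate ring: the common zeros
of the multihomogenisations of its elements. For a prime ideal `I ≠ ⊤` this is the Zariski closure
in `(P¹)ⁿ` of the affine variety of `I`. -/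
def zeroSet (I : Ideal (MvPolynomial (Fin n) F)) : Set (Fin n → P1 F) :=
  {P | ∀ H ∈ I, mval H P = 0}

/-- `zeroSet I` is an irreducible non-vertical curve of `(P¹)ⁿ`: `I` is prime, its coordinate ring
has transcendence degree one, and no coordinate is constant on it (equivalently, the projections to
the factors are surjective). -/
structure IsCurve (I : Ideal (MvPolynomial (Fin n) F)) : Prop where
  prime : I.IsPrime
  dim : Algebra.trdeg F (MvPolynomial (Fin n) F ⧸ I) = 1
  nonvert : ∀ (i : Fin n) (c : F), MvPolynomial.X i - MvPolynomial.C c ∉ I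

/-- All coordinates are in `P¹(K)`. -/
def IsRat (K : Type*) [Field K] [Algebra K F] (P : Fin n → P1 F) : Prop :=
  ∀ i, P i = none ∨ ∃ a : K, P i = some (algebraMap K F a)

/-- `g` commutes with an iterate of `f`. -/
def CommIter (f g : F[X]) : Prop :=
  ∃ m : ℕ, 1 ≤ m ∧ ∀ x : F, ev g ((ev f)^[m] x) = (ev f)^[m] (ev g x)

/-- `f` and `g` are conjugate by the linear polynomial `a X + b`. -/
def LinConj (f g : F[X]) : Prop :=
  ∃ a b : F, a ≠ 0 ∧ (C a * X + C b).comp f = g.comp (C a * X + C b)

/-- The preperiodic hypersurfaces of Medvedev-Scanlon's form: `{P i = ζ}` with `ζ` preperiodic, and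
the preimages under iterates of `φ` of the graphs `{P j = g (P i)}`, `g` a nonconstant polynomial
which commutes with an iterate of `f`. -/
inductive MSHyp (f : F[X]) : Set (Fin n → P1 F) → Prop
  | pt (i : Fin n) (ζ : P1 F) (k m : ℕ) (hm : 1 ≤ m)
      (hζ : (onP1 f)^[m] ((onP1 f)^[k] ζ) = (onP1 f)^[k] ζ) : MSHyp f {P | P i = ζ}
  | gr (i j : Fin n) (hij : i ≠ j) (g : F[X]) (hg : 1 ≤ g.natDegree) (hc : CommIter f g) (k : ℕ) :
      MSHyp f {P | (onP1 f)^[k] (P j) = onP1 g ((onP1 f)^[k] (P i))}

/-- Hypersurfaces of `(P¹)ⁿ`: zero sets of nonconstant multihomogeneous polynomials. -/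
def IsHyp (V : Set (Fin n → P1 F)) : Prop :=
  ∃ (H : MvPolynomial (Fin n) F) (s : Finset (Fin n)), H ≠ 0 ∧ (1 ≤ H.totalDegree ∨ s.Nonempty) ∧
    V = {P | mval H P = 0 ∨ ∃ i ∈ s, P i = none}

/-- `V` is a periodic hypersurface: `φᵐ(V) = V` for some `m ≥ 1`. -/
def IsPer (f : F[X]) (V : Set (Fin n → P1 F)) : Prop :=
  IsHyp V ∧ ∃ m : ℕ, 1 ≤ m ∧ (phi f)^[m] '' V = V

/-- `V` is a preperiodic hypersurface: `φᵏ(V)` is a periodic hypersurface for some `k ≥ 0`. -/
def IsPreper (f : F[X]) (V : Set (Fin n → P1 F)) : Prop :=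
  IsHyp V ∧ ∃ k : ℕ, IsPer f ((phi f)^[k] '' V)

/-- The theorem of Medvedev and Scanlon on the periodic hypersurfaces of `(f, …, f)`: they are
unions of hypersurfaces `{P i = ζ}` (`ζ` periodic) and `{P j = g (P i)}` (`g` a polynomial which
commutes with an iterate of `f`). -/
def MedvedevScanlon (f : F[X]) (n : ℕ) : Prop :=
  ∀ V : Set (Fin n → P1 F), IsPer f V → ∀ Q ∈ V,
    (∃ (i : Fin n) (ζ : P1 F) (m : ℕ), 1 ≤ m ∧ (onP1 f)^[m] ζ = ζ ∧ {P | P i = ζ} ⊆ V ∧ Q i = ζ) ∨
    (∃ i j : Fin n, i ≠ j ∧ ∃ g : F[X], 1 ≤ g.natDegree ∧ CommIter f g ∧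
      {P : Fin n → P1 F | P j = onP1 g (P i)} ⊆ V ∧ Q j = onP1 g (Q i))

end Pool.Agent.PrepH
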