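import Pool.Agent.PrepH.Mult

/-!
# Commuting polynomials of equal degree
-/

namespace Pool.Agent.PrepH

open Polynomial

variable {K : Type*} [Field K] [CharZero K]

/-- **PROOF.** `G.comp (u + r) - G.comp u = r * Σ_i a_i S_i`, `S_i = Σ_{j < i} (u + r)^j u^(i - 1 - j)`
(`Commute.add_pow`/`geom_sum₂`), `natDegree S_i ≤ e (i - 1)` with `e = natDegree u`, and the coefficient of
`X^(e (D - 1))` in `S_D`, `D = natDegree G`, is `D * (leadingCoeff u)^(D - 1) ≠ 0`. -/
theorem natDegree_comp_sub {G u r : K[X]} (hG : 1 ≤ G.natDegree) (hr : r ≠ 0)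
    (hru : r.natDegree < u.natDegree) :
    G.comp (u + r) - G.comp u ≠ 0 ∧
      (G.comp (u + r) - G.comp u).natDegree = u.natDegree * (G.natDegree - 1) + r.natDegree := by
  set e := u.natDegree with he
  set D := G.natDegree with hD
  have he1 : 1 ≤ e := by omega
  let S : ℕ → K[X] := fun i => ∑ j ∈ Finset.range i, (u + r) ^ j * u ^ (i - 1 - j)
  let T : K[X] := ∑ i ∈ Finset.range (D + 1), C (G.coeff i) * S i
  have hur : (u + r).natDegree ≤ e := by
    refine (natDegree_add_le _ _).trans ?_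
    rw [max_le_iff]
    exact ⟨le_rfl, hru.le⟩
  have hcr : (u + r).coeff e = u.leadingCoeff := by
    rw [coeff_add, coeff_eq_zero_of_natDegree_lt hru, add_zero]
    rfl
  have hS1 : ∀ i, (S i).natDegree ≤ e * (i - 1) := by
    intro i
    refine natDegree_sum_le_of_forall_le _ _ ?_
    intro j hj
    have hj' := Finset.mem_range.1 hj
    refine natDegree_mul_le.trans ?_
    have h1 : ((u + r) ^ j).natDegree ≤ j * e :=
      natDegree_pow_le.trans (Nat.mul_le_mul_left _ hur)
    have h2 : (u ^ (i - 1 - j)).natDegree ≤ (i - 1 - j) * e := natDegree_pow_le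
    calc ((u + r) ^ j).natDegree + (u ^ (i - 1 - j)).natDegree
        ≤ j * e + (i - 1 - j) * e := Nat.add_le_add h1 h2
      _ = e * (i - 1) := by
        rw [← Nat.add_mul, Nat.mul_comm]
        congr 1
        omega
  have hS2 : (S D).coeff (e * (D - 1)) = D * u.leadingCoeff ^ (D - 1) := by
    show (∑ j ∈ Finset.range D, (u + r) ^ j * u ^ (D - 1 - j)).coeff (e * (D - 1)) = _
    rw [finsetSum_coeff]
    have h1 : ∀ j ∈ Finset.range D, ((u + r) ^ j * u ^ (D - 1 - j)).coeff (e * (D - 1)) =
        u.leadingCoeff ^ (D - 1) := by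
      intro j hj
      have hj' := Finset.mem_range.1 hj
      have h2 : e * (D - 1) = j * e + (D - 1 - j) * e := by
        rw [← Nat.add_mul, Nat.mul_comm]
        congr 1
        omega
      have h3 : ((u + r) ^ j).natDegree ≤ j * e :=
        natDegree_pow_le.trans (Nat.mul_le_mul_left _ hur)
      have h4 : (u ^ (D - 1 - j)).natDegree ≤ (D - 1 - j) * e := natDegree_pow_le
      rw [h2, coeff_mul_add_eq_of_natDegree_le h3 h4, coeff_pow_of_natDegree_le hur,
        coeff_pow_of_natDegree_le le_rfl, hcr]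
      show u.leadingCoeff ^ j * u.leadingCoeff ^ (D - 1 - j) = _
      rw [← pow_add]
      congr 1
      omega
    rw [Finset.sum_congr rfl h1, Finset.sum_const, Finset.card_range, nsmul_eq_mul]
  have hT1 : T.natDegree ≤ e * (D - 1) := by
    refine natDegree_sum_le_of_forall_le _ _ ?_
    intro i hi
    have hi' := Finset.mem_range.1 hi
    refine (natDegree_C_mul_le _ _).trans ((hS1 i).trans ?_)
    exact Nat.mul_le_mul_left _ (by omega)
  have hT2 : T.coeff (e * (D - 1)) = G.leadingCoeff * (D * u.leadingCoeff ^ (D - 1)) := by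
    show (∑ i ∈ Finset.range (D + 1), C (G.coeff i) * S i).coeff (e * (D - 1)) = _
    rw [finsetSum_coeff, Finset.sum_range_succ, Finset.sum_eq_zero, zero_add, coeff_C_mul, hS2]
    · rfl
    · intro i hi
      have hi' := Finset.mem_range.1 hi
      rw [coeff_C_mul]
      rcases Nat.eq_zero_or_pos i with h0 | h0
      · subst h0
        have : S 0 = 0 := by simp [S]
        rw [this]
        simp
      · have h1 : (S i).coeff (e * (D - 1)) = 0 := by
          refine coeff_eq_zero_of_natDegree_lt (lt_of_le_of_lt (hS1 i) ?_)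
          exact Nat.mul_lt_mul_of_pos_left (by omega) (by omega)
        rw [h1, mul_zero]
  have hu0 : u.leadingCoeff ≠ 0 := by
    rw [Ne, leadingCoeff_eq_zero]
    rintro h0
    rw [h0, natDegree_zero] at he
    omega
  have hG0 : G.leadingCoeff ≠ 0 := by
    rw [Ne, leadingCoeff_eq_zero]
    rintro h0
    rw [h0, natDegree_zero] at hD
    omega
  have hT3 : T.coeff (e * (D - 1)) ≠ 0 := by
    rw [hT2]
    have : (D : K) ≠ 0 := by
      rw [Ne, Nat.cast_eq_zero]
      omega
    exact mul_ne_zero hG0 (mul_ne_zero this (pow_ne_zero _ hu0))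
  have hT4 : T.natDegree = e * (D - 1) := natDegree_eq_of_le_of_coeff_ne_zero hT1 hT3
  have hT0 : T ≠ 0 := by
    rintro h0
    rw [h0] at hT3
    exact hT3 (coeff_zero _)
  have hmain : G.comp (u + r) - G.comp u = T * r := by
    have h1 : ∀ p : K[X], G.comp p = ∑ i ∈ Finset.range (D + 1), C (G.coeff i) * p ^ i := by
      intro p
      rw [comp, eval₂_eq_sum_range]
    rw [h1, h1, ← Finset.sum_sub_distrib]
    show _ = (∑ i ∈ Finset.range (D + 1), C (G.coeff i) * S i) * r
    rw [Finset.sum_mul]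
    refine Finset.sum_congr rfl fun i _ => ?_
    have h2 := geom_sum₂_mul (u + r) u i
    rw [add_sub_cancel_left] at h2
    rw [← mul_sub, ← h2, mul_assoc]
  rw [hmain]
  refine ⟨mul_ne_zero hT0 hr, ?_⟩
  rw [natDegree_mul hT0 hr, hT4]

/-- `P = A X^D + c X^(D - s) + (lower terms)`, `A, c ≠ 0`. -/
def HasGap (s : ℕ) (P : K[X]) : Prop :=
  ∃ R : K[X], R ≠ 0 ∧ P = C P.leadingCoeff * X ^ P.natDegree + R ∧ R.natDegree + s = P.natDegree

/-- **PROOF.** Induction on `m`: `itp f (m + 1) = f.comp P` with `P = itp f m = A X^D + R`,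
`deg R = D - s`, `D = d ^ m ≥ 2`, `f = a X^d + ρ`, `deg ρ = d - s`. By `natDegree_comp_sub`
`f.comp P - f.comp (A X^D)` has degree `D (d - 1) + D - s = d D - s`, and
`f.comp (A X^D) = a A^d X^(d D) + ρ.comp (A X^D)` with `deg (ρ.comp (A X^D)) = D (d - s) < d D - s`. -/
theorem hasGap_itp {s : ℕ} (hs : 1 ≤ s) {f : K[X]} (hd : 2 ≤ f.natDegree) (hf : HasGap s f) {m : ℕ}
    (hm : 1 ≤ m) : HasGap s (itp f m) := by
  induction m, hm using Nat.le_induction with
  | base =>
    have h1 : itp f 1 = f := by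
      show (fun q => f.comp q)^[1] X = f
      simp
    rw [h1]
    exact hf
  | succ m hm ih =>
    have hstep : itp f (m + 1) = f.comp (itp f m) := by
      show (fun q => f.comp q)^[m + 1] X = _
      rw [Function.iterate_succ_apply']
      rfl
    obtain ⟨ρ, hρ0, hρ, hρd⟩ := hf
    obtain ⟨R, hR0, hR, hRd⟩ := ih
    have hD := natDegree_itp f m
    set P := itp f m with hP
    set d := f.natDegree with hd'
    set D := P.natDegree with hD'
    have hD2 : 2 ≤ D := by
      rw [hD]
      calc 2 ≤ d := hd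
        _ = d ^ 1 := (pow_one _).symm
        _ ≤ d ^ m := Nat.pow_le_pow_right (by omega) hm
    have hP0 : P ≠ 0 := by
      rintro h0
      rw [h0, natDegree_zero] at hD'
      omega
    have hA : P.leadingCoeff ≠ 0 := leadingCoeff_ne_zero.2 hP0
    have hud : (C P.leadingCoeff * X ^ D).natDegree = D := natDegree_C_mul_X_pow _ _ hA
    have hf1 : 1 ≤ f.natDegree := by omega
    obtain ⟨hΔ0, hΔ⟩ := natDegree_comp_sub (G := f) (u := C P.leadingCoeff * X ^ D) (r := R)
      hf1 hR0 (by rw [hud]; omega)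
    rw [hud, ← hR, ← hd'] at hΔ
    rw [← hR] at hΔ0
    have hcomp : f.comp (C P.leadingCoeff * X ^ D) =
        C (f.leadingCoeff * P.leadingCoeff ^ d) * X ^ (d * D) +
          ρ.comp (C P.leadingCoeff * X ^ D) := by
      conv_lhs => rw [hρ]
      rw [add_comp, mul_comp, C_comp, X_pow_comp, mul_pow, ← pow_mul, C_mul, C_pow, mul_assoc,
        Nat.mul_comm D d]
    have hlc : (f.comp P).leadingCoeff = f.leadingCoeff * P.leadingCoeff ^ d :=
      leadingCoeff_comp (by omega)
    have hnd : (f.comp P).natDegree = d * D := natDegree_comp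
    have hρc : (ρ.comp (C P.leadingCoeff * X ^ D)).natDegree = ρ.natDegree * D := by
      rw [natDegree_comp, hud]
    have hlt : ρ.natDegree * D < D * (d - 1) + R.natDegree := by
      rcases Nat.lt_or_ge 1 s with h2 | h2
      · have h3 : ρ.natDegree < d - 1 := by omega
        have h4 : ρ.natDegree * D < (d - 1) * D := Nat.mul_lt_mul_of_pos_right h3 (by omega)
        rw [Nat.mul_comm D (d - 1)]
        omega
      · have h3 : ρ.natDegree = d - 1 := by omega
        rw [h3, Nat.mul_comm D (d - 1)]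
        omega
    rw [hstep]
    refine ⟨ρ.comp (C P.leadingCoeff * X ^ D) + (f.comp P - f.comp (C P.leadingCoeff * X ^ D)),
      ?_, ?_, ?_⟩
    · intro h0
      have h1 := congrArg natDegree h0
      rw [natDegree_add_eq_right_of_natDegree_lt (by rw [hρc, hΔ]; exact hlt), hΔ,
        natDegree_zero] at h1
      omega
    · rw [hlc, hnd, ← add_assoc, ← hcomp]
      ring
    · rw [natDegree_add_eq_right_of_natDegree_lt (by rw [hρc, hΔ]; exact hlt), hΔ, hnd]
      obtain ⟨d', hd''⟩ : ∃ d', d = d' + 1 := ⟨d - 1, by omega⟩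
      rw [hd'', Nat.add_sub_cancel, Nat.add_mul, Nat.mul_comm D d']
      omega

/-- **PROOF.** Let `α_i = leadingCoeff g_i`, `ω = α_1 / α_2`, `e = natDegree g_i`,
`G = A X^D + R`. Comparing leading coefficients, `A α_i^D = α_i A^e`, so `ω^D = ω`. Let
`r = g_1 - ω g_2`; it has degree `< e` (or is `0`). If `r ≠ 0`:
`r.comp G = G.comp g_1 - ω G.comp g_2`
`= (G.comp (ω g_2 + r) - G.comp (ω g_2)) + (R.comp (ω g_2) - ω R.comp g_2)`; the first
bracket has degree `e (D - 1) + deg r` by `natDegree_comp_sub`, the second one degree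
`≤ e (D - s) < e (D - 1)`; so `D deg r = e (D - 1) + deg r`, `deg r = e`, a contradiction. So
`g_1 = ω g_2`, and `G.comp (ω g_2) = ω G.comp g_2`, that is (`g_2` is not constant)
`G.comp (ω X) = ω G`, `R.comp (ω X) = ω R`, and comparing leading coefficients
`ω^(D - s) = ω = ω^D`, `ω^s = 1`. -/
theorem comm_eq {s : ℕ} (hs : 2 ≤ s) {G g₁ g₂ : K[X]} (hG : HasGap s G) (h1 : 1 ≤ g₁.natDegree)
    (h12 : g₁.natDegree = g₂.natDegree) (c1 : G.comp g₁ = g₁.comp G) (c2 : G.comp g₂ = g₂.comp G) :
    ∃ ω : K, ω ^ s = 1 ∧ g₁ = C ω * g₂ := by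
  obtain ⟨R, hR0, hR, hRd⟩ := hG
  set D := G.natDegree with hD
  set e := g₁.natDegree with he
  have hg10 : g₁ ≠ 0 := by
    rintro h0
    rw [h0, natDegree_zero] at he
    omega
  have hg20 : g₂ ≠ 0 := by
    rintro h0
    rw [h0, natDegree_zero] at h12
    omega
  have hG0 : G ≠ 0 := by
    rintro h0
    rw [h0, natDegree_zero] at hD
    omega
  have hα1 : g₁.leadingCoeff ≠ 0 := leadingCoeff_ne_zero.2 hg10
  have hα2 : g₂.leadingCoeff ≠ 0 := leadingCoeff_ne_zero.2 hg20
  have hA : G.leadingCoeff ≠ 0 := leadingCoeff_ne_zero.2 hG0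
  have key : ∀ g : K[X], g.natDegree = e → G.comp g = g.comp G →
      G.leadingCoeff * g.leadingCoeff ^ D = g.leadingCoeff * G.leadingCoeff ^ e := by
    intro g hg hc
    have h1 := congrArg leadingCoeff hc
    rw [leadingCoeff_comp (by omega), leadingCoeff_comp (by omega), hg] at h1
    exact h1
  have k1 := key g₁ rfl c1
  have k2 := key g₂ h12.symm c2
  obtain ⟨D', hD'⟩ : ∃ D', D = D' + 1 := ⟨D - 1, by omega⟩
  set ω := g₁.leadingCoeff / g₂.leadingCoeff with hω
  have hω0 : ω ≠ 0 := div_ne_zero hα1 hα2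
  have hα : g₁.leadingCoeff = ω * g₂.leadingCoeff := by
    rw [hω]
    field_simp
  have hωD : ω ^ D = ω := by
    rw [hα, mul_pow] at k1
    have h1 : G.leadingCoeff * g₂.leadingCoeff ^ D * ω ^ D =
        G.leadingCoeff * g₂.leadingCoeff ^ D * ω := by
      calc G.leadingCoeff * g₂.leadingCoeff ^ D * ω ^ D
          = G.leadingCoeff * (ω ^ D * g₂.leadingCoeff ^ D) := by ring
        _ = ω * (g₂.leadingCoeff * G.leadingCoeff ^ e) := by rw [k1]; ring
        _ = G.leadingCoeff * g₂.leadingCoeff ^ D * ω := by rw [← k2]; ring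
    exact mul_left_cancel₀ (mul_ne_zero hA (pow_ne_zero _ hα2)) h1
  have hcω : ∀ g : K[X], G.comp (C ω * g) - C ω * G.comp g =
      R.comp (C ω * g) - C ω * R.comp g := by
    intro g
    conv_lhs => rw [hR]
    rw [add_comp, add_comp, mul_comp, mul_comp, C_comp, X_pow_comp, X_pow_comp, C_comp, mul_pow,
      ← C_pow, hωD]
    ring
  have hωg : (C ω * g₂).natDegree = e := by
    rw [natDegree_C_mul hω0, h12]
  have hr0 : g₁ - C ω * g₂ = 0 := by
    by_contra hr
    set r := g₁ - C ω * g₂ with hrdef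
    have hr1 : r.natDegree < e := by
      have h1 : r.natDegree ≤ e := by
        refine (natDegree_sub_le _ _).trans ?_
        rw [hωg, max_self]
      refine lt_of_le_of_ne h1 ?_
      intro h2
      have h3 : r.coeff e = 0 := by
        rw [hrdef, coeff_sub, coeff_C_mul]
        have h4 : g₁.coeff e = g₁.leadingCoeff := rfl
        have h5 : g₂.coeff e = g₂.leadingCoeff := by rw [h12]; rfl
        rw [h4, h5, hα, sub_self]
      apply hr
      rw [← leadingCoeff_eq_zero]
      show r.coeff r.natDegree = 0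
      rw [h2]
      exact h3
    have hg : g₁ = C ω * g₂ + r := by
      rw [hrdef]
      ring
    obtain ⟨hΔ0, hΔ⟩ := natDegree_comp_sub (G := G) (u := C ω * g₂) (r := r) (by omega) hr
      (by rw [hωg]; exact hr1)
    rw [hωg] at hΔ
    have h1 : r.comp G = (R.comp (C ω * g₂) - C ω * R.comp g₂) +
        (G.comp (C ω * g₂ + r) - G.comp (C ω * g₂)) := by
      rw [← hcω g₂, ← hg, c1, c2, hrdef, sub_comp, mul_comp, C_comp]
      ring
    have h2 : (R.comp (C ω * g₂) - C ω * R.comp g₂).natDegree ≤ R.natDegree * e := by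
      refine (natDegree_sub_le _ _).trans ?_
      rw [max_le_iff]
      constructor
      · rw [natDegree_comp, hωg]
      · refine (natDegree_C_mul_le _ _).trans ?_
        rw [natDegree_comp, h12]
    have h3 : R.natDegree * e < e * (D - 1) + r.natDegree := by
      have h4 : R.natDegree * e < (D - 1) * e := Nat.mul_lt_mul_of_pos_right (by omega) (by omega)
      rw [Nat.mul_comm e (D - 1)]
      omega
    have h4 := congrArg natDegree h1
    rw [natDegree_add_eq_right_of_natDegree_lt (by rw [hΔ]; exact lt_of_le_of_lt h2 h3), hΔ,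
      natDegree_comp, ← hD, hD', Nat.add_sub_cancel, Nat.mul_add, Nat.mul_one] at h4
    have h5 : r.natDegree * D' = e * D' := by omega
    have h6 : r.natDegree = e := Nat.eq_of_mul_eq_mul_right (by omega) h5
    omega
  have hg1 : g₁ = C ω * g₂ := sub_eq_zero.1 hr0
  refine ⟨ω, ?_, hg1⟩
  have h1 : R.comp (C ω * g₂) = C ω * R.comp g₂ := by
    have h2 := hcω g₂
    rw [← hg1, c1, c2] at h2
    have h3 : g₁.comp G - C ω * g₂.comp G = 0 := by
      rw [hg1, mul_comp, C_comp, sub_self]
    rw [h3, hg1] at h2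
    exact (sub_eq_zero.1 h2.symm)
  have h2 := congrArg leadingCoeff h1
  rw [leadingCoeff_comp (by omega), leadingCoeff_mul, leadingCoeff_mul, leadingCoeff_C,
    leadingCoeff_comp (by omega), mul_pow] at h2
  have hRl : R.leadingCoeff ≠ 0 := leadingCoeff_ne_zero.2 hR0
  have h3 : ω ^ R.natDegree = ω := by
    have h4 : R.leadingCoeff * g₂.leadingCoeff ^ R.natDegree * ω ^ R.natDegree =
        R.leadingCoeff * g₂.leadingCoeff ^ R.natDegree * ω := by
      calc R.leadingCoeff * g₂.leadingCoeff ^ R.natDegree * ω ^ R.natDegree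
          = R.leadingCoeff * (ω ^ R.natDegree * g₂.leadingCoeff ^ R.natDegree) := by ring
        _ = R.leadingCoeff * g₂.leadingCoeff ^ R.natDegree * ω := by rw [h2]; ring
    exact mul_left_cancel₀ (mul_ne_zero hRl (pow_ne_zero _ hα2)) h4
  rw [← hRd, pow_add, h3] at hωD
  have h5 : ω * ω ^ s = ω * 1 := by rw [hωD, mul_one]
  exact mul_left_cancel₀ hω0 h5

end Pool.Agent.PrepH
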