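import Pool.Agent.PrepH.Defs
import Pool.Agent.PrepH.Abs

/-!
# Cancellation near an attracting fixed point `0` of a polynomial over `ℤ_p`
-/

namespace Pool.Agent.PrepH

open Polynomial

private theorem In_sum {p : ℕ} [Fact p.Prime] {ι : Type*} {s : Finset ι} {f : ι → ℚ_[p]} {C : ℝ}
    (hC : 0 ≤ C) (h : ∀ i ∈ s, ‖f i‖ ≤ C) : ‖∑ i ∈ s, f i‖ ≤ C :=
  IsUltrametricDist.norm_sum_le_of_forall_le_of_nonneg hC h

private theorem In_pow_sub {p : ℕ} [Fact p.Prime] {x y : ℚ_[p]} {r : ℝ} (hx : ‖x‖ ≤ r)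
    (hy : ‖y‖ ≤ r) (i : ℕ) : ‖x ^ i - y ^ i‖ ≤ ‖x - y‖ * r ^ (i - 1) := by
  have hr : 0 ≤ r := (norm_nonneg _).trans hx
  rw [← (Commute.all _ _).mul_geom_sum₂, norm_mul]
  refine mul_le_mul_of_nonneg_left (In_sum (pow_nonneg hr _) fun j hj => ?_) (norm_nonneg _)
  rw [norm_mul, norm_pow, norm_pow]
  have h1 : r ^ (i - 1) = r ^ j * r ^ (i - 1 - j) := by
    rw [← pow_add]
    congr 1
    have := Finset.mem_range.1 hj
    omega
  rw [h1]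
  exact mul_le_mul (pow_le_pow_left₀ (norm_nonneg _) hx _)
    (pow_le_pow_left₀ (norm_nonneg _) hy _) (pow_nonneg (norm_nonneg _) _) (pow_nonneg hr _)

private theorem In_add_eq {p : ℕ} [Fact p.Prime] {x y : ℚ_[p]} (h : ‖y‖ < ‖x‖) :
    ‖x + y‖ = ‖x‖ := by
  rw [Padic.add_eq_max_of_ne h.ne', max_eq_left h.le]

private theorem In_nat {p : ℕ} [Fact p.Prime] {e : ℕ} (hpe : ¬ p ∣ e) : ‖(e : ℚ_[p])‖ = 1 := by
  rw [Padic.norm_natCast_eq_one_iff]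
  exact (Nat.Prime.coprime_iff_not_dvd Fact.out).2 hpe

private theorem In_pow_sub_eq {p : ℕ} [Fact p.Prime] {t s : ℚ_[p]} {e : ℕ} (he : 1 ≤ e)
    (hpe : ¬ p ∣ e) (h : ‖t - s‖ < ‖s‖) : ‖t ^ e - s ^ e‖ = ‖t - s‖ * ‖s‖ ^ (e - 1) := by
  have hs : 0 < ‖s‖ := (norm_nonneg _).trans_lt h
  have hts : ‖t‖ = ‖s‖ := by
    have h1 := In_add_eq h
    rwa [add_sub_cancel] at h1
  rw [← (Commute.all _ _).mul_geom_sum₂, norm_mul]
  congr 1
  have h1 : ∑ j ∈ Finset.range e, t ^ j * s ^ (e - 1 - j) =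
      (e : ℚ_[p]) * s ^ (e - 1) +
        ∑ j ∈ Finset.range e, (t ^ j - s ^ j) * s ^ (e - 1 - j) := by
    have h2 : ∀ j ∈ Finset.range e, t ^ j * s ^ (e - 1 - j) =
        s ^ (e - 1) + (t ^ j - s ^ j) * s ^ (e - 1 - j) := by
      intro j hj
      have h3 : s ^ (e - 1) = s ^ j * s ^ (e - 1 - j) := by
        rw [← pow_add]
        congr 1
        have := Finset.mem_range.1 hj
        omega
      rw [h3]
      ring
    rw [Finset.sum_congr rfl h2, Finset.sum_add_distrib, Finset.sum_const, Finset.card_range,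
      nsmul_eq_mul]
  have h2 : ‖(e : ℚ_[p]) * s ^ (e - 1)‖ = ‖s‖ ^ (e - 1) := by
    rw [norm_mul, In_nat hpe, one_mul, norm_pow]
  rw [h1, In_add_eq, h2]
  rw [h2]
  have h3 : ‖∑ j ∈ Finset.range e, (t ^ j - s ^ j) * s ^ (e - 1 - j)‖ ≤
      ‖t - s‖ / ‖s‖ * ‖s‖ ^ (e - 1) := by
    refine In_sum (by positivity) fun j hj => ?_
    rcases Nat.eq_zero_or_pos j with rfl | hj0
    · rw [pow_zero, pow_zero, sub_self, zero_mul, norm_zero]
      positivity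
    · rw [norm_mul, norm_pow]
      have h4 := In_pow_sub (x := t) (y := s) hts.le le_rfl j
      refine (mul_le_mul_of_nonneg_right h4 (pow_nonneg (norm_nonneg _) _)).trans (le_of_eq ?_)
      have h5 : ‖s‖ ^ (e - 1) = ‖s‖ * (‖s‖ ^ (j - 1) * ‖s‖ ^ (e - 1 - j)) := by
        rw [← pow_add, ← pow_succ']
        congr 1
        have := Finset.mem_range.1 hj
        omega
      rw [h5]
      field_simp
  refine h3.trans_lt ?_
  exact mul_lt_of_lt_one_left (pow_pos hs _) ((div_lt_one hs).2 h)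

private theorem In_eval {p : ℕ} [Fact p.Prime] {g : ℚ_[p][X]} {e : ℕ}
    (hlow : ∀ i, i < e → g.coeff i = 0) (x : ℚ_[p]) :
    g.eval x = g.coeff e * x ^ e +
      ∑ i ∈ (Finset.range (g.natDegree + 1)).filter (fun i => e < i), g.coeff i * x ^ i := by
  rw [Polynomial.eval_eq_sum_range]
  rw [← Finset.sum_filter_add_sum_filter_not (Finset.range (g.natDegree + 1)) (fun i => e < i),
    add_comm]
  congr 1
  by_cases h : e ≤ g.natDegree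
  · rw [Finset.sum_eq_single e]
    · intro i hi hie
      rw [Finset.mem_filter] at hi
      have h1 : i < e := by
        have := hi.2
        omega
      rw [hlow i h1, zero_mul]
    · intro h1
      exfalso
      apply h1
      rw [Finset.mem_filter, Finset.mem_range]
      exact ⟨by omega, by omega⟩
  · have h1 : g.coeff e = 0 := Polynomial.coeff_eq_zero_of_natDegree_lt (by omega)
    rw [h1, zero_mul]
    refine Finset.sum_eq_zero fun i hi => ?_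
    rw [Finset.mem_filter, Finset.mem_range] at hi
    rw [hlow i (by omega), zero_mul]

private theorem In_rest {p : ℕ} [Fact p.Prime] {g : ℚ_[p][X]} (hc : ∀ i, ‖g.coeff i‖ ≤ 1)
    {e : ℕ} (hlow : ∀ i, i < e → g.coeff i = 0) {x : ℚ_[p]} (hx : ‖x‖ ≤ 1) :
    ‖g.eval x - g.coeff e * x ^ e‖ ≤ ‖x‖ ^ (e + 1) := by
  rw [In_eval hlow x, add_sub_cancel_left]
  refine In_sum (pow_nonneg (norm_nonneg _) _) fun i hi => ?_
  rw [Finset.mem_filter] at hi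
  rw [norm_mul, norm_pow]
  calc ‖g.coeff i‖ * ‖x‖ ^ i ≤ 1 * ‖x‖ ^ i :=
        mul_le_mul_of_nonneg_right (hc i) (pow_nonneg (norm_nonneg _) _)
    _ = ‖x‖ ^ i := one_mul _
    _ ≤ ‖x‖ ^ (e + 1) := pow_le_pow_of_le_one (norm_nonneg _) hx hi.2

private theorem In_norm {p : ℕ} [Fact p.Prime] {g : ℚ_[p][X]} (hc : ∀ i, ‖g.coeff i‖ ≤ 1)
    {e : ℕ} (hlow : ∀ i, i < e → g.coeff i = 0) {x : ℚ_[p]} (hx0 : x ≠ 0)
    (hx : ‖x‖ < ‖g.coeff e‖) : ‖g.eval x‖ = ‖g.coeff e‖ * ‖x‖ ^ e := by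
  have h0 : 0 < ‖x‖ := norm_pos_iff.2 hx0
  have h1 := In_rest hc hlow (hx.le.trans (hc e))
  have h2 : ‖g.coeff e * x ^ e‖ = ‖g.coeff e‖ * ‖x‖ ^ e := by rw [norm_mul, norm_pow]
  have h3 : ‖g.eval x - g.coeff e * x ^ e‖ < ‖g.coeff e * x ^ e‖ := by
    refine h1.trans_lt ?_
    rw [h2, pow_succ, mul_comm]
    exact mul_lt_mul_of_pos_right hx (pow_pos h0 _)
  have h4 := In_add_eq h3
  rwa [add_sub_cancel, h2] at h4

/-- Let `g = c_e X^e + c_(e+1) X^(e+1) + …` with `e ≥ 1`, `c_e ≠ 0`, integral coefficients and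
`p ∤ e`. For points of norm `< ‖c_e‖` a common image under an iterate of `g` gives a common image
under the `p`-th iterate.

**PROOF.** For `‖t‖ < ‖c_e‖ ≤ 1`: `‖g t - c_e t^e‖ ≤ ‖t‖^(e+1) < ‖c_e‖ ‖t‖^e`, so
`‖g t‖ = ‖c_e‖ ‖t‖^e ≤ ‖t‖`; in particular `g t = 0` only for `t = 0`, and if one of `t, s` is `0`,
so is the other. Otherwise apply `abs_cancel` to `U = {t | t ≠ 0 ∧ ‖t‖ < ‖c_e‖}`.
`hnorm` is clear. `hratio`: `g t = c_e t^e + r(t)`, `‖r(t)‖ ≤ ‖t‖^(e+1)`, `‖g s‖ = ‖c_e‖ ‖s‖^e`,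
`g t / g s - (t/s)^e = (r(t) - (t/s)^e r(s)) / g s` has norm `≤ ‖t‖/‖c_e‖ < 1`.
`hinj`: `g t - g s = (t - s) Σ_{i ≥ e} c_i S_i`, `S_i = Σ_{j<i} t^j s^(i-1-j)`; since `‖t - s‖ < ‖s‖`
and `p ∤ e`, `‖S_e‖ = ‖s‖^(e-1)`, and `‖c_i S_i‖ ≤ ‖s‖^e < ‖c_e‖ ‖s‖^(e-1)` for `i > e`. -/
theorem cancel_in {p : ℕ} [Fact p.Prime] {g : ℚ_[p][X]} (hc : ∀ i, ‖g.coeff i‖ ≤ 1) {e : ℕ}
    (he : 1 ≤ e) (hpe : ¬ p ∣ e) (hlow : ∀ i, i < e → g.coeff i = 0) (hce : g.coeff e ≠ 0)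
    {N : ℕ} {t s : ℚ_[p]} (ht : ‖t‖ < ‖g.coeff e‖) (hs : ‖s‖ < ‖g.coeff e‖)
    (h : (ev g)^[N] t = (ev g)^[N] s) : (ev g)^[p] t = (ev g)^[p] s := by
  have hp : p.Prime := Fact.out
  have he0 : e ≠ 0 := by omega
  have hz : ev g 0 = 0 := by
    change g.eval 0 = 0
    rw [In_eval hlow 0, zero_pow he0, mul_zero, zero_add]
    refine Finset.sum_eq_zero fun i hi => ?_
    rw [Finset.mem_filter] at hi
    rw [zero_pow (by omega), mul_zero]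
  have hz' : ∀ j : ℕ, (ev g)^[j] 0 = 0 := fun j => Function.iterate_fixed hz j
  have hcpos : 0 < ‖g.coeff e‖ := norm_pos_iff.2 hce
  -- the set of nonzero points
  have hmap : ∀ x ∈ {x : ℚ_[p] | x ≠ 0 ∧ ‖x‖ < ‖g.coeff e‖},
      ev g x ∈ {x : ℚ_[p] | x ≠ 0 ∧ ‖x‖ < ‖g.coeff e‖} := by
    rintro x ⟨hx0, hx⟩
    have h0 : 0 < ‖x‖ := norm_pos_iff.2 hx0
    have h1 : ‖ev g x‖ = ‖g.coeff e‖ * ‖x‖ ^ e := In_norm hc hlow hx0 hx
    refine ⟨?_, ?_⟩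
    · rw [← norm_pos_iff, h1]
      exact mul_pos hcpos (pow_pos h0 _)
    · rw [h1]
      have h2 : ‖x‖ ^ e < 1 := pow_lt_one₀ h0.le (hx.trans_le (hc e)) he0
      exact mul_lt_of_lt_one_right hcpos h2
  have hit : ∀ x ∈ {x : ℚ_[p] | x ≠ 0 ∧ ‖x‖ < ‖g.coeff e‖}, ∀ j : ℕ,
      (ev g)^[j] x ∈ {x : ℚ_[p] | x ≠ 0 ∧ ‖x‖ < ‖g.coeff e‖} := by
    intro x hx j
    induction j with
    | zero => exact hx
    | succ j ih =>
      rw [Function.iterate_succ_apply']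
      exact hmap _ ih
  by_cases ht0 : t = 0
  · by_cases hs0 : s = 0
    · rw [ht0, hs0]
    · exfalso
      rw [ht0, hz'] at h
      exact (hit s ⟨hs0, hs⟩ N).1 h.symm
  by_cases hs0 : s = 0
  · exfalso
    rw [hs0, hz'] at h
    exact (hit t ⟨ht0, ht⟩ N).1 h
  refine abs_cancel (U := {x : ℚ_[p] | x ≠ 0 ∧ ‖x‖ < ‖g.coeff e‖}) he (fun x hx => hx.1) hmap
    ?_ ?_ ?_ (N := N) ⟨ht0, ht⟩ ⟨hs0, hs⟩ h
  · rintro x ⟨hx0, hx⟩ y ⟨hy0, hy⟩ hxy
    have h1 : ‖ev g x‖ = ‖g.coeff e‖ * ‖x‖ ^ e := In_norm hc hlow hx0 hx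
    have h2 : ‖ev g y‖ = ‖g.coeff e‖ * ‖y‖ ^ e := In_norm hc hlow hy0 hy
    rw [h1, h2] at hxy
    exact (pow_left_inj₀ (norm_nonneg _) (norm_nonneg _) he0).1
      (mul_left_cancel₀ hcpos.ne' hxy)
  · rintro x ⟨hx0, hx⟩ y ⟨hy0, hy⟩ hxy
    have h0 : 0 < ‖y‖ := norm_pos_iff.2 hy0
    have hx1 : ‖x‖ ≤ 1 := hx.le.trans (hc e)
    have hy1 : ‖y‖ ≤ 1 := hy.le.trans (hc e)
    have h2 : ‖ev g y‖ = ‖g.coeff e‖ * ‖y‖ ^ e := In_norm hc hlow hy0 hy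
    have h3 : 0 < ‖ev g y‖ := by
      rw [h2]
      exact mul_pos hcpos (pow_pos h0 _)
    have h3' : ev g y ≠ 0 := norm_pos_iff.1 h3
    have h4 : ev g x / ev g y - (x / y) ^ e =
        ((g.eval x - g.coeff e * x ^ e) - (x / y) ^ e * (g.eval y - g.coeff e * y ^ e)) /
          ev g y := by
      change g.eval x / g.eval y - (x / y) ^ e = _ / g.eval y
      have h5 : g.eval y ≠ 0 := h3'
      have h6 : (x / y) ^ e * y ^ e = x ^ e := by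
        rw [div_pow, div_mul_cancel₀ _ (pow_ne_zero e hy0)]
      rw [eq_div_iff h5, sub_mul, div_mul_cancel₀ _ h5]
      linear_combination (-g.coeff e) * h6
    rw [h4, norm_div, div_lt_one h3, h2]
    have h5 : ‖(x / y) ^ e * (g.eval y - g.coeff e * y ^ e)‖ ≤ ‖y‖ ^ (e + 1) := by
      rw [norm_mul, norm_pow, norm_div, hxy, div_self h0.ne', one_pow, one_mul]
      exact In_rest hc hlow hy1
    have h6 : ‖g.eval x - g.coeff e * x ^ e‖ ≤ ‖y‖ ^ (e + 1) := by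
      rw [← hxy]
      exact In_rest hc hlow hx1
    have h7 : ‖(g.eval x - g.coeff e * x ^ e) - (x / y) ^ e * (g.eval y - g.coeff e * y ^ e)‖ ≤
        ‖y‖ ^ (e + 1) := by
      rw [sub_eq_add_neg]
      refine (Padic.nonarchimedean _ _).trans (max_le h6 ?_)
      rw [norm_neg]
      exact h5
    refine h7.trans_lt ?_
    rw [pow_succ, mul_comm]
    exact mul_lt_mul_of_pos_right hy (pow_pos h0 _)
  · rintro x ⟨hx0, hx⟩ y ⟨hy0, hy⟩ hxy hg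
    by_contra hne
    have h0 : 0 < ‖y‖ := norm_pos_iff.2 hy0
    have hd : 0 < ‖x - y‖ := norm_pos_iff.2 (sub_ne_zero.2 hne)
    have hxy' : ‖x‖ = ‖y‖ := by
      have h1 := In_add_eq hxy
      rwa [add_sub_cancel] at h1
    have hy1 : ‖y‖ ≤ 1 := hy.le.trans (hc e)
    have h1 := In_eval hlow x
    have h2 := In_eval hlow y
    have h3 : g.eval x = g.eval y := hg
    have h4 : g.coeff e * (x ^ e - y ^ e) =
        -∑ i ∈ (Finset.range (g.natDegree + 1)).filter (fun i => e < i),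
          g.coeff i * (x ^ i - y ^ i) := by
      have h5 : ∑ i ∈ (Finset.range (g.natDegree + 1)).filter (fun i => e < i),
          g.coeff i * (x ^ i - y ^ i) =
          ∑ i ∈ (Finset.range (g.natDegree + 1)).filter (fun i => e < i), g.coeff i * x ^ i -
          ∑ i ∈ (Finset.range (g.natDegree + 1)).filter (fun i => e < i), g.coeff i * y ^ i := by
        rw [← Finset.sum_sub_distrib]
        exact Finset.sum_congr rfl fun i _ => by ring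
      rw [h5]
      linear_combination h1.symm.trans (h3.trans h2)
    have h5 : ‖g.coeff e * (x ^ e - y ^ e)‖ = ‖g.coeff e‖ * (‖x - y‖ * ‖y‖ ^ (e - 1)) := by
      rw [norm_mul, In_pow_sub_eq he hpe hxy]
    have h6 : ‖g.coeff e * (x ^ e - y ^ e)‖ ≤ ‖x - y‖ * ‖y‖ ^ e := by
      rw [h4, norm_neg]
      refine In_sum (by positivity) fun i hi => ?_
      rw [Finset.mem_filter] at hi
      rw [norm_mul]
      calc ‖g.coeff i‖ * ‖x ^ i - y ^ i‖ ≤ 1 * (‖x - y‖ * ‖y‖ ^ (i - 1)) :=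
            mul_le_mul (hc i) (In_pow_sub hxy'.le le_rfl i) (norm_nonneg _) zero_le_one
        _ = ‖x - y‖ * ‖y‖ ^ (i - 1) := one_mul _
        _ ≤ ‖x - y‖ * ‖y‖ ^ e := by
            refine mul_le_mul_of_nonneg_left ?_ hd.le
            exact pow_le_pow_of_le_one h0.le hy1 (by omega)
    rw [h5] at h6
    have h7 : ‖y‖ ^ e = ‖y‖ * ‖y‖ ^ (e - 1) := by
      rw [← pow_succ']
      congr 1
      omega
    rw [h7] at h6
    have h8 : 0 < ‖x - y‖ * ‖y‖ ^ (e - 1) := mul_pos hd (pow_pos h0 _)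
    have h9 : ‖g.coeff e‖ * (‖x - y‖ * ‖y‖ ^ (e - 1)) ≤ ‖y‖ * (‖x - y‖ * ‖y‖ ^ (e - 1)) := by
      calc ‖g.coeff e‖ * (‖x - y‖ * ‖y‖ ^ (e - 1)) ≤ ‖x - y‖ * (‖y‖ * ‖y‖ ^ (e - 1)) := h6
        _ = ‖y‖ * (‖x - y‖ * ‖y‖ ^ (e - 1)) := by ring
    exact absurd (le_of_mul_le_mul_right h9 h8) (not_le.2 hy)

end Pool.Agent.PrepH
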