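import Pool.Agent.PrepH.Rel

/-!
# Finitely many points at infinity; affine points
-/

namespace Pool.Agent.PrepH

open Polynomial

variable {F : Type*} [Field F] {n : ℕ}

private theorem Inf_mval_some (H : MvPolynomial (Fin n) F) (x : Fin n → F) (P : Fin n → P1 F)
    (hP : ∀ i, P i = some (x i)) : mval H P = MvPolynomial.eval x H := by
  classical
  rw [MvPolynomial.eval_eq', mval, Finset.sum_filter]
  refine Finset.sum_congr rfl fun m _ => ?_
  rw [if_pos]
  · congr 1
    refine Finset.prod_congr rfl fun i _ => ?_
    rw [hP i]
    rfl
  · intro i h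
    rw [hP i] at h
    exact absurd h (by simp)

/-- **PROOF.** `MvPolynomial.eval_eq'`. -/
theorem mval_some (H : MvPolynomial (Fin n) F) (x : Fin n → F) :
    mval H (fun i => some (x i)) = MvPolynomial.eval x H := by
  exact Inf_mval_some H x _ fun i => rfl

private theorem Inf_cval_zero (a : P1 F) : cval a 0 = 1 := by
  cases a with
  | none => rfl
  | some x => exact pow_zero x

/-- the polynomial of the finite coordinate at a point at infinity -/
private noncomputable def Inf_q (p : MvPolynomial (Fin 2) F) : F[X] :=
  ∑ m ∈ p.support, if m 0 = p.degreeOf 0 then C (p.coeff m) * X ^ (m 1) else 0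

private theorem Inf_q_ne {p : MvPolynomial (Fin 2) F} (hp : p ≠ 0) : Inf_q p ≠ 0 := by
  classical
  have hne : p.support.Nonempty := by
    rwa [Finset.nonempty_iff_ne_empty, Ne, MvPolynomial.support_eq_empty]
  obtain ⟨m, hm, hm2⟩ := Finset.exists_mem_eq_sup p.support hne (fun m => m 0)
  rw [← MvPolynomial.degreeOf_eq_sup] at hm2
  intro h0
  have h1 : (Inf_q p).coeff (m 1) = p.coeff m := by
    unfold Inf_q
    rw [Polynomial.finsetSum_coeff, Finset.sum_eq_single m]
    · rw [if_pos hm2.symm, Polynomial.coeff_C_mul, Polynomial.coeff_X_pow, if_pos rfl, mul_one]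
    · intro m' _ hne'
      by_cases h2 : m' 0 = p.degreeOf 0
      · rw [if_pos h2, Polynomial.coeff_C_mul, Polynomial.coeff_X_pow, if_neg, mul_zero]
        intro h3
        apply hne'
        ext a
        fin_cases a
        · exact h2.trans hm2
        · exact h3.symm
      · rw [if_neg h2, Polynomial.coeff_zero]
    · intro h
      exact absurd hm h
  rw [h0, Polynomial.coeff_zero] at h1
  exact (MvPolynomial.mem_support_iff.1 hm) h1.symm

private theorem Inf_mval {i j : Fin n} (hij : i ≠ j) (p : MvPolynomial (Fin 2) F)
    (P : Fin n → P1 F) (hi : P i = none) {y : F} (hj : P j = some y) :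
    mval (MvPolynomial.rename ![i, j] p) P = (Inf_q p).eval y := by
  classical
  obtain ⟨e, he⟩ : ∃ e : Fin 2 → Fin n, e = ![i, j] := ⟨_, rfl⟩
  have e0 : e 0 = i := by rw [he]; rfl
  have e1 : e 1 = j := by rw [he]; rfl
  have hinj : Function.Injective e := by
    intro a b hab
    fin_cases a <;> fin_cases b
    · rfl
    · exact absurd (e0.symm.trans (hab.trans e1)) hij
    · exact absurd (e0.symm.trans (hab.symm.trans e1)) hij
    · rfl
  rw [← he]
  have hrange : ∀ k : Fin n, k ≠ i → k ≠ j → k ∉ Set.range e := by
    rintro k hki hkj ⟨a, rfl⟩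
    fin_cases a
    · exact hki e0
    · exact hkj e1
  have hdeg : ∀ k : Fin n, k ≠ i → k ≠ j → (MvPolynomial.rename e p).degreeOf k = 0 := by
    intro k hki hkj
    rw [MvPolynomial.degreeOf_eq_sup, MvPolynomial.support_rename_of_injective hinj]
    rw [← Nat.le_zero]
    refine Finset.sup_le fun m hm => ?_
    obtain ⟨m', _, rfl⟩ := Finset.mem_image.1 hm
    rw [Finsupp.mapDomain_of_notMem_range _ _ (hrange k hki hkj)]
  have hdi : (MvPolynomial.rename e p).degreeOf i = p.degreeOf 0 := by
    rw [← e0, MvPolynomial.degreeOf_rename_of_injective hinj]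
  unfold mval Inf_q
  rw [Finset.sum_filter, MvPolynomial.support_rename_of_injective hinj,
    Finset.sum_image (fun a _ b _ h => Finsupp.mapDomain_injective hinj h),
    Polynomial.eval_finsetSum]
  refine Finset.sum_congr rfl fun m _ => ?_
  have hm0 : (Finsupp.mapDomain e m) i = m 0 := by
    rw [← e0, Finsupp.mapDomain_apply hinj]
  have hm1 : (Finsupp.mapDomain e m) j = m 1 := by
    rw [← e1, Finsupp.mapDomain_apply hinj]
  have hcond : (∀ k, P k = none → (Finsupp.mapDomain e m) k =
      (MvPolynomial.rename e p).degreeOf k) ↔ m 0 = p.degreeOf 0 := by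
    constructor
    · intro h
      have := h i hi
      rwa [hm0, hdi] at this
    · intro h k hk
      by_cases hki : k = i
      · subst hki
        rw [hm0, hdi, h]
      · by_cases hkj : k = j
        · subst hkj
          rw [hj] at hk
          exact absurd hk (by simp)
        · rw [hdeg k hki hkj, Finsupp.mapDomain_of_notMem_range _ _ (hrange k hki hkj)]
  have hprod : ∏ k, cval (P k) ((Finsupp.mapDomain e m) k) = y ^ (m 1) := by
    rw [Finset.prod_eq_single j]
    · rw [hj, hm1]
      rfl
    · intro k _ hkj
      by_cases hki : k = i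
      · rw [hki, hi]
        rfl
      · rw [Finsupp.mapDomain_of_notMem_range _ _ (hrange k hki hkj), Inf_cval_zero]
    · intro h
      exact absurd (Finset.mem_univ _) h
  rw [MvPolynomial.coeff_rename_mapDomain e hinj, hprod]
  by_cases h : m 0 = p.degreeOf 0
  · rw [if_pos (hcond.2 h), if_pos h, Polynomial.eval_mul, Polynomial.eval_C,
      Polynomial.eval_pow, Polynomial.eval_X]
  · rw [if_neg (fun h' => h (hcond.1 h')), if_neg h, Polynomial.eval_zero]

/-- **PROOF.** It is enough to fix `i` and to look at the `P` with `P i = none`; for `j ≠ i` we show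
that `P j` is `none` or one of finitely many finite points (then the set is contained in a product of
finite sets, `Set.Finite.pi`). By `exists_rel` there is `p ≠ 0` with
`H = rename ![i, j] p ∈ I`. If `P i = none`, `P j = some y`, then
`0 = mval H P = Σ_m p.coeff m * y ^ (m 1)`, the sum over the `m` in the support of `p` with
`m 0 = p.degreeOf 0` (the other variables do not occur in `H`); this is the value at `y` of a
polynomial in one variable which is not zero, since different `m` with the same
`m 0` have different `m 1`, and there is at least one such `m`. -/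
theorem inf_finite {I : Ideal (MvPolynomial (Fin n) F)} (hI : IsCurve I) :
    {P : Fin n → P1 F | P ∈ zeroSet I ∧ ∃ i, P i = none}.Finite := by
  classical
  choose p hp hpI using fun i j : Fin n => exists_rel hI i j
  have key : ∀ i : Fin n, {P : Fin n → P1 F | P ∈ zeroSet I ∧ P i = none}.Finite := by
    intro i
    have hfin : (Set.pi Set.univ fun j : Fin n =>
        if j = i then ({none} : Set (P1 F)) else
          insert none (some '' {y : F | (Inf_q (p i j)).IsRoot y})).Finite := by
      apply Set.Finite.pi
      intro j
      by_cases hj : j = i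
      · rw [if_pos hj]
        exact Set.finite_singleton _
      · rw [if_neg hj]
        exact ((Polynomial.finite_setOfPred_isRoot (Inf_q_ne (hp i j))).image _).insert _
    refine hfin.subset ?_
    rintro P ⟨hP, hPi⟩ j _
    by_cases hj : j = i
    · show P j ∈ if j = i then ({none} : Set (P1 F)) else
          insert none (some '' {y : F | (Inf_q (p i j)).IsRoot y})
      rw [if_pos hj, hj, hPi]
      exact Set.mem_singleton _
    · show P j ∈ if j = i then ({none} : Set (P1 F)) else
          insert none (some '' {y : F | (Inf_q (p i j)).IsRoot y})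
      rw [if_neg hj]
      rcases hPj : P j with _ | y
      · exact Set.mem_insert _ _
      · refine Set.mem_insert_of_mem _ ⟨y, ?_, rfl⟩
        have h1 := hP _ (hpI i j)
        rw [Inf_mval (Ne.symm hj) (p i j) P hPi hPj] at h1
        exact h1
  refine (Set.finite_iUnion key).subset ?_
  rintro P ⟨hP, i, hi⟩
  exact Set.mem_iUnion.2 ⟨i, hP, hi⟩

end Pool.Agent.PrepH
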