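import Mathlib

/-!
# Lagrange interpolation: a polynomial with values in `K` at infinitely many points of `K`
-/

namespace Pool.Agent.PrepH

open Polynomial

/-- **PROOF.** Lagrange interpolation (`Lagrange.interpolate`) at `natDegree g + 1` points of `S`
over `K` gives `g₀`; `g₀.map (algebraMap K F)` and `g` have degree `≤ natDegree g` and agree at these
points. -/
theorem descend {K F : Type*} [Field K] [Field F] [Algebra K F] (g : F[X]) {S : Set K}
    (hS : S.Infinite)
    (h : ∀ x ∈ S, ∃ y : K, g.eval (algebraMap K F x) = algebraMap K F y) :
    ∃ g₀ : K[X], g₀.map (algebraMap K F) = g := by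
  classical
  obtain ⟨s, hsS, hcard⟩ := hS.exists_subset_card_eq (g.natDegree + 1)
  choose! y hy using h
  refine ⟨Lagrange.interpolate s id y, ?_⟩
  have hinj : Function.Injective (algebraMap K F) := (algebraMap K F).injective
  refine Polynomial.eq_of_degrees_lt_of_eval_finset_eq (s.image (algebraMap K F)) ?_ ?_ ?_
  · rw [Finset.card_image_of_injective _ hinj]
    refine lt_of_le_of_lt (degree_map_le) ?_
    exact Lagrange.degree_interpolate_lt _ (Function.injective_id.injOn)
  · rw [Finset.card_image_of_injective _ hinj, hcard]
    exact lt_of_le_of_lt degree_le_natDegree (by exact_mod_cast Nat.lt_succ_self _)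
  · intro z hz
    obtain ⟨x, hx, rfl⟩ := Finset.mem_image.1 hz
    rw [eval_map_algebraMap, aeval_algebraMap_apply, coe_aeval_eq_eval]
    have := Lagrange.eval_interpolate_at_node y (Function.injective_id.injOn) hx (v := id)
    simp only [id] at this
    rw [show ((Lagrange.interpolate s id) y).eval x = y x from this, hy x (hsS hx)]

end Pool.Agent.PrepH
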