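import Pool.Agent.PrepH.Defs
import Pool.Agent.PrepH.Abs

/-!
# Cancellation outside the unit disc of `ℚ_p`
-/

namespace Pool.Agent.PrepH

open Polynomial

private theorem out_add {p : ℕ} [Fact p.Prime] {a b : ℚ_[p]} (h : ‖b‖ < ‖a‖) :
    ‖a + b‖ = ‖a‖ := by
  rw [Padic.add_eq_max_of_ne h.ne', max_eq_left h.le]

private theorem out_sum {p : ℕ} [Fact p.Prime] {ι : Type*} (s : Finset ι) (g : ι → ℚ_[p]) {B : ℝ}
    (hB : 0 ≤ B) (h : ∀ i ∈ s, ‖g i‖ ≤ B) : ‖∑ i ∈ s, g i‖ ≤ B := by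
  classical
  induction s using Finset.induction_on with
  | empty =>
    rw [Finset.sum_empty, norm_zero]
    exact hB
  | insert a s ha ih =>
    rw [Finset.sum_insert ha]
    refine (Padic.nonarchimedean _ _).trans (max_le (h a (Finset.mem_insert_self a s)) ?_)
    exact ih fun i hi => h i (Finset.mem_insert_of_mem hi)

private theorem out_split {p : ℕ} [Fact p.Prime] (f : ℚ_[p][X]) (x : ℚ_[p]) :
    ev f x = f.leadingCoeff * x ^ f.natDegree +
      ∑ i ∈ Finset.range f.natDegree, f.coeff i * x ^ i := by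
  unfold ev
  rw [Polynomial.eval_eq_sum_range, Finset.sum_range_succ, add_comm]
  rfl

private theorem out_rest {p : ℕ} [Fact p.Prime] {f : ℚ_[p][X]} (hc : ∀ i, ‖f.coeff i‖ ≤ 1)
    {x : ℚ_[p]} (hx : 1 < ‖x‖) :
    ‖∑ i ∈ Finset.range f.natDegree, f.coeff i * x ^ i‖ ≤ ‖x‖ ^ (f.natDegree - 1) := by
  refine out_sum _ _ (by positivity) ?_
  intro i hi
  have hi' := Finset.mem_range.1 hi
  rw [norm_mul, norm_pow]
  have h1 : ‖x‖ ^ i ≤ ‖x‖ ^ (f.natDegree - 1) := pow_le_pow_right₀ hx.le (by omega)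
  have h2 : 0 ≤ ‖x‖ ^ i := by positivity
  calc ‖f.coeff i‖ * ‖x‖ ^ i ≤ 1 * ‖x‖ ^ i := mul_le_mul_of_nonneg_right (hc i) h2
    _ ≤ _ := by rw [one_mul]; exact h1

/-- **PROOF.** `‖f x‖ = ‖x‖ ^ D`, because the leading term dominates (`‖a_i x^i‖ ≤ ‖x‖^(D-1)` for
`i < D`). -/
theorem norm_out {p : ℕ} [Fact p.Prime] {f : ℚ_[p][X]} (hc : ∀ i, ‖f.coeff i‖ ≤ 1)
    (hl : ‖f.leadingCoeff‖ = 1) (hD : 1 ≤ f.natDegree) {x : ℚ_[p]} (hx : 1 < ‖x‖) :
    ‖ev f x‖ = ‖x‖ ^ f.natDegree := by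
  have h1 := out_rest hc hx
  have h2 : ‖x‖ ^ (f.natDegree - 1) < ‖x‖ ^ f.natDegree := pow_lt_pow_right₀ hx (by omega)
  have h3 : ‖f.leadingCoeff * x ^ f.natDegree‖ = ‖x‖ ^ f.natDegree := by
    rw [norm_mul, hl, one_mul, norm_pow]
  rw [out_split, out_add, h3]
  rw [h3]
  exact h1.trans_lt h2

/-- **PROOF.** Apply `abs_cancel` to `U = {x | 1 < ‖x‖}`, `G = ev f`, `e = D = natDegree`.
`hratio`: write `f x = a x^D + r(x)`, `‖r(x)‖ ≤ ‖x‖^(D-1)`, `‖f y‖ = ‖y‖^D = ‖x‖^D`, so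
`f x / f y - (x/y)^D = (r(x) - (x/y)^D r(y)) / f y` has norm `≤ ‖x‖⁻¹ < 1`.
`hinj`: `f x - f y = Σ a_i (x^i - y^i) = (x - y) Σ a_i S_i`, `S_i = Σ_{j<i} x^j y^(i-1-j)`,
`‖S_i‖ ≤ ‖y‖^(i-1)`; as `‖x - y‖ < ‖y‖`, every `x^j y^(D-1-j)` differs from `y^(D-1)` by less than
`‖y‖^(D-1)`, so `‖S_D - D y^(D-1)‖ < ‖y‖^(D-1)` and, because `p ∤ D` (`1 ≤ D < p`),
`‖S_D‖ = ‖y‖^(D-1)`; the other terms are smaller, so the second factor is not zero. -/
theorem cancel_out {p : ℕ} [Fact p.Prime] {f : ℚ_[p][X]} (hc : ∀ i, ‖f.coeff i‖ ≤ 1)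
    (hl : ‖f.leadingCoeff‖ = 1) (hD : 1 ≤ f.natDegree) (hp : f.natDegree < p)
    {N : ℕ} {x y : ℚ_[p]} (hx : 1 < ‖x‖) (hy : 1 < ‖y‖) (h : (ev f)^[N] x = (ev f)^[N] y) :
    (ev f)^[p] x = (ev f)^[p] y := by
  have hpp : p.Prime := Fact.out
  refine abs_cancel (U := {x : ℚ_[p] | 1 < ‖x‖}) (G := ev f) (e := f.natDegree) hD
    ?_ ?_ ?_ ?_ ?_ hx hy h
  · intro t ht h0
    have ht' : 1 < ‖t‖ := ht
    rw [h0, norm_zero] at ht'
    linarith
  · intro t ht
    change 1 < ‖ev f t‖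
    rw [norm_out hc hl hD ht]
    exact one_lt_pow₀ ht (by omega)
  · intro t ht s hs hts
    rw [norm_out hc hl hD ht, norm_out hc hl hD hs] at hts
    exact (pow_left_inj₀ (norm_nonneg _) (norm_nonneg _) (by omega)).1 hts
  · intro t ht s hs hts
    have ht' : 1 < ‖t‖ := ht
    have hs' : 1 < ‖s‖ := hs
    have hs0 : s ≠ 0 := by
      rintro rfl
      rw [norm_zero] at hs'
      linarith
    have hfs : ‖ev f s‖ = ‖s‖ ^ f.natDegree := norm_out hc hl hD hs
    have hfs0 : ev f s ≠ 0 := by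
      intro h0
      rw [h0, norm_zero] at hfs
      have : 0 < ‖s‖ ^ f.natDegree := by positivity
      linarith
    have h1 := out_rest hc ht'
    have h2 := out_rest hc hs'
    have h3 : ev f t / ev f s - (t / s) ^ f.natDegree =
        ((∑ i ∈ Finset.range f.natDegree, f.coeff i * t ^ i) +
          -((t / s) ^ f.natDegree * ∑ i ∈ Finset.range f.natDegree, f.coeff i * s ^ i)) /
          ev f s := by
      rw [eq_div_iff hfs0, sub_mul, div_mul_cancel₀ _ hfs0]
      rw [out_split f t, out_split f s, div_pow]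
      have hsD : s ^ f.natDegree ≠ 0 := pow_ne_zero _ hs0
      field_simp
      ring
    rw [h3, norm_div, hfs, div_lt_one (by positivity)]
    refine (Padic.nonarchimedean _ _).trans_lt ?_
    have h4 : ‖s‖ ^ (f.natDegree - 1) < ‖s‖ ^ f.natDegree := pow_lt_pow_right₀ hs' (by omega)
    refine max_lt ?_ ?_
    · rw [hts] at h1
      exact h1.trans_lt h4
    · rw [norm_neg, norm_mul, norm_pow, norm_div, hts, div_self (by linarith), one_pow, one_mul]
      exact h2.trans_lt h4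
  · intro t ht s hs hts hft
    have ht' : 1 < ‖t‖ := ht
    have hs' : 1 < ‖s‖ := hs
    obtain ⟨R, hR⟩ : ∃ R, R = ‖s‖ := ⟨_, rfl⟩
    have hR1 : 1 < R := by rw [hR]; exact hs'
    have hR0 : 0 < R := by linarith
    have htR : ‖t‖ = R := by
      have h1 : t = s + (t - s) := by ring
      rw [h1, out_add hts, hR]
    by_contra hne
    have hsub : t - s ≠ 0 := sub_ne_zero.2 hne
    -- the sums
    have hSn : ∀ i, ‖∑ j ∈ Finset.range i, t ^ j * s ^ (i - 1 - j)‖ * R ≤ R ^ i := by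
      intro i
      have h1 : ‖∑ j ∈ Finset.range i, t ^ j * s ^ (i - 1 - j)‖ ≤ R ^ i / R := by
        refine out_sum _ _ (by positivity) ?_
        intro j hj
        have hj' := Finset.mem_range.1 hj
        rw [norm_mul, norm_pow, norm_pow, htR, ← hR, ← pow_add, le_div_iff₀ hR0, ← pow_succ]
        exact le_of_eq (by congr 1; omega)
      rw [le_div_iff₀ hR0] at h1
      exact h1
    have hpow : ∀ i, t ^ i - s ^ i =
        (∑ j ∈ Finset.range i, t ^ j * s ^ (i - 1 - j)) * (t - s) := by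
      intro i
      exact (geom_sum₂_mul t s i).symm
    have hdiff : ∀ i, ‖t ^ i - s ^ i‖ ≤ ‖t - s‖ / R * R ^ i := by
      intro i
      rw [hpow i, norm_mul]
      have h1 := hSn i
      have h2 : ‖∑ j ∈ Finset.range i, t ^ j * s ^ (i - 1 - j)‖ ≤ R ^ i / R := by
        rw [le_div_iff₀ hR0]
        exact h1
      have h3 := mul_le_mul_of_nonneg_right h2 (norm_nonneg (t - s))
      have h4 : R ^ i / R * ‖t - s‖ = ‖t - s‖ / R * R ^ i := by ring
      rw [h4] at h3
      exact h3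
    obtain ⟨D, hDD⟩ : ∃ D, D = f.natDegree := ⟨_, rfl⟩
    rw [← hDD] at hD hp
    have hDpow : R ^ D = R ^ (D - 1) * R := by
      rw [← pow_succ]
      congr 1
      omega
    have hRD : 0 < R ^ (D - 1) := by positivity
    have hδ : ‖t - s‖ / R < 1 := by
      rw [div_lt_one hR0, hR]
      exact hts
    -- the top sum
    have htop : ‖∑ j ∈ Finset.range D, t ^ j * s ^ (D - 1 - j)‖ = R ^ (D - 1) := by
      have h1 : ∑ j ∈ Finset.range D, t ^ j * s ^ (D - 1 - j) =
          (D : ℚ_[p]) * s ^ (D - 1) +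
            ∑ j ∈ Finset.range D, (t ^ j - s ^ j) * s ^ (D - 1 - j) := by
        have h2 : ∑ j ∈ Finset.range D, (t ^ j - s ^ j) * s ^ (D - 1 - j) =
            ∑ j ∈ Finset.range D, (t ^ j * s ^ (D - 1 - j) - s ^ (D - 1)) := by
          refine Finset.sum_congr rfl fun j hj => ?_
          have hj' := Finset.mem_range.1 hj
          have h3 : s ^ (D - 1) = s ^ j * s ^ (D - 1 - j) := by
            rw [← pow_add]
            congr 1
            omega
          rw [h3]
          ring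
        rw [h2, Finset.sum_sub_distrib, Finset.sum_const, Finset.card_range, nsmul_eq_mul]
        ring
      have hDn : ‖(D : ℚ_[p])‖ = 1 := by
        rw [Padic.norm_natCast_eq_one_iff]
        exact (Nat.Prime.coprime_iff_not_dvd hpp).2 (Nat.not_dvd_of_pos_of_lt hD hp)
      have h4 : ‖(D : ℚ_[p]) * s ^ (D - 1)‖ = R ^ (D - 1) := by
        rw [norm_mul, hDn, one_mul, norm_pow, ← hR]
      have h5 : ‖∑ j ∈ Finset.range D, (t ^ j - s ^ j) * s ^ (D - 1 - j)‖ ≤
          ‖t - s‖ / R * R ^ (D - 1) := by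
        refine out_sum _ _ (by positivity) ?_
        intro j hj
        have hj' := Finset.mem_range.1 hj
        rw [norm_mul, norm_pow, ← hR]
        have h6 := mul_le_mul_of_nonneg_right (hdiff j)
          (by positivity : (0 : ℝ) ≤ R ^ (D - 1 - j))
        refine h6.trans (le_of_eq ?_)
        rw [mul_assoc, ← pow_add]
        congr 2
        omega
      rw [h1, out_add, h4]
      rw [h4]
      refine h5.trans_lt ?_
      nlinarith
    -- the difference
    have hfd : ev f t - ev f s = (f.leadingCoeff *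
        (∑ j ∈ Finset.range D, t ^ j * s ^ (D - 1 - j)) +
        ∑ i ∈ Finset.range D, f.coeff i *
          ∑ j ∈ Finset.range i, t ^ j * s ^ (i - 1 - j)) * (t - s) := by
      have h1 : ∑ i ∈ Finset.range D, f.coeff i * t ^ i -
          ∑ i ∈ Finset.range D, f.coeff i * s ^ i =
          (∑ i ∈ Finset.range D, f.coeff i *
          ∑ j ∈ Finset.range i, t ^ j * s ^ (i - 1 - j)) * (t - s) := by
        rw [← Finset.sum_sub_distrib, Finset.sum_mul]
        refine Finset.sum_congr rfl fun i _ => ?_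
        rw [mul_assoc, ← hpow i]
        ring
      rw [out_split f t, out_split f s, ← hDD, add_mul, ← h1, mul_assoc, ← hpow D]
      ring
    rw [hft, sub_self] at hfd
    have hz := (mul_eq_zero.1 hfd.symm).resolve_right hsub
    have h7 : ‖f.leadingCoeff * (∑ j ∈ Finset.range D, t ^ j * s ^ (D - 1 - j))‖ =
        R ^ (D - 1) := by
      rw [norm_mul, hl, one_mul, htop]
    have h8 : ‖∑ i ∈ Finset.range D, f.coeff i *
          ∑ j ∈ Finset.range i, t ^ j * s ^ (i - 1 - j)‖ ≤ R ^ (D - 1) / R := by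
      refine out_sum _ _ (by positivity) ?_
      intro i hi
      have hi' := Finset.mem_range.1 hi
      rw [norm_mul, le_div_iff₀ hR0]
      have h9 := hSn i
      have h10 : R ^ i ≤ R ^ (D - 1) := pow_le_pow_right₀ hR1.le (by omega)
      have h11 : ‖f.coeff i‖ * ‖∑ j ∈ Finset.range i, t ^ j * s ^ (i - 1 - j)‖ * R ≤
          1 * (‖∑ j ∈ Finset.range i, t ^ j * s ^ (i - 1 - j)‖ * R) := by
        rw [mul_assoc]
        exact mul_le_mul_of_nonneg_right (hc i) (by positivity)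
      linarith
    have h12 : R ^ (D - 1) / R < R ^ (D - 1) := div_lt_self hRD hR1
    have h13 := out_add (h8.trans_lt (h12.trans_eq h7.symm))
    rw [hz, norm_zero, h7] at h13
    linarith

end Pool.Agent.PrepH
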