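import Pool.Agent.PrepH.PolyH

/-!
# Heights of the points of a plane curve
-/

namespace Pool.Agent.PrepH

open Polynomial Height

variable {K : Type*} [Field K] [AdmissibleAbsValues K]

private theorem rootH_opt {N : ℕ} (s : Fin N → K) :
    logHeight (fun o : Option (Fin N) => o.elim 1 s) ≤ ∑ i, logHeight₁ (s i) := by
  have h0 : ∀ i : Fin N, (![s i, 1] : Fin 2 → K) ≠ 0 := fun i h => by
    have := congrFun h 1
    simp at this
  have h1 := logHeight_fun_prod_eq (x := fun i : Fin N => (![s i, 1] : Fin 2 → K)) h0
  have h2 := logHeight_comp_le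
    (fun (o : Option (Fin N)) (i : Fin N) => if o = some i then (0 : Fin 2) else 1)
    (fun I : Fin N → Fin 2 => ∏ i, (![s i, 1] : Fin 2 → K) (I i))
  rw [h1] at h2
  have h3 : (fun I : Fin N → Fin 2 => ∏ i, (![s i, 1] : Fin 2 → K) (I i)) ∘
      (fun (o : Option (Fin N)) (i : Fin N) => if o = some i then (0 : Fin 2) else 1) =
      fun o : Option (Fin N) => o.elim 1 s := by
    funext o
    simp only [Function.comp_apply]
    rcases o with _ | k
    · simp
    · rw [Finset.prod_eq_single k]
      · simp
      · intro b _ hb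
        have : ¬ (some k = some b) := fun h => hb (Option.some.inj h).symm
        simp [this]
      · simp
  rw [h3] at h2
  refine h2.trans (le_of_eq ?_)
  exact Finset.sum_congr rfl fun i _ => (logHeight₁_eq_logHeight (s i)).symm

open MvPolynomial in
private theorem rootH_monic (N : ℕ) :
    ∃ c : ℝ, ∀ (s : Fin (N + 1) → K) (t : K), t ^ (N + 1) = - ∑ i, s i * t ^ (i : ℕ) →
      logHeight₁ t ≤ ∑ i, logHeight₁ (s i) + c := by
  classical
  let q : Option (Option (Fin (N + 1))) × Option (Fin (N + 1)) →
      MvPolynomial (Option (Option (Fin (N + 1)))) K := fun z =>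
    match z with
    | (none, none) => 0
    | (none, some i) => - (X none ^ (i : ℕ) * X (some none) ^ (N - i))
    | (some j, j') => if j = j' then X (some j) ^ N else 0
  have hq : ∀ z, (q z).IsHomogeneous N := by
    rintro ⟨_ | j, j'⟩
    · rcases j' with _ | i
      · exact isHomogeneous_zero _ _ _
      · simp only [q]
        apply IsHomogeneous.neg
        have h1 : (X none ^ (i : ℕ) : MvPolynomial (Option (Option (Fin (N + 1)))) K).IsHomogeneous
            (1 * (i : ℕ)) := (isHomogeneous_X _ _).pow _
        have h2 : (X (some none) ^ (N - (i : ℕ)) :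
            MvPolynomial (Option (Option (Fin (N + 1)))) K).IsHomogeneous
            (1 * (N - (i : ℕ))) := (isHomogeneous_X _ _).pow _
        have h3 := h1.mul h2
        have h4 : 1 * (i : ℕ) + 1 * (N - (i : ℕ)) = N := by have := i.2; omega
        rw [h4] at h3
        exact h3
    · simp only [q]
      split_ifs
      · have h1 : (X (some j) ^ N : MvPolynomial (Option (Option (Fin (N + 1)))) K).IsHomogeneous
            (1 * N) := (isHomogeneous_X _ _).pow _
        rwa [one_mul] at h1
      · exact isHomogeneous_zero _ _ _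
  obtain ⟨C, hC⟩ := logHeight_eval_ge' (N := 1) hq
  refine ⟨-C, fun s t ht => ?_⟩
  let x : Option (Option (Fin (N + 1))) → K := fun o => o.elim t (fun o' => o'.elim 1 s)
  have h1 := hC (fun j => X (some j)) (x := x) (by
    intro k
    rcases k with _ | j
    · rw [Fintype.sum_option]
      simp only [q, x, map_zero, zero_add, map_neg, map_mul, map_pow, MvPolynomial.eval_X,
        Option.elim_none, Option.elim_some, one_pow, mul_one]
      rw [ht, ← Finset.sum_neg_distrib]
      exact Finset.sum_congr rfl fun i _ => by ring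
    · rw [Finset.sum_eq_single j]
      · simp only [q, if_true, map_pow, MvPolynomial.eval_X]
        rw [pow_succ]
      · intro b _ hb
        simp only [q]
        rw [if_neg (fun h => hb h.symm), map_zero, zero_mul]
      · simp)
  have h2 : (fun j : Option (Fin (N + 1)) => (MvPolynomial.eval x) (X (some j))) =
      fun o : Option (Fin (N + 1)) => o.elim 1 s := by
    funext j
    simp [x]
  rw [h2] at h1
  have h3 := rootH_opt s
  have h4 : logHeight₁ t ≤ logHeight x := by
    rw [logHeight₁_eq_logHeight]
    have h5 := logHeight_comp_le (fun k : Fin 2 => if k = 0 then none else some none) x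
    have h6 : x ∘ (fun k : Fin 2 => if k = 0 then none else some none) = ![t, 1] := by
      funext k
      fin_cases k <;> simp [x]
    rw [h6] at h5
    exact h5
  push_cast at h1
  linarith

/-- **PROOF.** Let `Q = Σ_{i ≤ N} q_i(X) Y^i`, `N ≥ 1` (if `N = 0` the hypotheses contradict each
other), and `t = q_N(a) b`. Multiplying `Q(a, b) = 0` by `q_N(a)^(N - 1)` we get
`t^N = - Σ_{i < N} r_i(a) t^i`, `r_i = q_i q_N^(N - 1 - i)`. Let `M` be at least the degrees of the
`r_i`, and `y = (1, a, …, a^M, t)`, indexed by `Option (Fin (M + 1))` or by a sum type.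
`Height.logHeight_eval_ge'` (with `1` and `N - 1` for its `N` and `M`, `p j = X_j`, `j ≤ M`)
and the relations `y_j^N = y_j^(N - 1) y_j` and
`t^N = Σ_j (- Σ_{i < N} r_ij t^i y_0^(N - 1 - i)) y_j` give
`logHeight y ≤ logHeight (1, a, …, a^M) + const`, and `Height.logHeight_eval_le'` gives
`logHeight (1, a, …, a^M) ≤ M * logHeight₁ a + const`. Now `logHeight₁ t ≤ logHeight y`
(`logHeight_comp_le`), and `b = t / q_N(a)`, so
`logHeight₁ b ≤ logHeight₁ t + logHeight₁ (q_N(a))`, where the last term is bounded by
`height_poly`. -/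
theorem height_root (Q : K[X][X]) :
    ∃ c₁ c₂ : ℝ, 0 ≤ c₁ ∧ ∀ a b : K, Q.leadingCoeff.eval a ≠ 0 → (Q.eval (C b)).eval a = 0 →
      logHeight₁ b ≤ c₁ * logHeight₁ a + c₂ := by
  rcases Nat.eq_zero_or_pos Q.natDegree with h0 | hpos
  · refine ⟨0, 0, le_rfl, fun a b h1 h2 => ?_⟩
    exfalso
    apply h1
    rw [Polynomial.eq_C_of_natDegree_eq_zero h0, Polynomial.eval_C] at h2
    rw [Polynomial.leadingCoeff, h0]
    exact h2
  · obtain ⟨N, hN⟩ : ∃ N, Q.natDegree = N + 1 := ⟨Q.natDegree - 1, by omega⟩
    obtain ⟨c, hc⟩ := rootH_monic (K := K) N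
    let r : Fin (N + 1) → K[X] := fun i => Q.coeff i * Q.leadingCoeff ^ (N - i)
    choose cr hcr using fun i => height_poly (r i)
    obtain ⟨cl, hcl⟩ := height_poly Q.leadingCoeff
    refine ⟨∑ i, ((r i).natDegree : ℝ) + Q.leadingCoeff.natDegree, ∑ i, cr i + c + cl,
      by positivity, fun a b h1 h2 => ?_⟩
    set l := Q.leadingCoeff.eval a with hl
    have h3 : (l * b) ^ (N + 1) = - ∑ i : Fin (N + 1), (r i).eval a * (l * b) ^ (i : ℕ) := by
      rw [Polynomial.eval_eq_sum_range (p := Q), hN, Polynomial.eval_finsetSum,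
        Finset.sum_range_succ] at h2
      have h4 : Q.coeff (N + 1) = Q.leadingCoeff := by rw [Polynomial.leadingCoeff, hN]
      simp only [Polynomial.eval_mul, Polynomial.eval_pow, Polynomial.eval_C, h4] at h2
      rw [← hl] at h2
      have h5 : ∑ i : Fin (N + 1), (r i).eval a * (l * b) ^ (i : ℕ) =
          l ^ N * ∑ i ∈ Finset.range (N + 1), (Q.coeff i).eval a * b ^ i := by
        rw [Finset.mul_sum, ← Fin.sum_univ_eq_sum_range
          (fun i => l ^ N * ((Q.coeff i).eval a * b ^ i)) (N + 1)]
        apply Finset.sum_congr rfl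
        intro i _
        simp only [r, Polynomial.eval_mul, Polynomial.eval_pow, ← hl]
        have h6 : l ^ N = l ^ (N - (i : ℕ)) * l ^ (i : ℕ) := by
          rw [← pow_add]; congr 1; have := i.2; omega
        rw [h6, mul_pow]; ring
      rw [h5]
      have h7 : ∑ i ∈ Finset.range (N + 1), (Q.coeff i).eval a * b ^ i = - (l * b ^ (N + 1)) := by
        linear_combination h2
      rw [h7, mul_pow]; ring
    have h8 := hc (fun i => (r i).eval a) (l * b) h3
    have h9 : logHeight₁ b ≤ logHeight₁ (l * b) + logHeight₁ l := by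
      have h10 := logHeight₁_mul_le (l * b) l⁻¹
      rw [logHeight₁_inv] at h10
      have h11 : l * b * l⁻¹ = b := by field_simp
      rwa [h11] at h10
    have h12 : logHeight₁ l ≤ Q.leadingCoeff.natDegree * logHeight₁ a + cl := by
      have := (abs_le.1 (hcl a)).2
      linarith
    have h13 : ∑ i, logHeight₁ ((r i).eval a) ≤
        (∑ i, ((r i).natDegree : ℝ)) * logHeight₁ a + ∑ i, cr i := by
      rw [Finset.sum_mul, ← Finset.sum_add_distrib]
      apply Finset.sum_le_sum
      intro i _
      have := (abs_le.1 (hcr i a)).2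
      linarith
    nlinarith [h8, h9, h12, h13]

end Pool.Agent.PrepH
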