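import Pool.Agent.PrepH.DC
import Pool.Agent.PrepH.RootH
import Pool.Agent.PrepH.Canon
import Pool.Agent.PrepH.FinComm
import Pool.Agent.PrepH.Interp

/-!
# The arithmetic core: pairs `(a, b)` on a plane curve with `f^k(b) = g(f^k(a))`
-/

namespace Pool.Agent.PrepH

open Polynomial

private theorem Pair_canon {K : Type*} [Field K] [NumberField K] {f : K[X]}
    (hf : 2 ≤ f.natDegree) :
    ∃ hh : K → ℝ, (∀ x, hh (ev f x) = f.natDegree * hh x) ∧
      ∃ c', ∀ x, |hh x - Height.logHeight₁ x| ≤ c' := by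
  obtain ⟨c, hc⟩ := height_poly f
  have hD : (1 : ℝ) < f.natDegree := by
    have : 1 < f.natDegree := by omega
    exact_mod_cast this
  exact exists_canon (T := ev f) (h := Height.logHeight₁) hD hc

private theorem Pair_iter {K : Type*} [Field K] {f : K[X]} {hh : K → ℝ}
    (h1 : ∀ x, hh (ev f x) = f.natDegree * hh x) (k : ℕ) (x : K) :
    hh ((ev f)^[k] x) = (f.natDegree : ℝ) ^ k * hh x := by
  induction k with
  | zero =>
    rw [Function.iterate_zero_apply, pow_zero, one_mul]
  | succ k ih => rw [Function.iterate_succ_apply', h1, ih, pow_succ', mul_assoc]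

private theorem Pair_north {K : Type*} [Field K] [NumberField K] {hh : K → ℝ} {c' : ℝ}
    (h2 : ∀ x, |hh x - Height.logHeight₁ x| ≤ c') (B : ℝ) : {a : K | hh a ≤ B}.Finite := by
  refine (NumberField.finite_setOfPred_logHeight₁_le K (B + c')).subset ?_
  intro a ha
  have h3 := (abs_le.1 (h2 a)).1
  have ha' : hh a ≤ B := ha
  change Height.logHeight₁ a ≤ B + c'
  linarith

private theorem Pair_ev_map {K F : Type*} [Field K] [Field F] [Algebra K F] (f : K[X]) (x : K) :
    ev (f.map (algebraMap K F)) (algebraMap K F x) = algebraMap K F (ev f x) := by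
  simp only [ev, eval_map, eval₂_hom]

private theorem Pair_it_map {K F : Type*} [Field K] [Field F] [Algebra K F] (f : K[X]) (k : ℕ)
    (x : K) : (ev (f.map (algebraMap K F)))^[k] (algebraMap K F x) =
      algebraMap K F ((ev f)^[k] x) := by
  induction k generalizing x with
  | zero => rfl
  | succ k ih =>
    rw [Function.iterate_succ_apply, Pair_ev_map, ih, ← Function.iterate_succ_apply]

private theorem Pair_comm_it {α : Type*} {T g : α → α} {m : ℕ}
    (h : ∀ x, g (T^[m] x) = T^[m] (g x)) (n : ℕ) (x : α) :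
    g ((T^[m])^[n] x) = (T^[m])^[n] (g x) := by
  induction n generalizing x with
  | zero => rfl
  | succ n ih => rw [Function.iterate_succ_apply, ih, h, ← Function.iterate_succ_apply]

/-- **PROOF.** `exists_canon` for `T = ev f`, `h = logHeight₁`, `D = natDegree f` and
`height_poly`; a preperiodic point has canonical height `0`, so bounded `logHeight₁`, and
`NumberField.finite_setOfPred_logHeight₁_le` (Northcott). -/
theorem preper_finite {K : Type*} [Field K] [NumberField K] {f : K[X]} (hf : 2 ≤ f.natDegree) :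
    {a : K | ∃ k m : ℕ, 1 ≤ m ∧ (ev f)^[m] ((ev f)^[k] a) = (ev f)^[k] a}.Finite := by
  obtain ⟨hh, h1, c', h2⟩ := Pair_canon hf
  refine (Pair_north h2 0).subset ?_
  rintro a ⟨k, m, hm, ha⟩
  have hD : (1 : ℝ) < f.natDegree := by
    have : 1 < f.natDegree := by omega
    exact_mod_cast this
  have h3 := congrArg hh ha
  rw [Pair_iter h1, Pair_iter h1] at h3
  have h4 : (1 : ℝ) < (f.natDegree : ℝ) ^ m := one_lt_pow₀ hD (by omega)
  have h5 : ((f.natDegree : ℝ) ^ m - 1) * ((f.natDegree : ℝ) ^ k * hh a) = 0 := by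
    rw [sub_mul, h3]
    ring
  have h6 : (f.natDegree : ℝ) ^ k * hh a = 0 := (mul_eq_zero.1 h5).resolve_left (by linarith)
  have h7 : hh a = 0 := (mul_eq_zero.1 h6).resolve_left (pow_ne_zero _ (by linarith))
  exact h7.le

/-- **PROOF.** Let `hh` be the canonical height on `K`, `hh (f x) = d hh x`,
`|hh x - logHeight₁ x| ≤ c` (`exists_canon`, `height_poly`); it is `≥ 0`. `height_root` for `Q` gives
`c₁, c₂ ≥ 0` with `hh b ≤ c₁ hh a + c₂` if `Q(a, b) = 0` and `Q.leadingCoeff.eval a ≠ 0`. Let `T`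
be the union of the set of preperiodic points (`preper_finite`), the set of zeros of
`Q.leadingCoeff` and the set `{a | hh a ≤ c₂}` (finite by Northcott).
Let `a, b, g, k` be as in the theorem, `a ∉ T`, and let `g` commute with `f^m`. The points
`f^(k + m l) a`, `l ∈ ℕ`, are pairwise different, and `g` maps them to the points
`f^(k + m l) b`, so `g = g₀.map (algebraMap K F)` with `g₀ ∈ K[X]` by `descend`, of degree
`e = natDegree g`, and `g₀` commutes with `f^m`. `canon_comm` (with `height_poly g₀`) gives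
`d^k hh b = hh (f^k b) = hh (g₀ (f^k a)) = e d^k hh a`, so `e hh a = hh b ≤ c₁ hh a + c₂`; as
`hh a > c₂ ≥ 0`, `e < c₁ + 1`. By `finite_comm` there are only finitely many such `g₀`
(`Polynomial.map` is injective). For each of them fix an `m = m(g₀) ≥ 1` such that `g₀` commutes with
`f^m`, and let `M = M(g₀)` be the number of `dyn_cancel` for `itp f m`. Write `k = m k' + r`, `r < m`;
`f^k b = g₀ (f^k a)` means that the `k'`-th iterates of `f^m` at `f^r b` and at `g₀ (f^r a)` agree, so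
the `M`-th iterates agree too: `f^(m M + r) b = g₀ (f^(m M + r) a)`. So
`S = {(g₀, m M + r) : r < m}` works. -/
theorem pair_finite {K F : Type*} [Field K] [NumberField K] [Field F] [IsAlgClosed F] [Algebra K F]
    {f : K[X]} (hf : 2 ≤ f.natDegree)
    (hX : ¬ LinConj (f.map (algebraMap K F)) (X ^ f.natDegree)) {Q : K[X][X]} (hQ : Q ≠ 0) :
    ∃ (T : Set K) (S : Set (K[X] × ℕ)), T.Finite ∧ S.Finite ∧
      (∀ s ∈ S, 1 ≤ s.1.natDegree ∧
        CommIter (f.map (algebraMap K F)) (s.1.map (algebraMap K F))) ∧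
      ∀ a b : K, (Q.eval (C b)).eval a = 0 → ∀ (g : F[X]) (k : ℕ), 1 ≤ g.natDegree →
        CommIter (f.map (algebraMap K F)) g →
        (ev (f.map (algebraMap K F)))^[k] (algebraMap K F b) =
          ev g ((ev (f.map (algebraMap K F)))^[k] (algebraMap K F a)) →
        a ∈ T ∨ ∃ s ∈ S, (ev f)^[s.2] b = ev s.1 ((ev f)^[s.2] a) := by
  classical
  have hinj : Function.Injective (algebraMap K F) := (algebraMap K F).injective
  have hchar : CharZero F := charZero_of_injective_algebraMap hinj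
  obtain ⟨hh, h1, c', h2⟩ := Pair_canon hf
  have hD : (1 : ℝ) < f.natDegree := by
    have : 1 < f.natDegree := by omega
    exact_mod_cast this
  have hc'0 : 0 ≤ c' := (abs_nonneg _).trans (h2 0)
  obtain ⟨c₁, c₂', hc₁, hroot⟩ := height_root Q
  set c₂ : ℝ := max 0 (c₁ * c' + c₂' + c') with hc₂
  have hhroot : ∀ a b : K, Q.leadingCoeff.eval a ≠ 0 → (Q.eval (C b)).eval a = 0 →
      hh b ≤ c₁ * hh a + c₂ := by
    intro a b hla hab
    have h3 := hroot a b hla hab
    have h4 := (abs_le.1 (h2 b)).2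
    have h5 := (abs_le.1 (h2 a)).1
    have h6 : c₁ * Height.logHeight₁ a ≤ c₁ * (hh a + c') :=
      mul_le_mul_of_nonneg_left (by linarith) hc₁
    have h7 := le_max_right 0 (c₁ * c' + c₂' + c')
    rw [← hc₂] at h7
    nlinarith
  have hc₂0 : 0 ≤ c₂ := le_max_left _ _
  set f' : F[X] := f.map (algebraMap K F) with hf'
  have hdeg' : f'.natDegree = f.natDegree := natDegree_map _
  -- the finite set of polynomials
  obtain ⟨E, hE⟩ : ∃ E : ℕ, E = ⌈c₁ + 1⌉₊ := ⟨_, rfl⟩
  set G₀ : Set K[X] := {g₀ | 1 ≤ g₀.natDegree ∧ g₀.natDegree ≤ E ∧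
    CommIter f' (g₀.map (algebraMap K F))} with hG₀
  have hG₀fin : G₀.Finite := by
    have h3 : (⋃ e ∈ Set.Icc 1 E, (fun q : K[X] => q.map (algebraMap K F)) ⁻¹'
        {g : F[X] | g.natDegree = e ∧ CommIter f' g}).Finite := by
      refine (Set.finite_Icc 1 E).biUnion fun e he => ?_
      refine Set.Finite.preimage ((Polynomial.map_injective _ hinj).injOn) ?_
      exact finite_comm (by rw [hdeg']; exact hf) (by rw [hdeg']; exact hX) e he.1
    refine h3.subset ?_
    rintro g₀ ⟨ha, hb, hc⟩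
    refine Set.mem_biUnion (show g₀.natDegree ∈ Set.Icc 1 E from ⟨ha, hb⟩) ?_
    exact ⟨natDegree_map _, hc⟩
  have hex : ∀ g₀ ∈ G₀, ∃ m, 1 ≤ m ∧
      (∀ x : K, ev g₀ ((ev f)^[m] x) = (ev f)^[m] (ev g₀ x)) ∧
      ∃ M, ∀ x y : K, (∃ N, ((ev f)^[m])^[N] x = ((ev f)^[m])^[N] y) →
        ((ev f)^[m])^[M] x = ((ev f)^[m])^[M] y := by
    rintro g₀ ⟨_, _, m, hm, hcomm⟩
    refine ⟨m, hm, ?_, ?_⟩
    · intro x
      apply hinj
      have h3 := hcomm (algebraMap K F x)
      rw [hf', Pair_it_map, Pair_ev_map, Pair_ev_map, Pair_it_map] at h3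
      exact h3
    · obtain ⟨M, hM⟩ := dyn_cancel (f := itp f m) (by
        rw [natDegree_itp]
        exact Nat.one_le_pow _ _ (by omega))
      rw [ev_itp] at hM
      exact ⟨M, hM⟩
  choose! m hm hmc M hM using hex
  refine ⟨{a : K | ∃ k m : ℕ, 1 ≤ m ∧ (ev f)^[m] ((ev f)^[k] a) = (ev f)^[k] a} ∪
      {a : K | Q.leadingCoeff.eval a = 0} ∪ {a : K | hh a ≤ c₂},
    ⋃ g₀ ∈ G₀, (fun r => (g₀, m g₀ * M g₀ + r)) '' Set.Iio (m g₀), ?_, ?_, ?_, ?_⟩
  · refine ((preper_finite hf).union ?_).union (Pair_north h2 c₂)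
    have h3 : Q.leadingCoeff ≠ 0 := leadingCoeff_ne_zero.2 hQ
    refine (Q.leadingCoeff.roots.toFinset.finite_toSet).subset ?_
    intro a ha
    rw [Finset.mem_coe, Multiset.mem_toFinset, mem_roots h3]
    exact ha
  · exact hG₀fin.biUnion fun g _ => (Set.finite_Iio _).image _
  · intro s hs
    obtain ⟨g₀, hg₀, r, _, rfl⟩ := Set.mem_iUnion₂.1 hs
    exact ⟨hg₀.1, hg₀.2.2⟩
  · intro a b hab g k hg hcg hk
    by_cases haT : a ∈ {a : K | ∃ k m : ℕ, 1 ≤ m ∧ (ev f)^[m] ((ev f)^[k] a) = (ev f)^[k] a} ∪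
      {a : K | Q.leadingCoeff.eval a = 0} ∪ {a : K | hh a ≤ c₂}
    · exact Or.inl haT
    right
    have hT1 : ¬ ∃ k m : ℕ, 1 ≤ m ∧ (ev f)^[m] ((ev f)^[k] a) = (ev f)^[k] a :=
      fun h => haT (Or.inl (Or.inl h))
    have hT2 : Q.leadingCoeff.eval a ≠ 0 := fun h => haT (Or.inl (Or.inr h))
    have hT3 : c₂ < hh a := not_le.1 fun h => haT (Or.inr h)
    obtain ⟨m₁, hm₁, hcomm⟩ := hcg
    -- iterates of a are different
    have hlt : ∀ i j : ℕ, i < j → (ev f)^[i] a ≠ (ev f)^[j] a := by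
      intro i j hij h
      refine hT1 ⟨i, j - i, by omega, ?_⟩
      rw [← Function.iterate_add_apply, Nat.sub_add_cancel hij.le]
      exact h.symm
    have hinjit : Function.Injective (fun l : ℕ => ((ev f)^[m₁])^[l] ((ev f)^[k] a)) := by
      intro i j hij
      have h3 : ∀ l : ℕ, ((ev f)^[m₁])^[l] ((ev f)^[k] a) = (ev f)^[m₁ * l + k] a := by
        intro l
        rw [← Function.iterate_mul, ← Function.iterate_add_apply]
      simp only [h3] at hij
      rcases lt_trichotomy i j with h | h | h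
      · exfalso
        have : m₁ * i < m₁ * j := Nat.mul_lt_mul_of_pos_left h hm₁
        exact hlt _ _ (by omega) hij
      · exact h
      · exfalso
        have : m₁ * j < m₁ * i := Nat.mul_lt_mul_of_pos_left h hm₁
        exact hlt _ _ (by omega) hij.symm
    have hitm : ∀ (l : ℕ) (x : K), ((ev f')^[m₁])^[l] (algebraMap K F x) =
        algebraMap K F (((ev f)^[m₁])^[l] x) := by
      intro l x
      rw [← Function.iterate_mul, ← Function.iterate_mul, hf', Pair_it_map]
    obtain ⟨g₀, hg₀⟩ := descend (K := K) g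
      (S := Set.range (fun l : ℕ => ((ev f)^[m₁])^[l] ((ev f)^[k] a)))
      (Set.infinite_range_of_injective hinjit) (by
        rintro x ⟨l, rfl⟩
        refine ⟨((ev f)^[m₁])^[l] ((ev f)^[k] b), ?_⟩
        change ev g (algebraMap K F (((ev f)^[m₁])^[l] ((ev f)^[k] a))) = _
        rw [← hitm, Pair_comm_it hcomm, ← Pair_it_map, ← hf', ← hk, hf', Pair_it_map, ← hf',
          hitm])
    subst hg₀
    have hge : (g₀.map (algebraMap K F)).natDegree = g₀.natDegree := natDegree_map _
    rw [hge] at hg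
    have hcommK : ∀ x : K, ev g₀ ((ev f)^[m₁] x) = (ev f)^[m₁] (ev g₀ x) := by
      intro x
      apply hinj
      have h3 := hcomm (algebraMap K F x)
      rw [hf', Pair_it_map, Pair_ev_map, Pair_ev_map, Pair_it_map] at h3
      exact h3
    have hkK : (ev f)^[k] b = ev g₀ ((ev f)^[k] a) := by
      apply hinj
      rw [← Pair_it_map, ← Pair_ev_map, ← Pair_it_map]
      exact hk
    -- the degree is bounded
    obtain ⟨cg, hcg⟩ := height_poly g₀
    have hcan := canon_comm (T := ev f) (g := ev g₀) (h := Height.logHeight₁) (hh := hh) hD h1 h2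
      hcg hm₁ hcommK ((ev f)^[k] a)
    rw [← hkK, Pair_iter h1, Pair_iter h1] at hcan
    have hpk : (0 : ℝ) < (f.natDegree : ℝ) ^ k := pow_pos (by linarith) _
    have hbe : hh b = g₀.natDegree * hh a := by
      have h3 : (f.natDegree : ℝ) ^ k * hh b = (f.natDegree : ℝ) ^ k * (g₀.natDegree * hh a) := by
        rw [hcan]
        ring
      exact mul_left_cancel₀ hpk.ne' h3
    have h3 := hhroot a b hT2 hab
    rw [hbe] at h3
    have ha0 : 0 < hh a := lt_of_le_of_lt hc₂0 hT3
    have hE1 : (g₀.natDegree : ℝ) < c₁ + 1 := by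
      by_contra h4
      have h5 : (c₁ + 1) * hh a ≤ g₀.natDegree * hh a :=
        mul_le_mul_of_nonneg_right (not_lt.1 h4) ha0.le
      nlinarith
    have hE2 : g₀.natDegree ≤ E := by
      have h4 : (g₀.natDegree : ℝ) < (E : ℝ) := by
        rw [hE]
        exact hE1.trans_le (Nat.le_ceil _)
      have h5 : g₀.natDegree < E := by exact_mod_cast h4
      exact h5.le
    have hmem : g₀ ∈ G₀ := ⟨hg, hE2, m₁, hm₁, hcomm⟩
    -- cancellation
    have hm0 := hm g₀ hmem
    have hmc0 := hmc g₀ hmem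
    have hM0 := hM g₀ hmem
    have hkdm : k = m g₀ * (k / m g₀) + k % m g₀ := (Nat.div_add_mod k (m g₀)).symm
    have hsplit : ∀ (l r : ℕ) (x : K), ((ev f)^[m g₀])^[l] ((ev f)^[r] x) =
        (ev f)^[m g₀ * l + r] x := by
      intro l r x
      rw [← Function.iterate_mul, ← Function.iterate_add_apply]
    have h4 : ((ev f)^[m g₀])^[k / m g₀] ((ev f)^[k % m g₀] b) =
        ((ev f)^[m g₀])^[k / m g₀] (ev g₀ ((ev f)^[k % m g₀] a)) := by
      rw [← Pair_comm_it hmc0, hsplit, hsplit, ← hkdm]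
      exact hkK
    have h5 := hM0 _ _ ⟨_, h4⟩
    rw [← Pair_comm_it hmc0, hsplit, hsplit] at h5
    refine ⟨(g₀, m g₀ * M g₀ + k % m g₀), ?_, h5⟩
    refine Set.mem_iUnion₂.2 ⟨g₀, hmem, k % m g₀, ?_, rfl⟩
    exact Nat.mod_lt _ hm0

end Pool.Agent.PrepH
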