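import Pool.Agent.PrepH.Pair

/-!
# `pair_finite` for a plane curve over the algebraic closure
-/

namespace Pool.Agent.PrepH

open Polynomial

private theorem pairk_ev_map {L F : Type*} [Field L] [Field F] [Algebra L F] (f : L[X]) (x : L) :
    ev (f.map (algebraMap L F)) (algebraMap L F x) = algebraMap L F (ev f x) := by
  unfold ev
  rw [eval_map, eval₂_at_apply]

private theorem pairk_iter_map {L F : Type*} [Field L] [Field F] [Algebra L F] (f : L[X]) (n : ℕ)
    (x : L) :
    (ev (f.map (algebraMap L F)))^[n] (algebraMap L F x) = algebraMap L F ((ev f)^[n] x) := by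
  induction n generalizing x with
  | zero => rfl
  | succ n ih => rw [Function.iterate_succ_apply, Function.iterate_succ_apply, pairk_ev_map, ih]

/-- **PROOF.** Let `L ⊆ F` be `IntermediateField.adjoin K` of the (finite) set of all coefficients of
`Q`, a number field (`IntermediateField.finiteDimensional_adjoin`, `F` is algebraic over `K`), and
`Q' ∈ L[X][X]` with image `Q`. Apply `pair_finite` to `L`, `f.map (algebraMap K L)` and `Q'`, for
`algebraMap K L a`, `algebraMap K L b`. -/
theorem pair_finite_K {K F : Type*} [Field K] [NumberField K] [Field F] [Algebra K F]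
    [IsAlgClosure K F] {f : K[X]} (hf : 2 ≤ f.natDegree)
    (hX : ¬ LinConj (f.map (algebraMap K F)) (X ^ f.natDegree)) {Q : F[X][X]} (hQ : Q ≠ 0) :
    ∃ (T : Set F) (S : Set (F[X] × ℕ)), T.Finite ∧ S.Finite ∧
      (∀ s ∈ S, 1 ≤ s.1.natDegree ∧ CommIter (f.map (algebraMap K F)) s.1) ∧
      ∀ a b : K, (Q.eval (C (algebraMap K F b))).eval (algebraMap K F a) = 0 →
        ∀ (g : F[X]) (k : ℕ), 1 ≤ g.natDegree → CommIter (f.map (algebraMap K F)) g →
        (ev (f.map (algebraMap K F)))^[k] (algebraMap K F b) =
          ev g ((ev (f.map (algebraMap K F)))^[k] (algebraMap K F a)) →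
        algebraMap K F a ∈ T ∨ ∃ s ∈ S, (ev (f.map (algebraMap K F)))^[s.2] (algebraMap K F b) =
          ev s.1 ((ev (f.map (algebraMap K F)))^[s.2] (algebraMap K F a)) := by
  classical
  have : IsAlgClosed F := IsAlgClosure.isAlgClosed K
  have : Algebra.IsAlgebraic K F := IsAlgClosure.isAlgebraic
  let S₀ : Finset F := Q.support.biUnion fun i => (Q.coeff i).coeffs
  let L : IntermediateField K F := IntermediateField.adjoin K (S₀ : Set F)
  have : FiniteDimensional K L := IntermediateField.finiteDimensional_adjoin
    fun x _ => Algebra.IsIntegral.isIntegral x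
  have : NumberField L := NumberField.of_module_finite K L
  have hcoef : ∀ i j, (Q.coeff i).coeff j ∈ L := by
    intro i j
    by_cases h : (Q.coeff i).coeff j = 0
    · rw [h]
      exact L.zero_mem
    · refine IntermediateField.subset_adjoin K _ ?_
      rw [Finset.mem_coe, Finset.mem_biUnion]
      refine ⟨i, ?_, Polynomial.coeff_mem_coeffs h⟩
      rw [mem_support_iff]
      intro h0
      rw [h0, coeff_zero] at h
      exact h rfl
  obtain ⟨Q', hQ'⟩ : ∃ Q' : L[X][X], Q'.map (mapRingHom (algebraMap L F)) = Q := by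
    have h1 : Q ∈ lifts (mapRingHom (algebraMap L F)) := by
      rw [lifts_iff_coeff_lifts]
      intro i
      have h2 : Q.coeff i ∈ lifts (algebraMap L F) := by
        rw [lifts_iff_coeff_lifts]
        intro j
        exact ⟨⟨_, hcoef i j⟩, rfl⟩
      obtain ⟨q, hq⟩ := (mem_lifts _).1 h2
      exact ⟨q, hq⟩
    exact (mem_lifts _).1 h1
  have hQ0 : Q' ≠ 0 := by
    rintro rfl
    rw [Polynomial.map_zero] at hQ'
    exact hQ hQ'.symm
  have hff : (f.map (algebraMap K L)).map (algebraMap L F) = f.map (algebraMap K F) := by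
    rw [Polynomial.map_map, ← IsScalarTower.algebraMap_eq]
  have hfd : (f.map (algebraMap K L)).natDegree = f.natDegree := natDegree_map _
  obtain ⟨T, S, hT, hS, hSc, hmain⟩ := pair_finite (K := L) (F := F)
    (f := f.map (algebraMap K L)) (by rw [hfd]; exact hf) (by rw [hff, hfd]; exact hX) hQ0
  rw [hff] at hSc hmain
  refine ⟨algebraMap L F '' T, (fun s : L[X] × ℕ => (s.1.map (algebraMap L F), s.2)) '' S,
    hT.image _, hS.image _, ?_, ?_⟩
  · rintro _ ⟨s, hs, rfl⟩
    refine ⟨?_, (hSc s hs).2⟩
    rw [natDegree_map]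
    exact (hSc s hs).1
  · intro a b hab g k hg hcg hgk
    have ea : algebraMap L F (algebraMap K L a) = algebraMap K F a :=
      (IsScalarTower.algebraMap_apply K L F a).symm
    have eb : algebraMap L F (algebraMap K L b) = algebraMap K F b :=
      (IsScalarTower.algebraMap_apply K L F b).symm
    have h0 : (Q'.eval (C (algebraMap K L b))).eval (algebraMap K L a) = 0 := by
      have hinj : Function.Injective (algebraMap L F) := (algebraMap L F).injective
      apply hinj
      rw [map_zero, ← eval₂_at_apply, ← eval_map]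
      have h1 : (Q'.eval (C (algebraMap K L b))).map (algebraMap L F)
          = Q.eval (C (algebraMap K F b)) := by
        have h2 := eval₂_at_apply (p := Q') (mapRingHom (algebraMap L F)) (C (algebraMap K L b))
        rw [← eval_map, hQ', coe_mapRingHom, map_C, eb] at h2
        exact h2.symm
      rw [h1, ea]
      exact hab
    rw [← ea, ← eb] at hgk
    rcases hmain _ _ h0 g k hg hcg hgk with h1 | ⟨s, hs, h1⟩
    · left
      exact ⟨_, h1, ea⟩
    · right
      refine ⟨_, ⟨s, hs, rfl⟩, ?_⟩
      dsimp only
      have e1 := pairk_iter_map (L := L) (F := F) (f.map (algebraMap K L)) s.2 (algebraMap K L b)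
      have e2 := pairk_iter_map (L := L) (F := F) (f.map (algebraMap K L)) s.2 (algebraMap K L a)
      rw [← ea, ← eb, ← hff, e1, e2, pairk_ev_map, h1]

end Pool.Agent.PrepH
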