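import Pool.Agent.PrepH.Rel

/-!
# A function on an affine curve has finitely many zeros
-/

namespace Pool.Agent.PrepH

open Polynomial

variable {F : Type*} [Field F] {n : ℕ}

private theorem Zeros_aux [Infinite F] {I : Ideal (MvPolynomial (Fin n) F)} (hI : IsCurve I)
    {R : MvPolynomial (Fin n) F} (hR : R ∉ I) (j : Fin n) (k : ℕ) :
    ∀ p : MvPolynomial (Fin 2) F, p ≠ 0 → p.totalDegree ≤ k →
      MvPolynomial.aeval ![R, MvPolynomial.X j] p ∈ I →
      ∃ q : F[X], q ≠ 0 ∧ ∀ x : Fin n → F, (∀ H ∈ I, MvPolynomial.eval x H = 0) →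
        MvPolynomial.eval x R = 0 → q.eval (x j) = 0 := by
  have hstep : ∀ p : MvPolynomial (Fin 2) F, MvPolynomial.aeval ![R, MvPolynomial.X j] p ∈ I →
      (MvPolynomial.finSuccEquiv F 1 p).coeff 0 ≠ 0 →
      ∃ q : F[X], q ≠ 0 ∧ ∀ x : Fin n → F, (∀ H ∈ I, MvPolynomial.eval x H = 0) →
        MvPolynomial.eval x R = 0 → q.eval (x j) = 0 := by
    intro p hp hc
    have hev : ∀ b : F, (MvPolynomial.aeval (fun _ : Fin 1 => (X : F[X]))
        ((MvPolynomial.finSuccEquiv F 1 p).coeff 0)).eval b =
        MvPolynomial.eval (fun _ => b) ((MvPolynomial.finSuccEquiv F 1 p).coeff 0) := by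
      intro b
      generalize (MvPolynomial.finSuccEquiv F 1 p).coeff 0 = c
      induction c using MvPolynomial.induction_on with
      | C a => simp
      | add u v hu hv => simp only [map_add, eval_add, hu, hv]
      | mul_X u i hu => simp only [map_mul, eval_mul, hu, MvPolynomial.aeval_X,
          MvPolynomial.eval_X, eval_X]
    refine ⟨MvPolynomial.aeval (fun _ : Fin 1 => (X : F[X]))
      ((MvPolynomial.finSuccEquiv F 1 p).coeff 0), ?_, ?_⟩
    · intro h0
      apply hc
      apply MvPolynomial.funext
      intro b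
      have h1 := hev (b 0)
      rw [h0, eval_zero] at h1
      have h2 : (fun _ : Fin 1 => b 0) = b := by
        funext i
        rw [Subsingleton.elim i 0]
      rw [h2] at h1
      rw [map_zero, ← h1]
    · intro x hx hxR
      rw [hev]
      have h1 := hx _ hp
      have h2 : MvPolynomial.eval x (MvPolynomial.aeval ![R, MvPolynomial.X j] p) =
          MvPolynomial.eval (Fin.cons 0 (fun _ : Fin 1 => x j)) p := by
        rw [MvPolynomial.aeval_def, MvPolynomial.algebraMap_eq, MvPolynomial.eval_eval₂]
        rw [MvPolynomial.eval, MvPolynomial.coe_eval₂Hom]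
        congr 1
        · ext a
          simp
        · funext i
          refine Fin.cases ?_ (fun i => ?_) i
          · simpa using hxR
          · rw [Subsingleton.elim i 0]
            simp
      rw [h2, MvPolynomial.eval_eq_eval_mv_eval', ← coeff_zero_eq_eval_zero, coeff_map] at h1
      exact h1
  induction k with
  | zero =>
    intro p hp hk hpI
    refine hstep p hpI ?_
    intro hc
    obtain ⟨P, hP⟩ := X_dvd_iff.2 hc
    have h1 : p = MvPolynomial.X 0 * (MvPolynomial.finSuccEquiv F 1).symm P := by
      apply (MvPolynomial.finSuccEquiv F 1).injective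
      rw [map_mul, MvPolynomial.finSuccEquiv_X_zero, AlgEquiv.apply_symm_apply, hP]
    set p' := (MvPolynomial.finSuccEquiv F 1).symm P with hp'
    have h2 : p' ≠ 0 := by
      rintro h
      rw [h, mul_zero] at h1
      exact hp h1
    rw [h1, MvPolynomial.totalDegree_mul_of_isDomain (MvPolynomial.X_ne_zero 0) h2,
      MvPolynomial.totalDegree_X] at hk
    omega
  | succ k ih =>
    intro p hp hk hpI
    by_cases hc : (MvPolynomial.finSuccEquiv F 1 p).coeff 0 = 0
    · obtain ⟨P, hP⟩ := X_dvd_iff.2 hc
      have h1 : p = MvPolynomial.X 0 * (MvPolynomial.finSuccEquiv F 1).symm P := by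
        apply (MvPolynomial.finSuccEquiv F 1).injective
        rw [map_mul, MvPolynomial.finSuccEquiv_X_zero, AlgEquiv.apply_symm_apply, hP]
      set p' := (MvPolynomial.finSuccEquiv F 1).symm P with hp'
      have h2 : p' ≠ 0 := by
        rintro h
        rw [h, mul_zero] at h1
        exact hp h1
      rw [h1, MvPolynomial.totalDegree_mul_of_isDomain (MvPolynomial.X_ne_zero 0) h2,
        MvPolynomial.totalDegree_X] at hk
      rw [h1, map_mul, MvPolynomial.aeval_X] at hpI
      have h3 : MvPolynomial.aeval ![R, MvPolynomial.X j] p' ∈ I :=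
        (hI.prime.mem_or_mem hpI).resolve_left (by simpa using hR)
      exact ih p' h2 (by omega) h3
    · exact hstep p hpI hc

/-- **PROOF.** It is enough to find for every `j` a nonzero `q ∈ F[X]` with `q (x j) = 0` for all
`x` in the set (the set is then contained in a product of finite sets, `Set.Finite.pi`). By
`exists_dep` for `U = R`, `V = X j` there is `p ≠ 0` with `p(R, X_j) ∈ I`; choose such a `p` of minimal
total degree. `p` is not divisible by the first variable: if `p = X_0 p'`, then
`R * p'(R, X_j) ∈ I`, and since `I` is prime and `R ∉ I`, `p'(R, X_j) ∈ I`. So `q(V) = p(0, V)` is not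
zero, and for `x` in the set, `0 = p(R(x), x_j) = p(0, x_j) = q (x j)`. -/
theorem zeros_finite [Infinite F] {I : Ideal (MvPolynomial (Fin n) F)} (hI : IsCurve I)
    {R : MvPolynomial (Fin n) F} (hR : R ∉ I) :
    {x : Fin n → F | (∀ H ∈ I, MvPolynomial.eval x H = 0) ∧ MvPolynomial.eval x R = 0}.Finite := by
  have h1 : ∀ j : Fin n, ∃ q : F[X], q ≠ 0 ∧ ∀ x : Fin n → F,
      (∀ H ∈ I, MvPolynomial.eval x H = 0) → MvPolynomial.eval x R = 0 → q.eval (x j) = 0 := by
    intro j
    obtain ⟨p, hp, hpI⟩ := exists_dep hI R (MvPolynomial.X j)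
    exact Zeros_aux hI hR j p.totalDegree p hp le_rfl hpI
  choose q hq hq' using h1
  refine (Set.Finite.pi' (t := fun j => {b : F | (q j).IsRoot b})
    fun j => finite_setOfPred_isRoot (hq j)).subset ?_
  rintro x ⟨hx, hxR⟩ j
  exact hq' j x hx hxR

end Pool.Agent.PrepH
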