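import Pool.Agent.PrepH.PairK
import Pool.Agent.PrepH.Zeros
import Pool.Agent.PrepH.Inf
import Pool.Agent.PrepH.Graph

/-!
# Finiteness of the rational points of a curve on hypersurfaces of Medvedev-Scanlon's form
-/

namespace Pool.Agent.PrepH

open Polynomial

theorem Part1_eval_gph {F : Type*} [Field F] {n : ℕ} (A B : F[X]) (i j : Fin n) (x : Fin n → F) :
    MvPolynomial.eval x (gph A B i j) = A.eval (x j) - B.eval (x i) := by
  have h : ∀ (A : F[X]) (i : Fin n), MvPolynomial.eval x (aeval (MvPolynomial.X i) A) =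
      A.eval (x i) := by
    intro A i
    rw [← MvPolynomial.coe_aeval_eq_eval, RingHom.coe_coe, ← aeval_algHom_apply,
      MvPolynomial.aeval_X, coe_aeval_eq_eval]
  rw [gph, map_sub, h, h]

theorem Part1_iter_some {F : Type*} [Field F] (f : F[X]) (k : ℕ) (x : F) :
    (onP1 f)^[k] (some x) = some ((ev f)^[k] x) := by
  induction k generalizing x with
  | zero => rfl
  | succ k ih => rw [Function.iterate_succ_apply, Function.iterate_succ_apply, ← ih]; rfl

theorem Part1_ev_map {K F : Type*} [Field K] [Field F] [Algebra K F] (f : K[X]) (k : ℕ) (x : K) :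
    (ev (f.map (algebraMap K F)))^[k] (algebraMap K F x) = algebraMap K F ((ev f)^[k] x) := by
  induction k generalizing x with
  | zero => rfl
  | succ k ih =>
    rw [Function.iterate_succ_apply, Function.iterate_succ_apply, ← ih]
    congr 1
    simp only [ev, eval_map_algebraMap, aeval_algebraMap_apply, coe_aeval_eq_eval]

/-- Only finitely many rational points of a non-vertical curve lie on hypersurfaces of
Medvedev-Scanlon's form, if it is contained in no hypersurface of graph type. -/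
theorem part1 {K F : Type*} [Field K] [NumberField K] [Field F] [Algebra K F]
    [IsAlgClosure K F] {n : ℕ} {f : K[X]} (hf : 2 ≤ f.natDegree)
    (hX : ¬ LinConj (f.map (algebraMap K F)) (X ^ f.natDegree))
    {I : Ideal (MvPolynomial (Fin n) F)} (hI : IsCurve I)
    (hC : ∀ (i j : Fin n) (g : F[X]) (k : ℕ), i ≠ j → 1 ≤ g.natDegree →
      CommIter (f.map (algebraMap K F)) g →
      ¬ zeroSet I ⊆ {P | (onP1 (f.map (algebraMap K F)))^[k] (P j) =
        onP1 g ((onP1 (f.map (algebraMap K F)))^[k] (P i))}) :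
    {P : Fin n → P1 F | P ∈ zeroSet I ∧ IsRat K P ∧
      ∃ V, MSHyp (f.map (algebraMap K F)) V ∧ P ∈ V}.Finite := by
  classical
  haveI : IsAlgClosed F := IsAlgClosure.isAlgClosed K
  haveI : CharZero F := charZero_of_injective_algebraMap (algebraMap K F).injective
  set fF : F[X] := f.map (algebraMap K F) with hfF
  have hdeg : fF.natDegree = f.natDegree := natDegree_map _
  have hitdeg : ∀ k, 1 ≤ (itp fF k).natDegree := fun k => by
    rw [natDegree_itp]; exact Nat.one_le_pow _ _ (by omega)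
  -- the finite sets of polynomials
  have key : ∀ i j : Fin n, i ≠ j → ∃ 𝓡 : Set (MvPolynomial (Fin n) F), 𝓡.Finite ∧
      (∀ R ∈ 𝓡, R ∉ I) ∧ ∀ a : Fin n → K,
        (∀ H ∈ I, MvPolynomial.eval (fun l => algebraMap K F (a l)) H = 0) →
        ∀ (g : F[X]) (k : ℕ), 1 ≤ g.natDegree → CommIter fF g →
        (ev fF)^[k] (algebraMap K F (a j)) = ev g ((ev fF)^[k] (algebraMap K F (a i))) →
        ∃ R ∈ 𝓡, MvPolynomial.eval (fun l => algebraMap K F (a l)) R = 0 := by
    intro i j hij
    obtain ⟨p, hp0, hpI⟩ := exists_rel hI i j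
    obtain ⟨Q, hQ0, hQ⟩ := exists_biv hp0
    obtain ⟨T, S, hT, hS, hS1, hTS⟩ := pair_finite_K (F := F) hf hX hQ0
    refine ⟨(fun t => MvPolynomial.X i - MvPolynomial.C t) '' T ∪
      (fun s : F[X] × ℕ => gph (itp fF s.2) (s.1.comp (itp fF s.2)) i j) '' S,
      (hT.image _).union (hS.image _), ?_, ?_⟩
    · rintro R (⟨t, -, rfl⟩ | ⟨s, hs, rfl⟩)
      · exact hI.nonvert i t
      · intro hmem
        obtain ⟨h1, h2⟩ := hS1 s hs
        refine hC i j s.1 s.2 hij h1 h2 fun P hP => ?_
        have h3 := hP _ hmem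
        rw [mval_gph (hitdeg _) (by
          rw [natDegree_comp]; exact Nat.mul_pos h1 (hitdeg _)) hij, onP1_itp, onP1_comp,
          onP1_itp] at h3
        exact h3
    · intro a ha g k hg hc he
      have hrel : (Q.eval (C (algebraMap K F (a j)))).eval (algebraMap K F (a i)) = 0 := by
        rw [hQ]
        have := ha _ hpI
        rw [MvPolynomial.eval_rename] at this
        rwa [show ((fun l => algebraMap K F (a l)) ∘ ![i, j] : Fin 2 → F) =
          ![algebraMap K F (a i), algebraMap K F (a j)] from by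
            funext l; fin_cases l <;> rfl] at this
      rcases hTS (a i) (a j) hrel g k hg hc he with h | ⟨s, hs, h⟩
      · exact ⟨_, Or.inl ⟨_, h, rfl⟩, by simp⟩
      · refine ⟨_, Or.inr ⟨s, hs, rfl⟩, ?_⟩
        rw [Part1_eval_gph, eval_comp]
        have e1 : ∀ x : F, (itp fF s.2).eval x = (ev fF)^[s.2] x := fun x => by
          rw [← ev_itp]; rfl
        rw [e1, e1, h]
        exact sub_self _
  choose! 𝓡 h𝓡f h𝓡I h𝓡 using key
  -- preperiodic coordinates
  have hpre := preper_finite (K := K) hf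
  set T' : Set F := algebraMap K F ''
    {a : K | ∃ k m : ℕ, 1 ≤ m ∧ (ev f)^[m] ((ev f)^[k] a) = (ev f)^[k] a} with hT'
  have hT'f : T'.Finite := hpre.image _
  let 𝓢 : Set (MvPolynomial (Fin n) F) :=
    (⋃ i : Fin n, (fun t => MvPolynomial.X i - MvPolynomial.C t) '' T') ∪
      ⋃ ij : {ij : Fin n × Fin n // ij.1 ≠ ij.2}, 𝓡 ij.1.1 ij.1.2
  have h𝓢f : 𝓢.Finite := (Set.finite_iUnion fun i => hT'f.image _).union
    (Set.finite_iUnion fun ij => h𝓡f _ _ ij.2)
  have h𝓢I : ∀ R ∈ 𝓢, R ∉ I := by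
    rintro R (hR | hR)
    · obtain ⟨i, t, -, rfl⟩ := Set.mem_iUnion.1 hR
      exact hI.nonvert i t
    · obtain ⟨ij, hR⟩ := Set.mem_iUnion.1 hR
      exact h𝓡I _ _ ij.2 R hR
  have hfin2 : (⋃ R ∈ 𝓢, (fun (x : Fin n → F) (i : Fin n) => (some (x i) : P1 F)) ''
      {x : Fin n → F | (∀ H ∈ I, MvPolynomial.eval x H = 0) ∧
        MvPolynomial.eval x R = 0}).Finite :=
    h𝓢f.biUnion fun R hR => (zeros_finite hI (h𝓢I R hR)).image _
  refine ((inf_finite hI).union hfin2).subset ?_
  rintro P ⟨hPI, hrat, V, hV, hPV⟩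
  by_cases hinf : ∃ i, P i = none
  · exact Or.inl ⟨hPI, hinf⟩
  right
  push Not at hinf
  have hrat' : ∀ i, ∃ a : K, P i = some (algebraMap K F a) := fun i =>
    (hrat i).resolve_left (hinf i)
  choose a ha using hrat'
  obtain rfl : P = fun i => some (algebraMap K F (a i)) := funext ha
  have hzero : ∀ H ∈ I, MvPolynomial.eval (fun l => algebraMap K F (a l)) H = 0 := fun H hH => by
    rw [← mval_some]; exact hPI H hH
  suffices hs : ∃ R ∈ 𝓢, MvPolynomial.eval (fun l => algebraMap K F (a l)) R = 0 by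
    obtain ⟨R, hR, hR0⟩ := hs
    exact Set.mem_biUnion hR ⟨_, ⟨hzero, hR0⟩, rfl⟩
  cases hV with
  | pt i ζ k m hm hζ =>
    simp only [Set.mem_ofPred_eq] at hPV
    rw [← hPV, Part1_iter_some, Part1_iter_some, Part1_ev_map, Part1_ev_map] at hζ
    have h5 : (ev f)^[m] ((ev f)^[k] (a i)) = (ev f)^[k] (a i) :=
      (algebraMap K F).injective (Option.some_injective _ hζ)
    exact ⟨_, Or.inl (Set.mem_iUnion.2 ⟨i, _, ⟨a i, ⟨k, m, hm, h5⟩, rfl⟩, rfl⟩), by simp⟩
  | gr i j hij g hg hc k =>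
    simp only [Set.mem_ofPred_eq] at hPV
    rw [Part1_iter_some, Part1_iter_some] at hPV
    obtain ⟨R, hR, hR0⟩ := h𝓡 i j hij a hzero g k hg hc (Option.some_injective _ hPV)
    exact ⟨R, Or.inr (Set.mem_iUnion.2 ⟨⟨(i, j), hij⟩, hR⟩), hR0⟩

end Pool.Agent.PrepH
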