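import Mathlib

/-!
# Heights of values of a polynomial
-/

namespace Pool.Agent.PrepH

open Polynomial Height

variable {K : Type*} [Field K] [AdmissibleAbsValues K]

/-- The homogenisation of degree `N` of a polynomial. -/
private noncomputable def PolyH_hom (p : K[X]) (N : ℕ) : MvPolynomial (Fin 2) K :=
  ∑ i ∈ Finset.range (N + 1),
    MvPolynomial.C (p.coeff i) * (MvPolynomial.X 0 ^ i * MvPolynomial.X 1 ^ (N - i))

omit [AdmissibleAbsValues K] in
private theorem PolyH_hom_isHomogeneous (p : K[X]) (N : ℕ) :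
    (PolyH_hom p N).IsHomogeneous N := by
  unfold PolyH_hom
  refine MvPolynomial.IsHomogeneous.sum _ _ _ fun i hi => ?_
  refine MvPolynomial.IsHomogeneous.C_mul ?_ _
  have h1 := (MvPolynomial.isHomogeneous_X_pow (R := K) (0 : Fin 2) i).mul
    (MvPolynomial.isHomogeneous_X_pow (R := K) (1 : Fin 2) (N - i))
  have h2 : i + (N - i) = N := by
    have := Finset.mem_range.1 hi
    omega
  rw [h2] at h1
  exact h1

omit [AdmissibleAbsValues K] in
private theorem PolyH_hom_eval (p : K[X]) (N : ℕ) (hN : p.natDegree ≤ N) (x : K) :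
    (PolyH_hom p N).eval ![x, 1] = p.eval x := by
  unfold PolyH_hom
  rw [Polynomial.eval_eq_sum_range' (Nat.lt_succ_of_le hN), map_sum]
  refine Finset.sum_congr rfl fun i _ => ?_
  simp

private theorem PolyH_upper (g : K[X]) :
    ∃ c : ℝ, ∀ x : K, logHeight₁ (g.eval x) ≤ c + g.natDegree * logHeight₁ x := by
  have hp : ∀ i, ((![PolyH_hom g g.natDegree, MvPolynomial.X 1 ^ g.natDegree] :
      Fin 2 → MvPolynomial (Fin 2) K) i).IsHomogeneous g.natDegree := by
    intro i
    fin_cases i
    · exact PolyH_hom_isHomogeneous g _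
    · exact MvPolynomial.isHomogeneous_X_pow _ _
  obtain ⟨c, hc⟩ := logHeight_eval_le' hp
  refine ⟨c, fun x => ?_⟩
  have h := hc ![x, 1]
  have e1 : (fun j => ((![PolyH_hom g g.natDegree, MvPolynomial.X 1 ^ g.natDegree] :
      Fin 2 → MvPolynomial (Fin 2) K) j).eval ![x, 1]) = ![g.eval x, 1] := by
    funext j
    fin_cases j
    · exact PolyH_hom_eval g _ le_rfl x
    · simp
  rw [e1] at h
  rw [logHeight₁_eq_logHeight, logHeight₁_eq_logHeight]
  exact h

private theorem PolyH_lower (g : K[X]) :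
    ∃ c : ℝ, ∀ x : K, c + g.natDegree * logHeight₁ x ≤ logHeight₁ (g.eval x) := by
  rcases Nat.eq_zero_or_pos g.natDegree with he | he
  · refine ⟨0, fun x => ?_⟩
    rw [he]
    simpa using zero_le_logHeight₁ (g.eval x)
  have hg0 : g ≠ 0 := by
    rintro rfl
    simp at he
  set e := g.natDegree with hedef
  set q : K[X] := X ^ (2 * e) / g with hq
  set r : K[X] := X ^ (2 * e) % g with hr
  have hdiv : g * q + r = X ^ (2 * e) := EuclideanDomain.div_add_mod _ _
  have hrdeg : r.natDegree < e := Polynomial.natDegree_mod_lt _ he.ne'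
  have hqdeg : q.natDegree ≤ e := by
    have hle : degree g ≤ degree (X ^ (2 * e) : K[X]) := by
      rw [degree_X_pow, degree_eq_natDegree hg0, ← hedef]
      exact_mod_cast (by omega : e ≤ 2 * e)
    have h1 := Polynomial.degree_add_div hg0 hle
    rw [degree_X_pow, degree_eq_natDegree hg0, ← hedef, ← hq] at h1
    have hq0 : q ≠ 0 := by
      intro h0
      rw [h0, degree_zero, WithBot.add_bot] at h1
      exact WithBot.natCast_ne_bot _ h1.symm
    rw [degree_eq_natDegree hq0] at h1
    have h2 : e + q.natDegree = 2 * e := by exact_mod_cast h1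
    omega
  have hhom : ∀ a : Fin 2 × Fin 2, ((![![PolyH_hom q e, PolyH_hom r e],
      ![0, MvPolynomial.X 1 ^ e]] : Fin 2 → Fin 2 → MvPolynomial (Fin 2) K) a.1 a.2).IsHomogeneous
        e := by
    rintro ⟨i, j⟩
    fin_cases i <;> fin_cases j
    · exact PolyH_hom_isHomogeneous q _
    · exact PolyH_hom_isHomogeneous r _
    · exact MvPolynomial.isHomogeneous_zero _ _ _
    · exact MvPolynomial.isHomogeneous_X_pow _ _
  obtain ⟨c, hc⟩ := logHeight_eval_ge' (N := e) (q := fun a : Fin 2 × Fin 2 =>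
    (![![PolyH_hom q e, PolyH_hom r e],
      ![0, MvPolynomial.X 1 ^ e]] : Fin 2 → Fin 2 → MvPolynomial (Fin 2) K) a.1 a.2) hhom
  refine ⟨c, fun x => ?_⟩
  have h := hc (![PolyH_hom g e, MvPolynomial.X 1 ^ e] : Fin 2 → MvPolynomial (Fin 2) K)
    (x := ![x, 1]) ?_
  · have e1 : (fun j => ((![PolyH_hom g e, MvPolynomial.X 1 ^ e] :
        Fin 2 → MvPolynomial (Fin 2) K) j).eval ![x, 1]) = ![g.eval x, 1] := by
      funext j
      fin_cases j
      · exact PolyH_hom_eval g _ le_rfl x
      · simp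
    rw [e1] at h
    rw [logHeight₁_eq_logHeight, logHeight₁_eq_logHeight]
    exact h
  · intro k
    rw [Fin.sum_univ_two]
    fin_cases k
    · show (PolyH_hom q e).eval ![x, 1] * (PolyH_hom g e).eval ![x, 1] +
        (PolyH_hom r e).eval ![x, 1] * ((MvPolynomial.X 1 ^ e : MvPolynomial (Fin 2) K)).eval
          ![x, 1] = x ^ (e + e)
      rw [PolyH_hom_eval q e hqdeg, PolyH_hom_eval g e le_rfl, PolyH_hom_eval r e hrdeg.le]
      have h3 := congrArg (fun p : K[X] => p.eval x) hdiv
      simp only [eval_add, eval_mul, eval_pow, eval_X] at h3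
      have h4 : ((MvPolynomial.X 1 ^ e : MvPolynomial (Fin 2) K)).eval ![x, 1] = 1 := by simp
      rw [h4, ← two_mul, ← h3]
      ring
    · show (0 : MvPolynomial (Fin 2) K).eval ![x, 1] * (PolyH_hom g e).eval ![x, 1] +
        ((MvPolynomial.X 1 ^ e : MvPolynomial (Fin 2) K)).eval ![x, 1] *
          ((MvPolynomial.X 1 ^ e : MvPolynomial (Fin 2) K)).eval ![x, 1] = 1 ^ (e + e)
      simp

/-- **PROOF.** Upper bound: `Height.logHeight_eval_le'` for the forms
`P 0 = Σ a_i X_0^i X_1^(e - i)`, `P 1 = X_1^e` at the point `![x, 1]`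
(`logHeight₁ x = logHeight ![x, 1]`). Lower bound (`e ≥ 1`; for `e = 0` it is trivial):
`Height.logHeight_eval_ge'` with `M = N = e`: write `X^(2e) = g * q + r` with `natDegree q = e`,
`natDegree r < e` (division by `g`), take for `q (0, 0)`, `q (0, 1)` the homogenisations of degree
`e` of `q` and `r`, and `q (1, 0) = 0`, `q (1, 1) = X_1^e`. -/
theorem height_poly (g : K[X]) :
    ∃ c : ℝ, ∀ x : K, |logHeight₁ (g.eval x) - g.natDegree * logHeight₁ x| ≤ c := by

  obtain ⟨c1, h1⟩ := PolyH_upper g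
  obtain ⟨c2, h2⟩ := PolyH_lower g
  refine ⟨max c1 (-c2), fun x => abs_le.2 ⟨?_, ?_⟩⟩
  · have := h2 x
    have h3 := le_max_right c1 (-c2)
    linarith
  · have := h1 x
    have h3 := le_max_left c1 (-c2)
    linarith

end Pool.Agent.PrepH
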