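import Pool.Agent.PrepH.Defs

/-!
# Algebraic relations between the coordinates on a curve
-/

namespace Pool.Agent.PrepH

open Polynomial

variable {F : Type*} [Field F] {n : ℕ}

/-- **PROOF.** The transcendence degree of the coordinate ring `A = F[X]/I` is `1`, so any two
elements `u, v` of `A` are algebraically dependent: there is `p ≠ 0` in `MvPolynomial (Fin 2) F` with
`aeval ![u, v] p = 0`; apply `Ideal.Quotient.mk_surjective`/`Ideal.Quotient.eq_zero_iff_mem`. -/
theorem exists_dep {I : Ideal (MvPolynomial (Fin n) F)} (hI : IsCurve I)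
    (U V : MvPolynomial (Fin n) F) :
    ∃ p : MvPolynomial (Fin 2) F, p ≠ 0 ∧ MvPolynomial.aeval ![U, V] p ∈ I := by
  have hnot : ¬ AlgebraicIndependent F
      (fun i => Ideal.Quotient.mkₐ F I ((![U, V] : Fin 2 → MvPolynomial (Fin n) F) i)) := by
    intro h
    have h1 := h.lift_cardinalMk_le_trdeg
    rw [hI.dim] at h1
    simp at h1
  rw [algebraicIndependent_iff] at hnot
  push Not at hnot
  obtain ⟨p, hp0, hp⟩ := hnot
  refine ⟨p, hp, ?_⟩
  rw [← MvPolynomial.comp_aeval_apply] at hp0
  exact Ideal.Quotient.eq_zero_iff_mem.mp hp0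

/-- **PROOF.** `exists_dep` for `U = X i`, `V = X j`. -/
theorem exists_rel {I : Ideal (MvPolynomial (Fin n) F)} (hI : IsCurve I) (i j : Fin n) :
    ∃ p : MvPolynomial (Fin 2) F, p ≠ 0 ∧ MvPolynomial.rename ![i, j] p ∈ I := by
  obtain ⟨p, hp, hpI⟩ := exists_dep hI (MvPolynomial.X i) (MvPolynomial.X j)
  refine ⟨p, hp, ?_⟩
  have h : MvPolynomial.rename ![i, j] p =
      MvPolynomial.aeval (![MvPolynomial.X i, MvPolynomial.X j] :
        Fin 2 → MvPolynomial (Fin n) F) p := by
    have h1 : (MvPolynomial.rename (R := F) ![i, j]) =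
        MvPolynomial.aeval (![MvPolynomial.X i, MvPolynomial.X j] :
          Fin 2 → MvPolynomial (Fin n) F) := by
      apply MvPolynomial.algHom_ext
      intro k
      fin_cases k <;> simp
    rw [h1]
  rw [h]
  exact hpI

/-- **PROOF.** `Q` is the image of `p` under an isomorphism between `MvPolynomial (Fin 2) F` and
`F[X][X]` (for example `MvPolynomial.finSuccEquiv`, or
`Q = p.aeval ![C X, X]`; injectivity: two polynomials over an infinite field with equal values, or by
comparing coefficients). `F` is allowed to be finite if this is convenient, otherwise `Infinite F`. -/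
theorem exists_biv [Infinite F] {p : MvPolynomial (Fin 2) F} (hp : p ≠ 0) :
    ∃ Q : F[X][X], Q ≠ 0 ∧ ∀ a b : F, (Q.eval (C b)).eval a = MvPolynomial.eval ![a, b] p := by
  have key : ∀ a b : F, ((MvPolynomial.aeval (![C X, X] : Fin 2 → F[X][X]) p).eval (C b)).eval a =
      MvPolynomial.eval ![a, b] p := by
    intro a b
    have h1 : (evalRingHom a).comp ((evalRingHom (C b)).comp
        (MvPolynomial.aeval (![C X, X] : Fin 2 → F[X][X])).toRingHom) =
        MvPolynomial.eval ![a, b] := by
      apply MvPolynomial.ringHom_ext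
      · intro c
        simp [Polynomial.algebraMap_apply]
      · intro k
        fin_cases k <;> simp
    exact congrArg (fun g => g p) h1
  refine ⟨_, ?_, key⟩
  intro h0
  apply hp
  apply MvPolynomial.funext
  intro x
  have h1 := key (x 0) (x 1)
  rw [h0] at h1
  have h2 : (![x 0, x 1] : Fin 2 → F) = x := by
    funext k
    fin_cases k <;> rfl
  rw [h2] at h1
  simpa using h1.symm

end Pool.Agent.PrepH
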